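import Mathlib

/-!
# Biased lattice achievement and avoidance games: definitions
-/

set_option autoImplicit false

namespace Pool.Agent.H26Z.Lat

/-- The board `V_N = {1, …, N}²`. -/
noncomputable def board (N : ℕ) : Finset (ℤ × ℤ) := Finset.Icc (1 : ℤ) N ×ˢ Finset.Icc (1 : ℤ) N

/-- The seven classes of lattices. -/
inductive LatticeClass
  | alignedSquare
  | alignedRectangle
  | tiltedSquare
  | tiltedRectangle
  | rhombus
  | parallelogram
  | areaOne

/-- The condition which the class puts on the generating vectors `v`, `w`. -/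
def LatticeClass.Cond : LatticeClass → ℤ × ℤ → ℤ × ℤ → Prop
  | .alignedSquare, v, w => ∃ d : ℤ, 1 ≤ d ∧ v = (d, 0) ∧ w = (0, d)
  | .alignedRectangle, v, w => ∃ d e : ℤ, 1 ≤ d ∧ 1 ≤ e ∧ v = (d, 0) ∧ w = (0, e)
  | .tiltedSquare, v, w => w = (-v.2, v.1)
  | .tiltedRectangle, v, w => v.1 * w.1 + v.2 * w.2 = 0
  | .rhombus, v, w => v.1 ^ 2 + v.2 ^ 2 = w.1 ^ 2 + w.2 ^ 2
  | .parallelogram, _, _ => True
  | .areaOne, v, w => |v.1 * w.2 - v.2 * w.1| = 1

/-- `S` is a `q × q` lattice of class `X` in the board `V_N`: `S = {u + k v + l w : 0 ≤ k, l < q}`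
with linearly independent `v`, `w` (nonzero determinant) satisfying the condition of `X`. -/
def IsLattice (X : LatticeClass) (N q : ℕ) (S : Finset (ℤ × ℤ)) : Prop :=
  ∃ u v w : ℤ × ℤ, v.1 * w.2 - v.2 * w.1 ≠ 0 ∧ X.Cond v w ∧ S ⊆ board N ∧
    S = (Finset.range q ×ˢ Finset.range q).image
      (fun p : ℕ × ℕ => u + (p.1 : ℤ) • v + (p.2 : ℤ) • w)

/-- The `(m : b)` achievement game on the board `V` with winning sets the `S` with `W S`.
`MakerWins V W m b M B t` says that Maker has a winning strategy from the position where Maker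
owns `M`, Breaker owns `B`, and Maker (`t = true`) or Breaker (`t = false`) is to move. A move
claims exactly `m` (Maker) or `b` (Breaker) unclaimed points, or all of them if fewer are left.
The play ends when the board is full, and Maker wins if he then owns a whole winning set. -/
inductive MakerWins {α : Type} [DecidableEq α] (V : Finset α) (W : Finset α → Prop) (m b : ℕ) :
    Finset α → Finset α → Bool → Prop
  | finish (M B : Finset α) (t : Bool) :
      V ⊆ M ∪ B → (∃ S, W S ∧ S ⊆ M) → MakerWins V W m b M B t
  | maker (M B T : Finset α) :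
      ¬ V ⊆ M ∪ B → T ⊆ V \ (M ∪ B) → T.card = min m (V \ (M ∪ B)).card →
      MakerWins V W m b (M ∪ T) B false → MakerWins V W m b M B true
  | breaker (M B : Finset α) :
      ¬ V ⊆ M ∪ B →
      (∀ T, T ⊆ V \ (M ∪ B) → T.card = min b (V \ (M ∪ B)).card →
        MakerWins V W m b M (B ∪ T) true) →
      MakerWins V W m b M B false

/-- The `(a : f)` avoidance game on the board `V` with target sets the `S` with `W S`.
`ForcerWins V W a f A F t` says that Forcer has a winning strategy from the position where Avoider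
owns `A`, Forcer owns `F`, and Avoider (`t = true`) or Forcer (`t = false`) is to move. A move
claims exactly `a` (Avoider) or `f` (Forcer) unclaimed points, or all of them if fewer are left.
The play ends when the board is full, and Forcer wins if Avoider then owns a whole target set. -/
inductive ForcerWins {α : Type} [DecidableEq α] (V : Finset α) (W : Finset α → Prop) (a f : ℕ) :
    Finset α → Finset α → Bool → Prop
  | finish (A F : Finset α) (t : Bool) :
      V ⊆ A ∪ F → (∃ S, W S ∧ S ⊆ A) → ForcerWins V W a f A F t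
  | avoider (A F : Finset α) :
      ¬ V ⊆ A ∪ F →
      (∀ T, T ⊆ V \ (A ∪ F) → T.card = min a (V \ (A ∪ F)).card →
        ForcerWins V W a f (A ∪ T) F false) →
      ForcerWins V W a f A F true
  | forcer (A F T : Finset α) :
      ¬ V ⊆ A ∪ F → T ⊆ V \ (A ∪ F) → T.card = min f (V \ (A ∪ F)).card →
      ForcerWins V W a f A (F ∪ T) true → ForcerWins V W a f A F false

/-- `A(N; X; m : b)`: the largest `q ≥ 2` such that Maker, moving first on the empty board `V_N`,
can own a whole `q × q` lattice of class `X` (and `0` if there is no such `q`). -/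
noncomputable def achieveNumber (N : ℕ) (X : LatticeClass) (m b : ℕ) : ℕ :=
  sSup {q : ℕ | 2 ≤ q ∧ MakerWins (board N) (IsLattice X N q) m b ∅ ∅ true}

/-- `A(N; X; a : f; -)`: the largest `q ≥ 2` such that Forcer can force Avoider to own a whole
`q × q` lattice of class `X` (and `0` if there is no such `q`); Avoider moves first if
`avoiderFirst = true`, and Forcer moves first otherwise. -/
noncomputable def avoidNumber (avoiderFirst : Bool) (N : ℕ) (X : LatticeClass) (a f : ℕ) : ℕ :=
  sSup {q : ℕ | 2 ≤ q ∧ ForcerWins (board N) (IsLattice X N q) a f ∅ ∅ avoiderFirst}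

/-- `Λ`, with `c = (m + b) / m` and `c₀ = m / (m - b)`. -/
noncomputable def lam (m b N : ℕ) : ℝ :=
  if b < m then
    Real.logb (((m : ℝ) + b) / m) N + 2 * Real.logb ((m : ℝ) / ((m : ℝ) - b)) N
  else Real.logb (((m : ℝ) + b) / m) N

/-- `Λ'`, with `c = (m + b) / m` and `c₀ = m / (m - b)`. -/
noncomputable def lam' (m b N : ℕ) : ℝ :=
  if b < m then
    2 * Real.logb (((m : ℝ) + b) / m) N + 2 * Real.logb ((m : ℝ) / ((m : ℝ) - b)) N
  else 2 * Real.logb (((m : ℝ) + b) / m) N

/-- The conjectured value `g_X(N)` for the `(m : b)` achievement game. -/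
noncomputable def gConj (X : LatticeClass) (m b N : ℕ) : ℝ :=
  match X with
  | .alignedSquare => Real.sqrt (lam m b N)
  | .parallelogram => 2 * Real.sqrt (lam m b N)
  | _ => Real.sqrt (lam' m b N)

/-- The conjectured value `h_X(N)` for the `(a : f)` avoidance game, with `c = (a + f) / a`. -/
noncomputable def hConj (X : LatticeClass) (a f N : ℕ) : ℝ :=
  match X with
  | .alignedSquare => Real.sqrt (Real.logb (((a : ℝ) + f) / a) N)
  | .parallelogram => 2 * Real.sqrt (Real.logb (((a : ℝ) + f) / a) N)
  | _ => Real.sqrt (2 * Real.logb (((a : ℝ) + f) / a) N)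

end Pool.Agent.H26Z.Lat
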