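import Mathlib
import Pool.Agent.H26Z.LatDefs

/-!
# A block version of the biased building criterion for Maker
-/

set_option autoImplicit false

open Finset

namespace Pool.Agent.H26Z.Lat

/-- A system of pairwise disjoint blocks of `m` points of the board `V`, and a linear hypergraph
on the blocks, with at most `n` blocks in each edge, whose edges cover winning sets. -/
structure BlockSys {α β ι : Type} [DecidableEq α] [DecidableEq β] (V : Finset α)
    (W : Finset α → Prop) (m n : ℕ) (P : Finset β) (blk : β → Finset α) (I : Finset ι)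
    (e : ι → Finset β) : Prop where
  sub : ∀ X ∈ P, blk X ⊆ V
  card : ∀ X ∈ P, (blk X).card = m
  disj : ∀ X ∈ P, ∀ Y ∈ P, X ≠ Y → Disjoint (blk X) (blk Y)
  esub : ∀ i ∈ I, e i ⊆ P
  ecard : ∀ i ∈ I, (e i).card ≤ n
  lin : ∀ X Y : β, X ≠ Y → (I.filter (fun i => X ∈ e i ∧ Y ∈ e i)).card ≤ 1
  cover : ∀ i ∈ I, ∃ S, W S ∧ ∀ x ∈ S, ∃ X ∈ e i, x ∈ blk X

section
variable {α β ι : Type} [DecidableEq α] [DecidableEq β]

theorem card_free_lt {V M B T : Finset α} (hT : T ⊆ V \ (M ∪ B)) (hne : T.Nonempty) :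
    (V \ (M ∪ T ∪ B)).card < (V \ (M ∪ B)).card := by
  apply card_lt_card
  refine ⟨fun x hx => ?_, fun h => ?_⟩
  · simp only [mem_sdiff, mem_union, not_or] at hx ⊢
    tauto
  · obtain ⟨x, hx⟩ := hne
    have := h (hT hx)
    simp only [mem_sdiff, mem_union, not_or] at this
    tauto

theorem card_free_lt' {V M B T : Finset α} (hT : T ⊆ V \ (M ∪ B)) (hne : T.Nonempty) :
    (V \ (M ∪ (B ∪ T))).card < (V \ (M ∪ B)).card := by
  have : M ∪ (B ∪ T) = M ∪ T ∪ B := by
    ext x; simp only [mem_union]; tauto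
  rw [this]; exact card_free_lt hT hne

theorem nonempty_of_move {V M B T : Finset α} {k : ℕ} (hk : 1 ≤ k) (h : ¬ V ⊆ M ∪ B)
    (hT : T.card = min k (V \ (M ∪ B)).card) : T.Nonempty := by
  have h1 : (V \ (M ∪ B)).Nonempty := sdiff_nonempty.2 h
  have h2 := h1.card_pos
  rw [← card_pos]; omega

theorem maker_of_owned {V : Finset α} {W : Finset α → Prop} {m b : ℕ} (hm : 1 ≤ m) (hb : 1 ≤ b) :
    ∀ (k : ℕ) (M B : Finset α) (t : Bool), (V \ (M ∪ B)).card ≤ k → (∃ S, W S ∧ S ⊆ M) →
      MakerWins V W m b M B t := by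
  intro k
  induction k with
  | zero =>
    intro M B t hk hS
    refine MakerWins.finish M B t ?_ hS
    have : V \ (M ∪ B) = ∅ := card_eq_zero.1 (by omega)
    exact sdiff_eq_empty_iff_subset.1 this
  | succ k ih =>
    intro M B t hk hS
    by_cases hV : V ⊆ M ∪ B
    · exact MakerWins.finish M B t hV hS
    cases t with
    | true =>
      obtain ⟨T, hT, hc⟩ := exists_subset_card_eq (s := V \ (M ∪ B))
        (n := min m (V \ (M ∪ B)).card) (min_le_right _ _)
      refine MakerWins.maker M B T hV hT hc (ih _ _ _ ?_ ?_)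
      · have := card_free_lt hT (nonempty_of_move hm hV hc); omega
      · obtain ⟨S, h1, h2⟩ := hS
        exact ⟨S, h1, h2.trans subset_union_left⟩
    | false =>
      refine MakerWins.breaker M B hV fun T hT hc => ih _ _ _ ?_ hS
      have := card_free_lt' hT (nonempty_of_move hb hV hc); omega

theorem MakerWins.exists_win {V : Finset α} {W : Finset α → Prop} {m b : ℕ}
    {M B : Finset α} {t : Bool} (h : MakerWins V W m b M B t) : ∃ S, W S := by
  induction h with
  | finish M B t _ hS => obtain ⟨S, h1, _⟩ := hS; exact ⟨S, h1⟩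
  | maker M B T _ _ _ _ ih => exact ih
  | breaker M B hV _ ih =>
    obtain ⟨T, hT, hc⟩ := exists_subset_card_eq (s := V \ (M ∪ B))
        (n := min b (V \ (M ∪ B)).card) (min_le_right _ _)
    exact ih T hT hc

theorem ForcerWins.exists_win {V : Finset α} {W : Finset α → Prop} {a f : ℕ}
    {A F : Finset α} {t : Bool} (h : ForcerWins V W a f A F t) : ∃ S, W S := by
  induction h with
  | finish A F t _ hS => obtain ⟨S, h1, _⟩ := hS; exact ⟨S, h1⟩
  | forcer A F T _ _ _ _ ih => exact ih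
  | avoider A F hV _ ih =>
    obtain ⟨T, hT, hc⟩ := exists_subset_card_eq (s := V \ (A ∪ F))
        (n := min a (V \ (A ∪ F)).card) (min_le_right _ _)
    exact ih T hT hc

/-- A set `T` of points meets at most `|T|` blocks. -/
theorem card_hit_le {P : Finset β} {blk : β → Finset α}
    (hd : ∀ X ∈ P, ∀ Y ∈ P, X ≠ Y → Disjoint (blk X) (blk Y)) (T : Finset α) (Q : Finset β)
    (hQ : Q ⊆ P) (hh : ∀ Y ∈ Q, ¬ Disjoint (blk Y) T) : Q.card ≤ T.card := by
  classical
  have h1 : ∀ Y ∈ Q, ∃ x, x ∈ blk Y ∧ x ∈ T := by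
    intro Y hY
    have := hh Y hY
    rw [not_disjoint_iff] at this
    exact this
  choose g hg using h1
  have h2 : Q.attach.card ≤ T.card := by
    refine card_le_card_of_injOn (fun Y => g Y.1 Y.2) (fun Y _ => (hg Y.1 Y.2).2) ?_
    intro Y _ Z _ hYZ
    by_contra hne
    have hne' : Y.1 ≠ Z.1 := fun h => hne (Subtype.ext h)
    have := hd Y.1 (hQ Y.2) Z.1 (hQ Z.2) hne'
    have a1 := (hg Y.1 Y.2).1
    have a2 := (hg Z.1 Z.2).1
    simp only at hYZ
    rw [← hYZ] at a2
    exact disjoint_left.1 this a1 a2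
  simpa using h2

/-- weight of an edge for Maker -/
noncomputable def mw (blk : β → Finset α) (e : ι → Finset β) (b : ℕ) (O : Finset β)
    (B : Finset α) (i : ι) : ℕ :=
  open Classical in
  if ∀ X ∈ e i, Disjoint (blk X) B then (1 + b) ^ (e i ∩ O).card else 0

theorem mw_insert (blk : β → Finset α) (e : ι → Finset β) (b : ℕ) (O : Finset β)
    (B : Finset α) (i : ι) (X : β) (hX : X ∉ O) :
    mw blk e b (insert X O) B i = mw blk e b O B i + b * (if X ∈ e i then mw blk e b O B i else 0) := by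
  unfold mw
  split_ifs with h1 h2
  · have : e i ∩ insert X O = insert X (e i ∩ O) := by
      rw [inter_insert_of_mem h2]
    rw [this, card_insert_of_notMem (by simp [hX])]
    ring
  · rw [inter_insert_of_notMem h2]; simp
  · simp
  · simp

theorem mw_le (blk : β → Finset α) (e : ι → Finset β) (b n : ℕ) (O : Finset β)
    (B : Finset α) (i : ι) (hn : (e i).card ≤ n) : mw blk e b O B i ≤ (1 + b) ^ n := by
  unfold mw
  split_ifs
  · exact Nat.pow_le_pow_right (by omega) ((card_le_card inter_subset_left).trans hn)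
  · exact Nat.zero_le _

theorem mw_kill (blk : β → Finset α) (e : ι → Finset β) (b : ℕ) (O : Finset β)
    (B T : Finset α) (i : ι) (Q : Finset β)
    (hQ : ∀ Y ∈ e i, Disjoint (blk Y) B → ¬ Disjoint (blk Y) T → Y ∈ Q) :
    mw blk e b O B i ≤ mw blk e b O (B ∪ T) i + ∑ Y ∈ Q, if Y ∈ e i then mw blk e b O B i else 0 := by
  by_cases h1 : ∀ X ∈ e i, Disjoint (blk X) B
  · by_cases h2 : ∀ X ∈ e i, Disjoint (blk X) T
    · have h3 : ∀ X ∈ e i, Disjoint (blk X) (B ∪ T) := fun X hX =>
        disjoint_union_right.2 ⟨h1 X hX, h2 X hX⟩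
      have : mw blk e b O B i = mw blk e b O (B ∪ T) i := by
        unfold mw; rw [if_pos h1, if_pos h3]
      omega
    · push Not at h2
      obtain ⟨Y, hY, hYT⟩ := h2
      have hYQ := hQ Y hY (h1 Y hY) hYT
      have := single_le_sum (f := fun Y => if Y ∈ e i then mw blk e b O B i else 0)
        (fun _ _ => Nat.zero_le _) hYQ
      simp only [hY, if_true] at this
      omega
  · have : mw blk e b O B i = 0 := by unfold mw; rw [if_neg h1]
    omega

theorem maker_step {V : Finset α} {W : Finset α → Prop} {m n b : ℕ} {P : Finset β}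
    {blk : β → Finset α} {I : Finset ι} {e : ι → Finset β} (H : BlockSys V W m n P blk I e)
    (O : Finset β) (B T : Finset α) (X : β) (hX : X ∉ O) (hT : T.card ≤ b)
    (hOT : ∀ Y ∈ insert X O, Disjoint (blk Y) T)
    (hmax : ∀ Y ∈ P, Y ∉ O → Disjoint (blk Y) B →
      ∑ i ∈ I, (if Y ∈ e i then mw blk e b O B i else 0) ≤
        ∑ i ∈ I, (if X ∈ e i then mw blk e b O B i else 0)) :
    ∑ i ∈ I, mw blk e b O B i ≤
      ∑ i ∈ I, mw blk e b (insert X O) (B ∪ T) i + b * (b * (1 + b) ^ n) := by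
  classical
  set Q := P.filter (fun Y => Disjoint (blk Y) B ∧ ¬ Disjoint (blk Y) T) with hQ
  have hQc : Q.card ≤ b := (card_hit_le H.disj T Q (filter_subset _ _)
    (fun Y hY => (mem_filter.1 hY).2.2)).trans hT
  set wX := ∑ i ∈ I, (if X ∈ e i then mw blk e b O B i else 0) with hwX
  have h1 : ∑ i ∈ I, mw blk e b (insert X O) B i = ∑ i ∈ I, mw blk e b O B i + b * wX := by
    rw [hwX, mul_sum, ← sum_add_distrib]
    exact sum_congr rfl fun i _ => mw_insert blk e b O B i X hX
  have h2 : ∑ i ∈ I, mw blk e b (insert X O) B i ≤ ∑ i ∈ I, mw blk e b (insert X O) (B ∪ T) i +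
      ∑ Y ∈ Q, ∑ i ∈ I, if Y ∈ e i then mw blk e b (insert X O) B i else 0 := by
    rw [sum_comm, ← sum_add_distrib]
    refine sum_le_sum fun i hi => mw_kill blk e b _ B T i Q fun Y hY h h' => ?_
    exact mem_filter.2 ⟨H.esub i hi hY, h, h'⟩
  have h3 : ∀ Y ∈ Q, (∑ i ∈ I, if Y ∈ e i then mw blk e b (insert X O) B i else 0) ≤
      wX + b * (1 + b) ^ n := by
    intro Y hY
    obtain ⟨hYP, hYB, hYT⟩ := mem_filter.1 hY
    have hYO : Y ∉ insert X O := fun h => hYT (hOT Y h)
    have hYX : Y ≠ X := fun h => hYO (h ▸ mem_insert_self _ _)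
    have hYO' : Y ∉ O := fun h => hYO (mem_insert_of_mem h)
    have h4 : (∑ i ∈ I, if Y ∈ e i then mw blk e b (insert X O) B i else 0) =
        (∑ i ∈ I, if Y ∈ e i then mw blk e b O B i else 0) +
          b * ∑ i ∈ I.filter (fun i => Y ∈ e i ∧ X ∈ e i), mw blk e b O B i := by
      rw [sum_filter, mul_sum, ← sum_add_distrib]
      refine sum_congr rfl fun i _ => ?_
      rw [mw_insert blk e b O B i X hX]
      by_cases a1 : Y ∈ e i <;> by_cases a2 : X ∈ e i <;> simp [a1, a2]
    have h5 : ∑ i ∈ I.filter (fun i => Y ∈ e i ∧ X ∈ e i), mw blk e b O B i ≤ (1 + b) ^ n := by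
      have h6 := sum_le_card_nsmul (I.filter (fun i => Y ∈ e i ∧ X ∈ e i))
        (fun i => mw blk e b O B i) ((1 + b) ^ n)
        (fun i hi => mw_le blk e b n O B i (H.ecard i (mem_filter.1 hi).1))
      have h7 := H.lin Y X hYX
      rw [smul_eq_mul] at h6
      calc _ ≤ _ := h6
        _ ≤ 1 * (1 + b) ^ n := Nat.mul_le_mul_right _ h7
        _ = _ := one_mul _
    have h8 := hmax Y hYP hYO' hYB
    have h9 := Nat.mul_le_mul_left b h5
    omega
  have h10 := sum_le_card_nsmul Q _ _ h3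
  rw [smul_eq_mul] at h10
  have h11 : Q.card * (wX + b * (1 + b) ^ n) ≤ b * (wX + b * (1 + b) ^ n) :=
    Nat.mul_le_mul_right _ hQc
  rw [mul_add b] at h11
  omega

theorem maker_main {V : Finset α} {W : Finset α → Prop} {m n b : ℕ} {P : Finset β}
    {blk : β → Finset α} {I : Finset ι} {e : ι → Finset β} (H : BlockSys V W m n P blk I e)
    (hm : 1 ≤ m) (hb : 1 ≤ b) :
    ∀ (r : ℕ) (O : Finset β) (M B : Finset α),
      (P.filter (fun Y => Y ∉ O ∧ Disjoint (blk Y) B)).card ≤ r →
      (∀ Y ∈ O, blk Y ⊆ M) → (∀ Y ∈ P, Y ∉ O → Disjoint (blk Y) M) →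
      r * (b * (b * (1 + b) ^ n)) < ∑ i ∈ I, mw blk e b O B i →
      MakerWins V W m b M B true := by
  classical
  have alive : ∀ (O : Finset β) (B : Finset α), 0 < ∑ i ∈ I, mw blk e b O B i →
      ∃ i ∈ I, ∀ X ∈ e i, Disjoint (blk X) B := by
    intro O B h
    obtain ⟨i, hi, hne⟩ := exists_ne_zero_of_sum_ne_zero h.ne'
    refine ⟨i, hi, ?_⟩
    by_contra hc
    apply hne
    unfold mw; rw [if_neg hc]
  have fin : ∀ (O : Finset β) (M B : Finset α),
      P.filter (fun Y => Y ∉ O ∧ Disjoint (blk Y) B) = ∅ → (∀ Y ∈ O, blk Y ⊆ M) →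
      0 < ∑ i ∈ I, mw blk e b O B i → MakerWins V W m b M B true := by
    intro O M B h0 hO hpos
    obtain ⟨i, hi, ha⟩ := alive O B hpos
    obtain ⟨S, hS, hc⟩ := H.cover i hi
    refine maker_of_owned hm hb _ M B true le_rfl ⟨S, hS, fun x hx => ?_⟩
    obtain ⟨X, hX, hx⟩ := hc x hx
    have : X ∈ O := by
      by_contra hXO
      have : X ∈ P.filter (fun Y => Y ∉ O ∧ Disjoint (blk Y) B) :=
        mem_filter.2 ⟨H.esub i hi hX, hXO, ha X hX⟩
      rw [h0] at this; simp at this
    exact hO X this hx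
  intro r
  induction r with
  | zero =>
    intro O M B hr hO _ hpot
    exact fin O M B (card_eq_zero.1 (by omega)) hO (by omega)
  | succ r ih =>
    intro O M B hr hO hO' hpot
    by_cases hne : (P.filter (fun Y => Y ∉ O ∧ Disjoint (blk Y) B)).Nonempty
    swap
    · exact fin O M B (not_nonempty_iff_eq_empty.1 hne) hO (by omega)
    obtain ⟨X, hXF, hmax⟩ := exists_max_image _
      (fun Y => ∑ i ∈ I, (if Y ∈ e i then mw blk e b O B i else 0)) hne
    obtain ⟨hXP, hXO, hXB⟩ := mem_filter.1 hXF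
    have hsub : blk X ⊆ V \ (M ∪ B) := by
      rw [subset_sdiff]
      exact ⟨H.sub X hXP, disjoint_union_right.2 ⟨hO' X hXP hXO, hXB⟩⟩
    have hcard := H.card X hXP
    have hle := card_le_card hsub
    have hV : ¬ V ⊆ M ∪ B := by
      rw [← sdiff_nonempty, ← card_pos]; omega
    refine MakerWins.maker M B (blk X) hV hsub (by omega) ?_
    have hO1 : ∀ Y ∈ insert X O, blk Y ⊆ M ∪ blk X := by
      intro Y hY
      rcases mem_insert.1 hY with rfl | hY
      · exact subset_union_right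
      · exact (hO Y hY).trans subset_union_left
    by_cases hV2 : V ⊆ M ∪ blk X ∪ B
    · obtain ⟨i, hi, ha⟩ := alive O B (by omega)
      obtain ⟨S, hS, hc⟩ := H.cover i hi
      refine MakerWins.finish _ _ _ hV2 ⟨S, hS, fun x hx => ?_⟩
      obtain ⟨Y, hY, hx⟩ := hc x hx
      have h1 := hV2 (H.sub Y (H.esub i hi hY) hx)
      rcases mem_union.1 h1 with h1 | h1
      · exact h1
      · exact absurd h1 (disjoint_left.1 (ha Y hY) hx)
    refine MakerWins.breaker _ _ hV2 fun T hT hTc => ?_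
    have hOT : ∀ Y ∈ insert X O, Disjoint (blk Y) T := by
      intro Y hY
      rw [disjoint_left]
      intro x hx hxT
      have := (mem_sdiff.1 (hT hxT)).2
      exact this (mem_union_left _ (hO1 Y hY hx))
    have hstep := maker_step H O B T X hXO (by omega) hOT
      (fun Y hY hYO hYB => hmax Y (mem_filter.2 ⟨hY, hYO, hYB⟩))
    refine ih (insert X O) (M ∪ blk X) (B ∪ T) ?_ hO1 ?_ ?_
    · have : P.filter (fun Y => Y ∉ insert X O ∧ Disjoint (blk Y) (B ∪ T)) ⊆
          (P.filter (fun Y => Y ∉ O ∧ Disjoint (blk Y) B)).erase X := by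
        intro Y hY
        obtain ⟨a1, a2, a3⟩ := mem_filter.1 hY
        refine mem_erase.2 ⟨fun h => a2 (h ▸ mem_insert_self _ _), mem_filter.2 ⟨a1,
          fun h => a2 (mem_insert_of_mem h), (disjoint_union_right.1 a3).1⟩⟩
      have h2 := card_le_card this
      rw [card_erase_of_mem hXF] at h2
      omega
    · intro Y hY hYO
      have hYX : Y ≠ X := fun h => hYO (h ▸ mem_insert_self _ _)
      exact disjoint_union_right.2 ⟨hO' Y hY (fun h => hYO (mem_insert_of_mem h)),
        H.disj Y hY X hXP hYX⟩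
    · rw [add_mul] at hpot
      omega

theorem maker_criterion {V : Finset α} {W : Finset α → Prop} {m n b : ℕ} {P : Finset β}
    {blk : β → Finset α} {I : Finset ι} {e : ι → Finset β} (H : BlockSys V W m n P blk I e)
    (hm : 1 ≤ m) (hb : 1 ≤ b) (h : P.card * (b * (b * (1 + b) ^ n)) < I.card) :
    MakerWins V W m b ∅ ∅ true := by
  classical
  refine maker_main H hm hb P.card ∅ ∅ ∅ (card_filter_le _ _) (by simp) (by simp) ?_
  have : ∀ i ∈ I, mw blk e b ∅ ∅ i = 1 := by
    intro i _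
    unfold mw
    simp
  rw [sum_congr rfl this]
  simpa using h

end

end Pool.Agent.H26Z.Lat
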