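import Mathlib
import Pool.Agent.H26Z.LatMaker

/-!
# A block criterion for Forcer
-/

set_option autoImplicit false
set_option linter.unusedSectionVars false

open Finset

namespace Pool.Agent.H26Z.Lat

/-- weight of a block with `c` points not owned by Avoider -/
noncomputable def om (c : ℕ) : ℝ := 2 / (((c : ℝ) + 1) * ((c : ℝ) + 2))

theorem om_pos (c : ℕ) : 0 < om c := by unfold om; positivity

theorem om_anti {c d : ℕ} (h : c ≤ d) : om d ≤ om c := by
  unfold om
  have : (c : ℝ) ≤ d := by exact_mod_cast h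
  apply div_le_div_of_nonneg_left (by norm_num) (by positivity)
  gcongr

theorem om_le_one (c : ℕ) : om c ≤ 1 := by
  have := om_anti (Nat.zero_le c)
  have h0 : om 0 = 1 := by unfold om; norm_num
  linarith

theorem om_step (c : ℕ) : om c = (1 + 2 / ((c + 1 : ℕ) : ℝ)) * om (c + 1) := by
  unfold om
  push_cast
  field_simp
  ring

section
variable {α β ι : Type} [DecidableEq α] [DecidableEq β]

/-- weight of an edge for Forcer -/
noncomputable def fw (blk : β → Finset α) (e : ι → Finset β) (A F : Finset α) (i : ι) : ℝ :=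
  open Classical in
  if ∀ X ∈ e i, Disjoint (blk X) F then ∏ X ∈ e i, om (blk X \ A).card else 0

theorem fw_nonneg (blk : β → Finset α) (e : ι → Finset β) (A F : Finset α) (i : ι) :
    0 ≤ fw blk e A F i := by
  unfold fw
  split_ifs
  · exact prod_nonneg fun X _ => (om_pos _).le
  · exact le_rfl

theorem fw_le_one (blk : β → Finset α) (e : ι → Finset β) (A F : Finset α) (i : ι) :
    fw blk e A F i ≤ 1 := by
  unfold fw
  split_ifs
  · exact prod_le_one (fun X _ => (om_pos _).le) fun X _ => om_le_one _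
  · exact zero_le_one

theorem fw_mono (blk : β → Finset α) (e : ι → Finset β) {A A' : Finset α} (F : Finset α) (i : ι)
    (h : A ⊆ A') : fw blk e A F i ≤ fw blk e A' F i := by
  unfold fw
  split_ifs
  · exact prod_le_prod (fun X _ => (om_pos _).le) fun X _ =>
      om_anti (card_le_card (sdiff_subset_sdiff le_rfl h))
  · exact le_rfl

theorem fw_insert (blk : β → Finset α) (e : ι → Finset β) (A F : Finset α) (i : ι) (x : α)
    (Y : β) (hx : x ∉ A) (hY : x ∈ blk Y) :
    fw blk e A F i + 2 / ((blk Y \ A).card : ℝ) * (if Y ∈ e i then fw blk e A F i else 0) ≤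
      fw blk e (insert x A) F i := by
  by_cases hi : Y ∈ e i
  · rw [if_pos hi]
    unfold fw
    split_ifs
    · rw [← mul_prod_erase _ _ hi, ← mul_prod_erase _ (fun X => om (blk X \ insert x A).card) hi]
      have h1 : (blk Y \ A).card = (blk Y \ insert x A).card + 1 := by
        rw [sdiff_insert, card_erase_add_one]
        exact mem_sdiff.2 ⟨hY, hx⟩
      have h2 := om_step (blk Y \ insert x A).card
      rw [← h1] at h2
      have h3 : ∏ X ∈ (e i).erase Y, om (blk X \ A).card ≤
          ∏ X ∈ (e i).erase Y, om (blk X \ insert x A).card :=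
        prod_le_prod (fun X _ => (om_pos _).le) fun X _ =>
          om_anti (card_le_card (sdiff_subset_sdiff le_rfl (subset_insert _ _)))
      rw [h2]
      have h4 := om_pos (blk Y \ A).card
      have h5 : (0 : ℝ) ≤ 2 / ((blk Y \ A).card : ℝ) := by positivity
      have h6 : 0 ≤ (1 + 2 / ((blk Y \ A).card : ℝ)) * om (blk Y \ A).card := by positivity
      have h7 := mul_le_mul_of_nonneg_left h3 h6
      linarith
    · simp
  · rw [if_neg hi, mul_zero, add_zero]
    exact fw_mono blk e F i (subset_insert _ _)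

theorem fw_gain (blk : β → Finset α) (e : ι → Finset β) (I : Finset ι) (A F G : Finset α) (γ : ℝ)
    (hG : ∀ x ∈ G, x ∉ A ∧ ∃ Y, x ∈ blk Y ∧
      γ ≤ 2 / ((blk Y \ A).card : ℝ) * ∑ i ∈ I, (if Y ∈ e i then fw blk e A F i else 0))
    (T : Finset α) :
    ∑ i ∈ I, fw blk e A F i + ((T ∩ G).card : ℝ) * γ ≤ ∑ i ∈ I, fw blk e (A ∪ T) F i := by
  induction T using Finset.induction_on with
  | empty => simp
  | insert x T hxT ih =>
    have hU : A ∪ insert x T = insert x (A ∪ T) := by
      ext y; simp only [mem_union, mem_insert]; tauto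
    rw [hU]
    by_cases hx : x ∈ G
    · obtain ⟨hxA, Y, hY, hγ⟩ := hG x hx
      have hxAT : x ∉ A ∪ T := by simp [hxA, hxT]
      have h1 : ∑ i ∈ I, fw blk e (A ∪ T) F i + 2 / ((blk Y \ (A ∪ T)).card : ℝ) *
          ∑ i ∈ I, (if Y ∈ e i then fw blk e (A ∪ T) F i else 0) ≤
          ∑ i ∈ I, fw blk e (insert x (A ∪ T)) F i := by
        rw [mul_sum, ← sum_add_distrib]
        exact sum_le_sum fun i _ => fw_insert blk e _ F i x Y hxAT hY
      have h2 : ∑ i ∈ I, (if Y ∈ e i then fw blk e A F i else 0) ≤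
          ∑ i ∈ I, (if Y ∈ e i then fw blk e (A ∪ T) F i else 0) := by
        refine sum_le_sum fun i _ => ?_
        split_ifs
        · exact fw_mono blk e F i subset_union_left
        · exact le_rfl
      have h3 : 0 ≤ ∑ i ∈ I, (if Y ∈ e i then fw blk e A F i else 0) := by
        refine sum_nonneg fun i _ => ?_
        split_ifs
        · exact fw_nonneg blk e A F i
        · exact le_rfl
      have h4 : 0 < (blk Y \ (A ∪ T)).card := card_pos.2 ⟨x, mem_sdiff.2 ⟨hY, hxAT⟩⟩
      have h5 : (blk Y \ (A ∪ T)).card ≤ (blk Y \ A).card :=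
        card_le_card (sdiff_subset_sdiff le_rfl subset_union_left)
      have h6 : 2 / ((blk Y \ A).card : ℝ) ≤ 2 / ((blk Y \ (A ∪ T)).card : ℝ) := by
        apply div_le_div_of_nonneg_left (by norm_num) (by exact_mod_cast h4)
        exact_mod_cast h5
      have h7 : 2 / ((blk Y \ A).card : ℝ) * ∑ i ∈ I, (if Y ∈ e i then fw blk e A F i else 0) ≤
          2 / ((blk Y \ (A ∪ T)).card : ℝ) *
          ∑ i ∈ I, (if Y ∈ e i then fw blk e (A ∪ T) F i else 0) :=
        mul_le_mul h6 h2 h3 (by positivity)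
      rw [insert_inter_of_mem hx, card_insert_of_notMem (by simp [hxT])]
      push_cast
      linarith
    · rw [insert_inter_of_notMem hx]
      refine ih.trans (sum_le_sum fun i _ => fw_mono blk e F i (subset_insert _ _))

theorem fw_kill (blk : β → Finset α) (e : ι → Finset β) (A F T : Finset α) (i : ι) (K : Finset β)
    (hK : ∀ Y ∈ e i, Disjoint (blk Y) F → ¬ Disjoint (blk Y) T → Y ∈ K) :
    fw blk e A F i ≤ fw blk e A (F ∪ T) i + ∑ Y ∈ K, if Y ∈ e i then fw blk e A F i else 0 := by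
  have hn : ∀ Y ∈ K, 0 ≤ if Y ∈ e i then fw blk e A F i else 0 := by
    intro Y _
    split_ifs
    · exact fw_nonneg blk e A F i
    · exact le_rfl
  have hs := sum_nonneg hn
  have h0 := fw_nonneg blk e A (F ∪ T) i
  by_cases h1 : ∀ X ∈ e i, Disjoint (blk X) F
  · by_cases h2 : ∀ X ∈ e i, Disjoint (blk X) T
    · have h3 : ∀ X ∈ e i, Disjoint (blk X) (F ∪ T) := fun X hX =>
        disjoint_union_right.2 ⟨h1 X hX, h2 X hX⟩
      have : fw blk e A F i = fw blk e A (F ∪ T) i := by
        unfold fw; rw [if_pos h1, if_pos h3]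
      linarith
    · push Not at h2
      obtain ⟨Y, hY, hYT⟩ := h2
      have hYQ := hK Y hY (h1 Y hY) hYT
      have := single_le_sum hn hYQ
      simp only [hY, if_true] at this
      linarith
  · have : fw blk e A F i = 0 := by unfold fw; rw [if_neg h1]
    linarith

/-- choosing the cheapest blocks -/
theorem select_blocks (s : β → ℕ) (ρ : β → ℝ) (m g : ℕ) (hg : 0 < g) :
    ∀ (k : ℕ) (Q : Finset β), Q.card = k → (∀ X ∈ Q, s X ≤ m) → g ≤ ∑ X ∈ Q, s X →
      ∃ K ⊆ Q, ∃ X₀ ∈ K, g ≤ ∑ X ∈ K, s X ∧ ∑ X ∈ K, s X < g + m ∧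
        (∀ X ∈ K, ρ X ≤ ρ X₀) ∧ ∀ Y ∈ Q, Y ∉ K → ρ X₀ ≤ ρ Y := by
  intro k
  induction k with
  | zero =>
    intro Q hQ _ h
    rw [card_eq_zero.1 hQ] at h
    simp at h; omega
  | succ k ih =>
    intro Q hQ hs h
    have hne : Q.Nonempty := card_pos.1 (by omega)
    obtain ⟨Y, hY, hmax⟩ := exists_max_image Q ρ hne
    by_cases h2 : g ≤ ∑ X ∈ Q.erase Y, s X
    · obtain ⟨K, hK, X₀, hX₀, a1, a2, a3, a4⟩ := ih (Q.erase Y)
        (by rw [card_erase_of_mem hY]; omega) (fun X hX => hs X (mem_of_mem_erase hX)) h2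
      refine ⟨K, hK.trans (erase_subset _ _), X₀, hX₀, a1, a2, a3, fun Z hZ hZK => ?_⟩
      by_cases hZY : Z = Y
      · rw [hZY]; exact hmax X₀ (mem_of_mem_erase (hK hX₀))
      · exact a4 Z (mem_erase.2 ⟨hZY, hZ⟩) hZK
    · refine ⟨Q, le_rfl, Y, hY, h, ?_, hmax, fun Z hZ hZK => absurd hZ hZK⟩
      rw [← add_sum_erase _ _ hY]
      have := hs Y hY
      omega

end

end Pool.Agent.H26Z.Lat
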