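import Mathlib
import Pool.Agent.H26Z.LatForcer

/-!
# A block criterion for Forcer: the main induction
-/

set_option autoImplicit false
set_option linter.unusedSectionVars false

open Finset

namespace Pool.Agent.H26Z.Lat

section
variable {α β ι : Type} [DecidableEq α] [DecidableEq β]

/-- blocks which Forcer has not touched and Avoider has not filled -/
noncomputable def act (P : Finset β) (blk : β → Finset α) (A F : Finset α) : Finset β :=
  open Classical in P.filter (fun X => Disjoint (blk X) F ∧ ¬ blk X ⊆ A)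

theorem mem_act {P : Finset β} {blk : β → Finset α} {A F : Finset α} {X : β} :
    X ∈ act P blk A F ↔ X ∈ P ∧ Disjoint (blk X) F ∧ ¬ blk X ⊆ A := by
  unfold act; simp

theorem act_mono {P : Finset β} {blk : β → Finset α} {A A' F F' : Finset α} (hA : A ⊆ A')
    (hF : F ⊆ F') : act P blk A' F' ⊆ act P blk A F := by
  intro X hX
  rw [mem_act] at hX ⊢
  exact ⟨hX.1, hX.2.1.mono_right hF, fun h => hX.2.2 (h.trans hA)⟩

theorem forcer_finish {V : Finset α} {W : Finset α → Prop} {m n a f : ℕ} {P : Finset β}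
    {blk : β → Finset α} {I : Finset ι} {e : ι → Finset β} (H : BlockSys V W m n P blk I e)
    (A F : Finset α) (t : Bool) (hV : V ⊆ A ∪ F) (h : 0 < ∑ i ∈ I, fw blk e A F i) :
    ForcerWins V W a f A F t := by
  obtain ⟨i, hi, hne⟩ := exists_ne_zero_of_sum_ne_zero h.ne'
  have ha : ∀ X ∈ e i, Disjoint (blk X) F := by
    by_contra hc
    apply hne
    unfold fw; rw [if_neg hc]
  obtain ⟨S, hS, hc⟩ := H.cover i hi
  refine ForcerWins.finish _ _ _ hV ⟨S, hS, fun x hx => ?_⟩
  obtain ⟨Y, hY, hx⟩ := hc x hx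
  have h1 := hV (H.sub Y (H.esub i hi hY) hx)
  rcases mem_union.1 h1 with h1 | h1
  · exact h1
  · exact absurd h1 (disjoint_left.1 (ha Y hY) hx)

/-- The move of Forcer when there are not enough harmless points. -/
theorem forcer_move {V : Finset α} {W : Finset α → Prop} {m n a f Δ : ℕ} {P : Finset β}
    {blk : β → Finset α} {I : Finset ι} {e : ι → Finset β} (H : BlockSys V W m n P blk I e)
    (hΔ : ∀ X, (I.filter (fun i => X ∈ e i)).card ≤ Δ) (haf : f + 3 * m ≤ 2 * a + 3)
    (A F : Finset α) (g : ℕ) (hgf : g ≤ f) (hg : g ≤ (V \ (A ∪ F)).card)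
    (hD : ((V \ (A ∪ F)).filter (fun x => ∀ X ∈ act P blk A F, x ∉ blk X)).card < g) :
    ∃ T ⊆ V \ (A ∪ F), T.card = g ∧ (act P blk A (F ∪ T)).card < (act P blk A F).card ∧
      ∑ i ∈ I, fw blk e A F i ≤ ∑ i ∈ I, fw blk e A (F ∪ T) i + ((f + m) * Δ : ℕ) ∧
      ∀ T' ⊆ V \ (A ∪ (F ∪ T)), T'.card = a →
        ∑ i ∈ I, fw blk e A F i ≤ ∑ i ∈ I, fw blk e (A ∪ T') (F ∪ T) i + (2 * a * (f + m) : ℕ) := by
  classical
  set D := (V \ (A ∪ F)).filter (fun x => ∀ X ∈ act P blk A F, x ∉ blk X) with hDdef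
  set s : β → ℕ := fun X => (blk X \ A).card with hs
  set w : β → ℝ := fun X => ∑ i ∈ I, (if X ∈ e i then fw blk e A F i else 0) with hw
  have hw0 : ∀ X, 0 ≤ w X := by
    intro X
    refine sum_nonneg fun i _ => ?_
    split_ifs
    · exact fw_nonneg blk e A F i
    · exact le_rfl
  have hwΔ : ∀ X, w X ≤ Δ := by
    intro X
    have h1 : w X = ∑ i ∈ I.filter (fun i => X ∈ e i), fw blk e A F i := by
      rw [sum_filter]
    have h2 := sum_le_card_nsmul (I.filter (fun i => X ∈ e i)) (fun i => fw blk e A F i) 1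
      (fun i _ => fw_le_one blk e A F i)
    rw [nsmul_eq_mul, mul_one] at h2
    have h3 : ((I.filter (fun i => X ∈ e i)).card : ℝ) ≤ Δ := by exact_mod_cast hΔ X
    linarith
  have hspos : ∀ X ∈ act P blk A F, 1 ≤ s X := by
    intro X hX
    exact card_pos.2 (sdiff_nonempty.2 (mem_act.1 hX).2.2)
  have hsle : ∀ X ∈ act P blk A F, s X ≤ m := by
    intro X hX
    rw [← H.card X (mem_act.1 hX).1]
    exact card_le_card sdiff_subset
  have hfree : ∀ X ∈ act P blk A F, blk X \ A ⊆ V \ (A ∪ F) := by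
    intro X hX x hx
    obtain ⟨a1, a2, _⟩ := mem_act.1 hX
    obtain ⟨b1, b2⟩ := mem_sdiff.1 hx
    refine mem_sdiff.2 ⟨H.sub X a1 b1, ?_⟩
    rw [mem_union, not_or]
    exact ⟨b2, disjoint_left.1 a2 b1⟩
  have hcov : V \ (A ∪ F) ⊆ D ∪ (act P blk A F).biUnion (fun X => blk X \ A) := by
    intro x hx
    by_cases hxD : x ∈ D
    · exact mem_union_left _ hxD
    · refine mem_union_right _ ?_
      rw [hDdef, mem_filter, not_and] at hxD
      have := hxD hx
      push Not at this
      obtain ⟨X, hX, hxX⟩ := this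
      refine mem_biUnion.2 ⟨X, hX, mem_sdiff.2 ⟨hxX, fun h => ?_⟩⟩
      exact (mem_sdiff.1 hx).2 (mem_union_left _ h)
  have hsum : g - D.card ≤ ∑ X ∈ act P blk A F, s X := by
    have h1 := card_le_card hcov
    have h2 := card_union_le D ((act P blk A F).biUnion (fun X => blk X \ A))
    have h3 : ((act P blk A F).biUnion (fun X => blk X \ A)).card ≤ ∑ X ∈ act P blk A F, s X :=
      card_biUnion_le
    omega
  obtain ⟨K, hK, X₀, hX₀, k1, k2, k3, k4⟩ := select_blocks s (fun X => w X / s X) m (g - D.card)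
    (by omega) _ (act P blk A F) rfl hsle hsum
  set U := D ∪ K.biUnion (fun X => blk X \ A) with hU
  have hUcard : U.card = D.card + ∑ X ∈ K, s X := by
    rw [hU, card_union_of_disjoint, card_biUnion]
    · intro X hX Y hY hXY
      exact (H.disj X (mem_act.1 (hK hX)).1 Y (mem_act.1 (hK hY)).1 hXY).mono
        sdiff_subset sdiff_subset
    · rw [disjoint_left]
      intro x hxD hx
      obtain ⟨X, hX, hxX⟩ := mem_biUnion.1 hx
      exact (mem_filter.1 hxD).2 X (hK hX) (mem_sdiff.1 hxX).1
  have hUsub : U ⊆ V \ (A ∪ F) := by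
    refine union_subset (filter_subset _ _) ?_
    exact biUnion_subset.2 fun X hX => hfree X (hK hX)
  obtain ⟨T, hTU, hTc⟩ := exists_subset_card_eq (s := U) (n := g) (by omega)
  have hT := hTU.trans hUsub
  have hhit : ∀ Y ∈ P, Disjoint (blk Y) F → ¬ Disjoint (blk Y) T → Y ∈ K := by
    intro Y hY hYF hYT
    obtain ⟨x, hxY, hxT⟩ := not_disjoint_iff.1 hYT
    have hxA : x ∉ A := fun h => (mem_sdiff.1 (hT hxT)).2 (mem_union_left _ h)
    have hYa : Y ∈ act P blk A F := mem_act.2 ⟨hY, hYF, fun h => hxA (h hxY)⟩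
    rcases mem_union.1 (hTU hxT) with h | h
    · exact absurd hxY ((mem_filter.1 h).2 Y hYa)
    · obtain ⟨X, hX, hxX⟩ := mem_biUnion.1 h
      by_contra hYK
      have hne : X ≠ Y := fun h => hYK (h ▸ hX)
      exact disjoint_left.1 (H.disj X (mem_act.1 (hK hX)).1 Y hY hne) (mem_sdiff.1 hxX).1 hxY
  have hKc : K.card ≤ f + m := by
    have := card_nsmul_le_sum K s 1 (fun X hX => hspos X (hK hX))
    rw [smul_eq_mul, mul_one] at this
    have h2 : K.card ≤ ∑ X ∈ K, s X := this
    omega
  have hkill : ∑ i ∈ I, fw blk e A F i ≤ ∑ i ∈ I, fw blk e A (F ∪ T) i + ∑ X ∈ K, w X := by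
    simp only [hw]
    rw [sum_comm, ← sum_add_distrib]
    exact sum_le_sum fun i hi => fw_kill blk e A F T i K fun Y hY => hhit Y (H.esub i hi hY)
  refine ⟨T, hT, hTc, ?_, ?_, ?_⟩
  · apply card_lt_card
    refine ⟨act_mono le_rfl subset_union_left, fun h => ?_⟩
    have : ¬ T ⊆ D := fun h => by have := card_le_card h; omega
    obtain ⟨x, hxT, hxD⟩ := not_subset.1 this
    rw [hDdef, mem_filter, not_and] at hxD
    have := hxD (hT hxT)
    push Not at this
    obtain ⟨X, hX, hxX⟩ := this
    have := (mem_act.1 (h hX)).2.1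
    exact disjoint_left.1 this hxX (mem_union_right _ hxT)
  · have h1 := sum_le_card_nsmul K w Δ (fun X _ => hwΔ X)
    rw [nsmul_eq_mul] at h1
    have h2 : (K.card : ℝ) * Δ ≤ ((f + m) * Δ : ℕ) := by
      exact_mod_cast Nat.mul_le_mul_right _ hKc
    linarith
  · intro T' hT' hT'c
    set ρ := w X₀ / s X₀ with hρ
    have hρ0 : 0 ≤ ρ := div_nonneg (hw0 _) (Nat.cast_nonneg _)
    have hdam : ∑ X ∈ K, w X ≤ ρ * ((∑ X ∈ K, s X : ℕ) : ℝ) := by
      push_cast
      rw [mul_sum]
      refine sum_le_sum fun X hX => ?_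
      have h1 := k3 X hX
      have h2 : (0 : ℝ) < s X := by exact_mod_cast hspos X (hK hX)
      rwa [div_le_iff₀ h2] at h1
    set G := (V \ (A ∪ F)) \ U with hG
    have hgain := fw_gain blk e I A (F ∪ T) G (2 * (ρ - K.card)) (by
      intro x hx
      obtain ⟨hx1, hx2⟩ := mem_sdiff.1 hx
      have hxA : x ∉ A := fun h => (mem_sdiff.1 hx1).2 (mem_union_left _ h)
      refine ⟨hxA, ?_⟩
      have hxD : x ∉ D := fun h => hx2 (mem_union_left _ h)
      rw [hDdef, mem_filter, not_and] at hxD
      have := hxD hx1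
      push Not at this
      obtain ⟨Y, hY, hxY⟩ := this
      have hYK : Y ∉ K := fun h =>
        hx2 (mem_union_right _ (mem_biUnion.2 ⟨Y, h, mem_sdiff.2 ⟨hxY, hxA⟩⟩))
      refine ⟨Y, hxY, ?_⟩
      have h1 : ρ ≤ w Y / s Y := k4 Y hY hYK
      have h2 : (1 : ℝ) ≤ s Y := by exact_mod_cast hspos Y hY
      have h3 : w Y ≤ (∑ i ∈ I, (if Y ∈ e i then fw blk e A (F ∪ T) i else 0)) + K.card := by
        have h4 : w Y ≤ (∑ i ∈ I, (if Y ∈ e i then fw blk e A (F ∪ T) i else 0)) +
            ∑ X ∈ K, ∑ i ∈ I.filter (fun i => X ∈ e i ∧ Y ∈ e i), fw blk e A F i := by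
          simp only [hw, sum_filter]
          rw [sum_comm, ← sum_add_distrib]
          refine sum_le_sum fun i hi => ?_
          by_cases hYi : Y ∈ e i
          · simp only [hYi, if_true, and_true]
            exact fw_kill blk e A F T i K fun Y hY => hhit Y (H.esub i hi hY)
          · simp [hYi]
        have h5 := sum_le_card_nsmul K
          (fun X => ∑ i ∈ I.filter (fun i => X ∈ e i ∧ Y ∈ e i), fw blk e A F i) 1 (by
            intro X hX
            have hne : X ≠ Y := fun h => hYK (h ▸ hX)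
            have h6 := sum_le_card_nsmul (I.filter (fun i => X ∈ e i ∧ Y ∈ e i))
              (fun i => fw blk e A F i) 1 (fun i _ => fw_le_one blk e A F i)
            rw [nsmul_eq_mul, mul_one] at h6
            have h7 : ((I.filter (fun i => X ∈ e i ∧ Y ∈ e i)).card : ℝ) ≤ 1 := by
              exact_mod_cast H.lin X Y hne
            exact h6.trans h7)
        rw [nsmul_eq_mul, mul_one] at h5
        linarith
      set w' := ∑ i ∈ I, (if Y ∈ e i then fw blk e A (F ∪ T) i else 0)
      have h8 : w Y / s Y ≤ w' / s Y + K.card := by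
        have h9 : (K.card : ℝ) / s Y ≤ K.card := div_le_self (Nat.cast_nonneg _) h2
        have h10 : w Y / s Y ≤ (w' + K.card) / s Y := by gcongr
        rw [add_div] at h10
        linarith
      have h11 : 2 / (s Y : ℝ) * w' = 2 * (w' / s Y) := by ring
      change _ ≤ 2 / (s Y : ℝ) * w'
      linarith) T'
    have hc1 : (T' ∩ G).card ≤ a := hT'c ▸ card_le_card inter_subset_left
    have hc2 : a + g ≤ (T' ∩ G).card + U.card := by
      have h1 : T' ⊆ (T' ∩ G) ∪ (U \ T) := by
        intro x hx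
        have h2 := mem_sdiff.1 (hT' hx)
        simp only [mem_union, not_or] at h2
        by_cases hxU : x ∈ U
        · exact mem_union_right _ (mem_sdiff.2 ⟨hxU, h2.2.2.2⟩)
        · refine mem_union_left _ (mem_inter.2 ⟨hx, mem_sdiff.2 ⟨mem_sdiff.2 ⟨h2.1, ?_⟩, hxU⟩⟩)
          simp only [mem_union, not_or]
          exact ⟨h2.2.1, h2.2.2.1⟩
      have h3 := card_le_card h1
      have h4 := card_union_le (T' ∩ G) (U \ T)
      have h5 := card_sdiff_add_card_eq_card hTU
      omega
    have hc3 : ∑ X ∈ K, s X ≤ 2 * (T' ∩ G).card := by omega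
    have hc4 : ((∑ X ∈ K, s X : ℕ) : ℝ) ≤ 2 * ((T' ∩ G).card : ℝ) := by exact_mod_cast hc3
    have hc5 : ((T' ∩ G).card : ℝ) * K.card ≤ (a * (f + m) : ℕ) := by
      exact_mod_cast Nat.mul_le_mul hc1 hKc
    have hc6 := mul_le_mul_of_nonneg_left hc4 hρ0
    push_cast at hc5 ⊢
    nlinarith

theorem forcer_main {V : Finset α} {W : Finset α → Prop} {m n a f Δ : ℕ} {P : Finset β}
    {blk : β → Finset α} {I : Finset ι} {e : ι → Finset β} (H : BlockSys V W m n P blk I e)
    (hΔ : ∀ X, (I.filter (fun i => X ∈ e i)).card ≤ Δ) (haf : f + 3 * m ≤ 2 * a + 3)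
    (ha : 1 ≤ a) (hf : 1 ≤ f) :
    ∀ (k : ℕ) (A F : Finset α) (t : Bool), (V \ (A ∪ F)).card ≤ k →
      (((act P blk A F).card * (2 * a * (f + m)) + (f + m) * Δ : ℕ) : ℝ) <
        ∑ i ∈ I, fw blk e A F i → ForcerWins V W a f A F t := by
  classical
  intro k
  induction k with
  | zero =>
    intro A F t hk hpot
    refine forcer_finish H A F t ?_ (lt_of_le_of_lt (Nat.cast_nonneg _) hpot)
    exact sdiff_eq_empty_iff_subset.1 (card_eq_zero.1 (by omega))
  | succ k ih =>
    intro A F t hk hpot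
    by_cases hV : V ⊆ A ∪ F
    · exact forcer_finish H A F t hV (lt_of_le_of_lt (Nat.cast_nonneg _) hpot)
    cases t with
    | true =>
      refine ForcerWins.avoider A F hV fun T hT hc => ih _ _ _ ?_ ?_
      · have := card_free_lt hT (nonempty_of_move ha hV hc); omega
      · have h1 : (act P blk (A ∪ T) F).card ≤ (act P blk A F).card :=
          card_le_card (act_mono subset_union_left le_rfl)
        have h2 : ∑ i ∈ I, fw blk e A F i ≤ ∑ i ∈ I, fw blk e (A ∪ T) F i :=
          sum_le_sum fun i _ => fw_mono blk e F i subset_union_left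
        refine lt_of_le_of_lt ?_ (hpot.trans_le h2)
        exact_mod_cast Nat.add_le_add_right (Nat.mul_le_mul_right _ h1) _
    | false =>
      set g := min f (V \ (A ∪ F)).card with hg
      by_cases hD : ((V \ (A ∪ F)).filter (fun x => ∀ X ∈ act P blk A F, x ∉ blk X)).card < g
      · obtain ⟨T, hT, hTc, h1, h2, h3⟩ := forcer_move H hΔ haf A F g (min_le_left _ _)
          (min_le_right _ _) hD
        have hlt := card_free_lt' hT (nonempty_of_move hf hV hTc)
        have hpos : 0 < ∑ i ∈ I, fw blk e A (F ∪ T) i := by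
          push_cast at hpot h2
          have : (0 : ℝ) ≤ ((act P blk A F).card : ℝ) * (2 * a * (f + m)) := by positivity
          linarith
        refine ForcerWins.forcer A F T hV hT hTc ?_
        by_cases hV2 : V ⊆ A ∪ (F ∪ T)
        · exact forcer_finish H _ _ _ hV2 hpos
        refine ForcerWins.avoider _ _ hV2 fun T' hT' hc => ?_
        by_cases hle : (V \ (A ∪ (F ∪ T))).card ≤ a
        · have hE : T' = V \ (A ∪ (F ∪ T)) := eq_of_subset_of_card_le hT' (by omega)
          refine forcer_finish H _ _ _ ?_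
            (hpos.trans_le (sum_le_sum fun i _ => fw_mono blk e _ i subset_union_left))
          intro x hx
          by_cases hx' : x ∈ A ∪ (F ∪ T)
          · simp only [mem_union] at hx' ⊢; tauto
          · have : x ∈ T' := hE ▸ mem_sdiff.2 ⟨hx, hx'⟩
            simp only [mem_union]; tauto
        · have h4 := h3 T' hT' (by omega)
          have hlt2 := card_free_lt hT' (nonempty_of_move ha hV2 hc)
          refine ih _ _ _ (by omega) ?_
          have h5 : (act P blk (A ∪ T') (F ∪ T)).card + 1 ≤ (act P blk A F).card := by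
            have : (act P blk (A ∪ T') (F ∪ T)).card ≤ (act P blk A (F ∪ T)).card :=
              card_le_card (act_mono subset_union_left le_rfl)
            omega
          have h6 : (((act P blk (A ∪ T') (F ∪ T)).card : ℝ) + 1) * (2 * a * (f + m)) ≤
              ((act P blk A F).card : ℝ) * (2 * a * (f + m)) := by
            apply mul_le_mul_of_nonneg_right _ (by positivity)
            exact_mod_cast h5
          push_cast at hpot h4 ⊢
          linarith
      · obtain ⟨T, hTD, hTc⟩ := exists_subset_card_eq (n := g) (not_lt.1 hD)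
        have hT : T ⊆ V \ (A ∪ F) := hTD.trans (filter_subset _ _)
        have hlt := card_free_lt' hT (nonempty_of_move hf hV hTc)
        refine ForcerWins.forcer A F T hV hT hTc (ih _ _ _ (by omega) ?_)
        have h1 : (act P blk A (F ∪ T)).card ≤ (act P blk A F).card :=
          card_le_card (act_mono le_rfl subset_union_left)
        have h2 : ∑ i ∈ I, fw blk e A F i ≤ ∑ i ∈ I, fw blk e A (F ∪ T) i := by
          refine sum_le_sum fun i hi => ?_
          have := fw_kill blk e A F T i ∅ (by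
            intro Y hY hYF hYT
            exfalso
            obtain ⟨x, hxY, hxT⟩ := not_disjoint_iff.1 hYT
            have hxA : x ∉ A := fun h => (mem_sdiff.1 (hT hxT)).2 (mem_union_left _ h)
            exact (mem_filter.1 (hTD hxT)).2 Y
              (mem_act.2 ⟨H.esub i hi hY, hYF, fun h => hxA (h hxY)⟩) hxY)
          simpa using this
        refine lt_of_le_of_lt ?_ (hpot.trans_le h2)
        exact_mod_cast Nat.add_le_add_right (Nat.mul_le_mul_right _ h1) _

theorem forcer_criterion {V : Finset α} {W : Finset α → Prop} {m n a f Δ : ℕ} {P : Finset β}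
    {blk : β → Finset α} {I : Finset ι} {e : ι → Finset β} (H : BlockSys V W m n P blk I e)
    (hΔ : ∀ X, (I.filter (fun i => X ∈ e i)).card ≤ Δ) (haf : f + 3 * m ≤ 2 * a + 3)
    (ha : 1 ≤ a) (hf : 1 ≤ f) (L : ℕ) (hL : (m + 1) * (m + 2) ≤ 2 * L)
    (h : (P.card * (2 * a * (f + m)) + (f + m) * Δ) * L ^ n < I.card) (t : Bool) :
    ForcerWins V W a f ∅ ∅ t := by
  classical
  refine forcer_main H hΔ haf ha hf _ ∅ ∅ t le_rfl ?_
  have hL1 : (1 : ℝ) ≤ L := by
    have : 1 ≤ L := by nlinarith
    exact_mod_cast this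
  have hom : (L : ℝ)⁻¹ ≤ om m := by
    unfold om
    have : ((m : ℝ) + 1) * ((m : ℝ) + 2) ≤ 2 * L := by exact_mod_cast hL
    rw [inv_eq_one_div, div_le_div_iff₀ (by linarith) (by positivity)]
    linarith
  have h1 : ∀ i ∈ I, ((L : ℝ) ^ n)⁻¹ ≤ fw blk e ∅ ∅ i := by
    intro i hi
    unfold fw
    rw [if_pos (by simp)]
    have : ∏ X ∈ e i, om (blk X \ ∅).card = om m ^ (e i).card := by
      rw [← prod_const]
      refine prod_congr rfl fun X hX => ?_
      rw [sdiff_empty, H.card X (H.esub i hi hX)]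
    rw [this, ← inv_pow]
    calc _ ≤ om m ^ n := pow_le_pow_left₀ (by positivity) hom _
      _ ≤ _ := pow_le_pow_of_le_one (om_pos m).le (om_le_one m) (H.ecard i hi)
  have h2 := card_nsmul_le_sum I _ _ h1
  rw [nsmul_eq_mul] at h2
  refine lt_of_lt_of_le ?_ h2
  have h3 : (act P blk ∅ ∅).card ≤ P.card := by
    unfold act; exact card_filter_le _ _
  have h4 : ((act P blk ∅ ∅).card * (2 * a * (f + m)) + (f + m) * Δ) * L ^ n < I.card :=
    lt_of_le_of_lt (Nat.mul_le_mul_right _
      (Nat.add_le_add_right (Nat.mul_le_mul_right _ h3) _)) h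
  rw [← div_eq_mul_inv, lt_div_iff₀ (by positivity)]
  exact_mod_cast h4

end

end Pool.Agent.H26Z.Lat
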