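import Mathlib
import Pool.Agent.H26Z.LatForcer2

/-!
# The block system of area-one lattices
-/

set_option autoImplicit false

open Finset

namespace Pool.Agent.H26Z.Lat

/-- vertical segments of `m` points -/
def vblk (m s : ℕ) (X : ℕ × ℕ) : Finset (ℤ × ℤ) :=
  (range m).image (fun j => (((1 + X.1 : ℕ) : ℤ), ((X.1 / s + m * X.2 + 1 + j : ℕ) : ℤ)))

/-- lines -/
def vline (n : ℕ) (i : ℕ × ℕ) : Finset (ℕ × ℕ) := (range n).image (fun c => (c, i.1 + c * i.2))

theorem mem_vline {n : ℕ} {i X : ℕ × ℕ} : X ∈ vline n i ↔ X.1 < n ∧ X.2 = i.1 + X.1 * i.2 := by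
  unfold vline
  simp only [mem_image, mem_range]
  constructor
  · rintro ⟨c, hc, rfl⟩; exact ⟨hc, rfl⟩
  · rintro ⟨h1, h2⟩; exact ⟨X.1, h1, Prod.ext rfl h2.symm⟩

theorem mem_board {N : ℕ} {x : ℤ × ℤ} :
    x ∈ board N ↔ (1 ≤ x.1 ∧ x.1 ≤ N) ∧ (1 ≤ x.2 ∧ x.2 ≤ N) := by
  unfold board; simp [mem_product]

theorem vline_deg (n T : ℕ) (X : ℕ × ℕ) :
    ((range (n * T) ×ˢ range T).filter (fun i => X ∈ vline n i)).card ≤ T := by
  have : ((range (n * T) ×ˢ range T).filter (fun i => X ∈ vline n i)).card ≤ (range T).card := by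
    refine card_le_card_of_injOn (fun i => i.2) (fun i hi => ?_) ?_
    · simp only [coe_filter, mem_product, Set.mem_ofPred_eq] at hi
      exact mem_coe.2 hi.1.2
    · intro i hi i' hi' h
      simp only [coe_filter, mem_product, Set.mem_ofPred_eq, mem_vline] at hi hi' h
      have h1 := hi.2.2
      have h2 := hi'.2.2
      rw [h] at h1
      exact Prod.ext (by omega) h
  simpa using this

theorem blockSys (X : LatticeClass) (hX : X = .areaOne ∨ X = .parallelogram) (m s T N : ℕ)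
    (hs : 1 ≤ s) (hN : s * m * (s + 1) + m * (2 * (s * m * (s + 1)) * T) ≤ N) :
    BlockSys (board N) (IsLattice X N (s * m)) m (s * m * (s + 1))
      (range (s * m * (s + 1)) ×ˢ range (2 * (s * m * (s + 1)) * T)) (vblk m s)
      (range (s * m * (s + 1) * T) ×ˢ range T) (vline (s * m * (s + 1))) := by
  set n := s * m * (s + 1) with hn
  have hsub : ∀ Y ∈ range n ×ˢ range (2 * n * T), vblk m s Y ⊆ board N := by
    intro Y hY x hx
    simp only [mem_product, mem_range] at hY
    obtain ⟨j, hj, rfl⟩ := mem_image.1 hx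
    rw [mem_range] at hj
    have h1 : Y.1 / s ≤ Y.1 := Nat.div_le_self _ _
    have h2 : m * (Y.2 + 1) ≤ m * (2 * n * T) := Nat.mul_le_mul_left _ hY.2
    rw [mem_board]
    dsimp only
    generalize Y.1 / s = d at h1 ⊢
    refine ⟨⟨?_, ?_⟩, ?_, ?_⟩
    · exact_mod_cast (by omega : 1 ≤ 1 + Y.1)
    · exact_mod_cast (by omega : 1 + Y.1 ≤ N)
    · exact_mod_cast (by omega : 1 ≤ d + m * Y.2 + 1 + j)
    · have : d + m * Y.2 + 1 + j ≤ N := by rw [mul_add] at h2; omega
      exact_mod_cast this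
  have hesub : ∀ i ∈ range (n * T) ×ˢ range T, vline n i ⊆ range n ×ˢ range (2 * n * T) := by
    intro i hi Y hY
    simp only [mem_product, mem_range] at hi ⊢
    obtain ⟨h1, h2⟩ := mem_vline.1 hY
    refine ⟨h1, ?_⟩
    have : Y.1 * i.2 ≤ n * T := Nat.mul_le_mul h1.le hi.2.le
    rw [h2, mul_assoc]; omega
  refine ⟨hsub, ?_, ?_, hesub, ?_, ?_, ?_⟩
  · intro Y _
    unfold vblk
    rw [card_image_of_injective, card_range]
    intro j j' h
    simp only [Prod.mk.injEq, Nat.cast_inj, true_and] at h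
    omega
  · intro Y _ Z _ hYZ
    rw [disjoint_left]
    intro x hx hx'
    obtain ⟨j, hj, rfl⟩ := mem_image.1 hx
    obtain ⟨j', hj', h⟩ := mem_image.1 hx'
    simp only [Prod.mk.injEq, Nat.cast_inj] at h
    rw [mem_range] at hj hj'
    have h1 : Z.1 = Y.1 := by omega
    have h2 : m * Z.2 + j' = m * Y.2 + j := by have := h.2; rw [h1] at this; omega
    have h3 : Z.2 = Y.2 := by
      have a1 : (m * Z.2 + j') / m = Z.2 := by
        rw [Nat.mul_add_div (by omega), Nat.div_eq_of_lt hj', add_zero]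
      have a2 : (m * Y.2 + j) / m = Y.2 := by
        rw [Nat.mul_add_div (by omega), Nat.div_eq_of_lt hj, add_zero]
      rw [← a1, ← a2, h2]
    exact hYZ (Prod.ext h1.symm h3.symm)
  · intro i _
    exact card_image_le.trans (card_range n).le
  · intro Y Z hYZ
    rw [card_le_one]
    intro i hi i' hi'
    simp only [mem_filter, mem_vline] at hi hi'
    obtain ⟨_, ⟨_, a1⟩, _, a2⟩ := hi
    obtain ⟨_, ⟨_, b1⟩, _, b2⟩ := hi'
    have hne : Y.1 ≠ Z.1 := fun h => hYZ (Prod.ext h (by rw [a1, a2, h]))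
    have h1 : ((Y.1 : ℤ) - Z.1) * ((i.2 : ℤ) - i'.2) = 0 := by
      have c1 : (i.1 : ℤ) + Y.1 * i.2 = i'.1 + Y.1 * i'.2 := by exact_mod_cast a1.symm.trans b1
      have c2 : (i.1 : ℤ) + Z.1 * i.2 = i'.1 + Z.1 * i'.2 := by exact_mod_cast a2.symm.trans b2
      linear_combination c1 - c2
    have h2 : i.2 = i'.2 := by
      rcases mul_eq_zero.1 h1 with h | h
      · exact absurd (by exact_mod_cast sub_eq_zero.1 h) hne
      · exact_mod_cast sub_eq_zero.1 h
    rw [h2] at a1
    exact Prod.ext (by omega) h2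
  · intro i hi
    have hcov : ∀ x ∈ (range (s * m) ×ˢ range (s * m)).image (fun p : ℕ × ℕ =>
        (((1 : ℤ), ((m + m * i.1 : ℕ) : ℤ)) : ℤ × ℤ) + (p.1 : ℤ) • ((1 : ℤ), ((m * i.2 : ℕ) : ℤ)) +
          (p.2 : ℤ) • ((s : ℤ), ((s * (m * i.2) + 1 : ℕ) : ℤ))),
        ∃ Y ∈ vline n i, x ∈ vblk m s Y := by
      intro x hx
      obtain ⟨⟨k, l⟩, hp, rfl⟩ := mem_image.1 hx
      simp only [mem_product, mem_range] at hp
      obtain ⟨hk, hl⟩ := hp
      have h1 : k + l * s < n := by
        have : (l + 1) * s ≤ s * m * s := Nat.mul_le_mul_right _ hl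
        rw [hn]; nlinarith
      have h2 : k / s < m := by
        rw [Nat.div_lt_iff_lt_mul (by omega)]; nlinarith
      refine ⟨(k + l * s, i.1 + (k + l * s) * i.2), mem_vline.2 ⟨h1, rfl⟩, ?_⟩
      have h3 : (k + l * s) / s = k / s + l := Nat.add_mul_div_right _ _ (by omega)
      generalize k / s = d at h2 h3
      refine mem_image.2 ⟨m - 1 - d, mem_range.2 (by omega), ?_⟩
      have h4 : (k + l * s) / s + m * (i.1 + (k + l * s) * i.2) + 1 + (m - 1 - d) =
          l + m + m * (i.1 + (k + l * s) * i.2) := by rw [h3]; omega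
      simp only [h4, Prod.smul_mk, smul_eq_mul, Prod.mk_add_mk, Prod.mk.injEq]
      push_cast
      constructor <;> ring
    refine ⟨_, ⟨_, _, _, ?_, ?_, ?_, rfl⟩, hcov⟩
    · push_cast; ring_nf; norm_num
    · rcases hX with rfl | rfl
      · simp only [LatticeClass.Cond]
        push_cast; ring_nf; norm_num
      · trivial
    · intro x hx
      obtain ⟨Y, hY, hxY⟩ := hcov x hx
      exact hsub Y (hesub i hi hY) hxY

theorem IsLattice.le {X : LatticeClass} {N q : ℕ} {S : Finset (ℤ × ℤ)} (h : IsLattice X N q S) :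
    q ≤ N := by
  obtain ⟨u, v, w, hd, _, hS, rfl⟩ := h
  have h1 := card_le_card hS
  rw [card_image_of_injective] at h1
  · have h2 : (board N).card = N * N := by
      unfold board; simp
    rw [h2, card_product, card_range] at h1
    exact Nat.mul_self_le_mul_self_iff.1 h1
  · intro p p' hpp
    simp only [Prod.ext_iff, Prod.fst_add, Prod.snd_add, Prod.smul_fst, Prod.smul_snd,
      smul_eq_mul] at hpp
    obtain ⟨a1, a2⟩ := hpp
    have b1 : (v.1 * w.2 - v.2 * w.1) * ((p.1 : ℤ) - p'.1) = 0 := by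
      linear_combination w.2 * a1 - w.1 * a2
    have b2 : (v.1 * w.2 - v.2 * w.1) * ((p.2 : ℤ) - p'.2) = 0 := by
      linear_combination v.1 * a2 - v.2 * a1
    have c1 := (mul_eq_zero.1 b1).resolve_left hd
    have c2 := (mul_eq_zero.1 b2).resolve_left hd
    exact Prod.ext (by exact_mod_cast sub_eq_zero.1 c1) (by exact_mod_cast sub_eq_zero.1 c2)

theorem achieve_ge (X : LatticeClass) (hX : X = .areaOne ∨ X = .parallelogram) (m b s N : ℕ)
    (hm : 2 ≤ m) (hb : 1 ≤ b) (hs : 1 ≤ s)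
    (hN : s * m * (s + 1) + m * (2 * (s * m * (s + 1)) *
      (2 * (s * m * (s + 1)) * (b * (b * (1 + b) ^ (s * m * (s + 1)))) + 1)) ≤ N) :
    s * m ≤ achieveNumber N X m b := by
  unfold achieveNumber
  refine le_csSup ⟨N, fun q hq => ?_⟩ ⟨by nlinarith, ?_⟩
  · obtain ⟨S, hS⟩ := hq.2.exists_win
    exact hS.le
  · refine maker_criterion (blockSys X hX m s _ N hs hN) (by omega) hb ?_
    simp only [card_product, card_range]
    set n := s * m * (s + 1) with hn
    set K := b * (b * (1 + b) ^ n)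
    have hn0 : 0 < n := by rw [hn]; positivity
    have : 0 < n * (2 * n * K + 1) := by positivity
    nlinarith

theorem avoid_ge (X : LatticeClass) (hX : X = .areaOne ∨ X = .parallelogram) (t : Bool)
    (m a f L s N : ℕ) (hm : 2 ≤ m) (ha : 1 ≤ a) (hf : 1 ≤ f) (hs : 1 ≤ s)
    (haf : f + 3 * m ≤ 2 * a + 3) (hL : (m + 1) * (m + 2) ≤ 2 * L)
    (hN : s * m * (s + 1) + m * (2 * (s * m * (s + 1)) *
      (2 * (s * m * (s + 1)) * ((2 * a + 1) * (f + m) * L ^ (s * m * (s + 1))) + 1)) ≤ N) :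
    s * m ≤ avoidNumber t N X a f := by
  unfold avoidNumber
  refine le_csSup ⟨N, fun q hq => ?_⟩ ⟨by nlinarith, ?_⟩
  · obtain ⟨S, hS⟩ := hq.2.exists_win
    exact hS.le
  · refine forcer_criterion (blockSys X hX m s _ N hs hN) (vline_deg _ _) haf ha hf L hL ?_ t
    simp only [card_product, card_range]
    set n := s * m * (s + 1) with hn
    set Q := L ^ n
    set T := 2 * n * ((2 * a + 1) * (f + m) * Q) + 1 with hT
    have hn0 : 1 ≤ n := by
      have : 0 < n := by rw [hn]; positivity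
      omega
    have hT0 : 0 < n * T := by positivity
    have h1 : (f + m) * T * Q ≤ n * (2 * n * T) * (f + m) * Q := by
      have : 1 ≤ n * (2 * n) := by nlinarith
      calc (f + m) * T * Q = 1 * ((f + m) * T * Q) := by ring
        _ ≤ n * (2 * n) * ((f + m) * T * Q) := Nat.mul_le_mul_right _ this
        _ = _ := by ring
    calc (n * (2 * n * T) * (2 * a * (f + m)) + (f + m) * T) * Q
        = n * (2 * n * T) * (2 * a * (f + m)) * Q + (f + m) * T * Q := by ring
      _ ≤ n * (2 * n * T) * (2 * a * (f + m)) * Q + n * (2 * n * T) * (f + m) * Q := by omega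
      _ = n * T * (2 * n * ((2 * a + 1) * (f + m) * Q)) := by ring
      _ < n * T * T := by
        apply Nat.mul_lt_mul_of_pos_left _ hT0
        omega

end Pool.Agent.H26Z.Lat
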