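import Mathlib
import Pool.Agent.H26Z.LatGeom

/-!
# The conjectured formulas fail
-/

set_option autoImplicit false

open Filter Topology

namespace Pool.Agent.H26Z.Lat

theorem final_ineq (s m lc lL lD lN ln : ℝ) (hs : 1 ≤ s) (hm : 2 ≤ m) (hlc : 0 < lc)
    (hlD : 0 ≤ lD) (h8 : (s * m - 1) ^ 2 * lc ≤ 4 * lN)
    (h10 : lN ≤ lD + 2 * ln + s * m * (s + 1) * lL) (h11 : ln ≤ m + 2 * s) :
    s * (s * (m * (m * lc - 4 * lL))) ≤ s * (2 * m * lc + 4 * m * lL + 16 + 4 * lD + 8 * m) := by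
  have b1 : 0 ≤ (s - 1) * (4 * lD + 8 * m) := mul_nonneg (by linarith) (by linarith)
  linarith

theorem no_formula (A : ℕ → ℕ) (g : ℕ → ℝ) (c : ℝ) (m L C : ℕ) (hc : 1 < c) (hm : 2 ≤ m)
    (hL : 1 ≤ L) (hC : 1 ≤ C) (hLc : (L : ℝ) ^ 4 < c ^ m)
    (hg : ∀ N : ℕ, g N ≤ 2 * Real.sqrt (Real.logb c N))
    (hA : ∀ s N : ℕ, 1 ≤ s → s * m * (s + 1) + m * (2 * (s * m * (s + 1)) *
      (2 * (s * m * (s + 1)) * (C * L ^ (s * m * (s + 1))) + 1)) ≤ N → s * m ≤ A N) :
    ¬ ∃ ε : ℕ → ℝ, Tendsto ε atTop (𝓝 0) ∧ ∀ᶠ N in atTop, (A N : ℤ) = ⌊g N + ε N⌋ := by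
  rintro ⟨ε, hε, hev⟩
  have h1 : ∀ᶠ N in atTop, ε N < 1 := hε.eventually (gt_mem_nhds one_pos)
  obtain ⟨N₀, hN₀⟩ := eventually_atTop.1 (hev.and h1)
  have hlc : 0 < Real.log c := Real.log_pos hc
  have hL1 : (1 : ℝ) ≤ L := by exact_mod_cast hL
  have hlL : 0 ≤ Real.log L := Real.log_nonneg hL1
  have hδ : 0 < m * Real.log c - 4 * Real.log L := by
    have := Real.log_lt_log (by positivity) hLc
    rw [Real.log_pow, Real.log_pow] at this
    push_cast at this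
    linarith
  set δ := m * Real.log c - 4 * Real.log L with hδdef
  set D : ℕ := 1 + 6 * m * C with hD
  have hD1 : (1 : ℝ) ≤ D := by exact_mod_cast (by omega : 1 ≤ D)
  have hlD : 0 ≤ Real.log D := Real.log_nonneg hD1
  have hm2 : (2 : ℝ) ≤ m := by exact_mod_cast hm
  set K : ℝ := 2 * m * Real.log c + 4 * m * Real.log L + 16 + 4 * Real.log D + 8 * m with hK
  obtain ⟨s₀, hs₀⟩ := exists_nat_gt (K / (m * δ))
  set s := max (max s₀ N₀) 1 with hs
  have hs1 : 1 ≤ s := le_max_right _ _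
  have hsN : N₀ ≤ s := (le_max_right _ _).trans (le_max_left _ _)
  have hss : s₀ ≤ s := (le_max_left _ _).trans (le_max_left _ _)
  have hA' := hA s _ hs1 le_rfl
  set n := s * m * (s + 1) with hn
  set N := n + m * (2 * n * (2 * n * (C * L ^ n) + 1)) with hN
  have hsn : s ≤ n := by
    rw [hn]
    calc s = s * 1 * 1 := by ring
      _ ≤ _ := by gcongr <;> omega
  have hn1 : 1 ≤ n := hs1.trans hsn
  have hNN : N₀ ≤ N := by omega
  obtain ⟨hfl, hε1⟩ := hN₀ N hNN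
  have h2 : (A N : ℝ) ≤ g N + 1 := by
    have h3 := Int.floor_le (g N + ε N)
    rw [← hfl] at h3
    push_cast at h3
    linarith
  have h4 : (s : ℝ) * m - 1 ≤ 2 * Real.sqrt (Real.logb c N) := by
    have : ((s * m : ℕ) : ℝ) ≤ A N := by exact_mod_cast hA'
    push_cast at this
    linarith [hg N]
  have hsR : (1 : ℝ) ≤ s := by exact_mod_cast hs1
  have hN1 : (1 : ℝ) ≤ N := by exact_mod_cast (by omega : 1 ≤ N)
  have hlb : 0 ≤ Real.logb c N := Real.logb_nonneg hc hN1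
  have h5 : ((s : ℝ) * m - 1) ^ 2 ≤ 4 * Real.logb c N := by
    have h6 : 0 ≤ (s : ℝ) * m - 1 := by nlinarith
    have h7 := pow_le_pow_left₀ h6 h4 2
    rw [mul_pow, Real.sq_sqrt hlb] at h7
    linarith
  have h8 : ((s : ℝ) * m - 1) ^ 2 * Real.log c ≤ 4 * Real.log N := by
    rw [Real.logb, ← mul_div_assoc, le_div_iff₀ hlc] at h5
    exact h5
  have h9 : N ≤ D * n ^ 2 * L ^ n := by
    have a1 : 1 ≤ L ^ n := Nat.one_le_pow _ _ hL
    have a2 : n ≤ n ^ 2 * L ^ n := by nlinarith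
    have a3 : n ≤ C * (n ^ 2 * L ^ n) := by nlinarith
    have a4 : m * (2 * n) ≤ m * (2 * (C * (n ^ 2 * L ^ n))) := by gcongr
    rw [hN, hD]
    nlinarith
  have h10 : Real.log N ≤ Real.log D + 2 * Real.log n + n * Real.log L := by
    have a1 : (N : ℝ) ≤ D * n ^ 2 * L ^ n := by exact_mod_cast h9
    have hnR : (1 : ℝ) ≤ n := by exact_mod_cast hn1
    have a2 := Real.log_le_log (by linarith) a1
    rw [Real.log_mul (by positivity) (by positivity), Real.log_mul (by positivity) (by positivity),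
      Real.log_pow, Real.log_pow] at a2
    push_cast at a2
    linarith
  have h11 : Real.log n ≤ m + 2 * s := by
    have a0 : (n : ℝ) = s * m * (s + 1) := by rw [hn]; push_cast; ring
    rw [a0, Real.log_mul (by positivity) (by positivity),
      Real.log_mul (by positivity) (by positivity)]
    have a1 := Real.log_le_sub_one_of_pos (x := s) (by linarith)
    have a2 := Real.log_le_sub_one_of_pos (x := m) (by linarith)
    have a3 := Real.log_le_sub_one_of_pos (x := (s : ℝ) + 1) (by linarith)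
    linarith
  have h12 : (n : ℝ) = s * m * (s + 1) := by rw [hn]; push_cast; ring
  have h13 : (s : ℝ) * (s * (m * δ)) ≤ s * K := by
    refine final_ineq s m _ _ _ _ _ hsR hm2 hlc hlD h8 ?_ h11
    rw [← h12]; exact h10
  have h14 : (s : ℝ) * (m * δ) ≤ K := le_of_mul_le_mul_left h13 (by linarith)
  have h15 : K < s₀ * (m * δ) := by
    rwa [div_lt_iff₀ (by positivity)] at hs₀
  have h16 : (s₀ : ℝ) * (m * δ) ≤ s * (m * δ) := by
    apply mul_le_mul_of_nonneg_right _ (by positivity)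
    exact_mod_cast hss
  linarith

theorem sqrt_two_mul_le (x : ℝ) : Real.sqrt (2 * x) ≤ 2 * Real.sqrt x := by
  rcases le_total x 0 with h | h
  · rw [Real.sqrt_eq_zero'.2 (by linarith)]; positivity
  · rw [Real.sqrt_le_left (by positivity), mul_pow, Real.sq_sqrt h]
    linarith

theorem pow_ineq (m : ℕ) (hm : 17 ≤ m) : (1 + m) ^ 4 < 2 ^ m := by
  induction m, hm using Nat.le_induction with
  | base => norm_num
  | succ k hk ih =>
    have : (1 + (k + 1)) ^ 4 ≤ 2 * (1 + k) ^ 4 := by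
      obtain ⟨j, rfl⟩ : ∃ j, k = j + 17 := ⟨k - 17, by omega⟩
      ring_nf
      nlinarith [Nat.zero_le (j ^ 4), Nat.zero_le (j ^ 3), Nat.zero_le (j ^ 2)]
    rw [pow_succ 2]
    omega

theorem base_ineq (m b : ℕ) (hm : 17 ≤ m) (hb : m ≤ b) :
    ((1 + b : ℕ) : ℝ) ^ 4 < (((m : ℝ) + b) / m) ^ m := by
  have hmR : (17 : ℝ) ≤ m := by exact_mod_cast hm
  set x : ℝ := b / m with hx
  have hx1 : 1 ≤ x := by
    rw [hx, le_div_iff₀ (by linarith), one_mul]; exact_mod_cast hb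
  have h1 : ((m : ℝ) + b) / m = 1 + x := by rw [hx]; field_simp
  have h2 : ((1 + b : ℕ) : ℝ) = 1 + m * x := by rw [hx]; push_cast; field_simp
  rw [h1, h2]
  obtain ⟨j, rfl⟩ : ∃ j, m = j + 8 := ⟨m - 8, by omega⟩
  have h3 : (1 + ((j + 8 : ℕ) : ℝ)) ^ 4 < 2 ^ (j + 8) := by exact_mod_cast pow_ineq _ hm
  have h4 : 1 + ((j + 8 : ℕ) : ℝ) * x ≤ (1 + ((j + 8 : ℕ) : ℝ)) * x := by linarith
  have h5 : (4 * x) ^ 4 ≤ ((1 + x) ^ 2) ^ 4 :=
    pow_le_pow_left₀ (by linarith) (by nlinarith [sq_nonneg (x - 1)]) 4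
  have h6 : (2 : ℝ) ^ j ≤ (1 + x) ^ j := pow_le_pow_left₀ (by norm_num) (by linarith) j
  have hx4 : 0 < x ^ 4 := by positivity
  calc (1 + ((j + 8 : ℕ) : ℝ) * x) ^ 4 ≤ ((1 + ((j + 8 : ℕ) : ℝ)) * x) ^ 4 :=
        pow_le_pow_left₀ (by positivity) h4 4
    _ = (1 + ((j + 8 : ℕ) : ℝ)) ^ 4 * x ^ 4 := mul_pow _ _ _
    _ < 2 ^ (j + 8) * x ^ 4 := mul_lt_mul_of_pos_right h3 hx4
    _ = 2 ^ j * (4 * x) ^ 4 := by ring
    _ ≤ (1 + x) ^ j * ((1 + x) ^ 2) ^ 4 := mul_le_mul h6 h5 (by positivity) (by positivity)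
    _ = (1 + x) ^ (j + 8) := by ring

theorem achieve_fails (X : LatticeClass) (hX : X = .areaOne ∨ X = .parallelogram) (m b : ℕ)
    (hm : 17 ≤ m) (hb : m ≤ b) :
    ¬ ∃ ε : ℕ → ℝ, Tendsto ε atTop (𝓝 0) ∧
      ∀ᶠ N in atTop, (achieveNumber N X m b : ℤ) = ⌊gConj X m b N + ε N⌋ := by
  have hmR : (17 : ℝ) ≤ m := by exact_mod_cast hm
  have hbR : (m : ℝ) ≤ b := by exact_mod_cast hb
  refine no_formula (fun N => achieveNumber N X m b) (gConj X m b) (((m : ℝ) + b) / m) m (1 + b)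
    (b * b) ?_ (by omega) (by omega) (by nlinarith) (base_ineq m b hm hb) ?_ ?_
  · rw [lt_div_iff₀ (by linarith)]; linarith
  · intro N
    rcases hX with rfl | rfl
    · simp only [gConj, lam', if_neg (not_lt.2 hb)]
      exact sqrt_two_mul_le _
    · simp only [gConj, lam, if_neg (not_lt.2 hb)]
      exact le_rfl
  · intro s N hs hN
    refine achieve_ge X hX m b s N (by omega) (by omega) hs ?_
    rwa [mul_assoc b b] at hN

theorem avoid_fails (X : LatticeClass) (hX : X = .areaOne ∨ X = .parallelogram) (t : Bool)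
    (a f : ℕ) (haf : a ≤ f) (hfa : f + 114 ≤ 2 * a) :
    ¬ ∃ ε : ℕ → ℝ, Tendsto ε atTop (𝓝 0) ∧
      ∀ᶠ N in atTop, (avoidNumber t N X a f : ℤ) = ⌊hConj X a f N + ε N⌋ := by
  have haR : (114 : ℝ) ≤ a := by exact_mod_cast (by omega : 114 ≤ a)
  have hfR : (a : ℝ) ≤ f := by exact_mod_cast haf
  have hc : 2 ≤ ((a : ℝ) + f) / a := by rw [le_div_iff₀ (by linarith)]; linarith
  refine no_formula (fun N => avoidNumber t N X a f) (hConj X a f) (((a : ℝ) + f) / a) 39 820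
    ((2 * a + 1) * (f + 39)) (by linarith) (by norm_num) (by norm_num) (by nlinarith) ?_ ?_ ?_
  · exact lt_of_lt_of_le (by norm_num) (pow_le_pow_left₀ (by norm_num) hc 39)
  · intro N
    rcases hX with rfl | rfl
    · simp only [hConj]
      exact sqrt_two_mul_le _
    · simp only [hConj]
      exact le_rfl
  · intro s N hs hN
    exact avoid_ge X hX t 39 a f 820 s N (by norm_num) (by omega) (by omega) hs (by omega)
      (by norm_num) hN

end Pool.Agent.H26Z.Lat
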