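import Mathlib

/-! Abstract lemmas: eigenvalues of symmetrizable compact operators, common eigenvectors,
and partitions of unity for group actions. -/

set_option autoImplicit false

namespace Pool.Agent.H26Z.Mf

open Filter Topology MeasureTheory Module
open scoped ENNReal NNReal InnerProductSpace

theorem exists_eigen_of_symm {X H : Type*} [NormedAddCommGroup X] [NormedSpace ℂ X]
    [CompleteSpace X] [NormedAddCommGroup H] [InnerProductSpace ℂ H]
    (ι : X →L[ℂ] H) (T : X →L[ℂ] X) (hT : IsCompactOperator T)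
    (hs : ∀ f g, ⟪ι (T f), ι g⟫_ℂ = ⟪ι f, ι (T g)⟫_ℂ) (f : X) (hf : ι (T f) ≠ 0) :
    ∃ μ : ℂ, μ ≠ 0 ∧ End.HasEigenvalue (T : End ℂ X) μ := by
  set a : ℕ → ℝ := fun k => ‖ι ((T ^ k) f)‖ with ha
  have ha0 : ∀ k, 0 ≤ a k := fun k => norm_nonneg _
  have hstep : ∀ k, (T ^ (k + 1)) f = T ((T ^ k) f) := by
    intro k; rw [pow_succ']; rfl
  have hconv : ∀ k, a (k + 1) ^ 2 ≤ a k * a (k + 2) := by
    intro k
    have h1 : ⟪ι ((T ^ (k + 1)) f), ι ((T ^ (k + 1)) f)⟫_ℂ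
        = ⟪ι ((T ^ k) f), ι ((T ^ (k + 2)) f)⟫_ℂ := by
      conv_lhs => rw [hstep k, hs, ← hstep k, ← hstep (k + 1)]
    have h2 := norm_inner_le_norm (𝕜 := ℂ) (ι ((T ^ k) f)) (ι ((T ^ (k + 2)) f))
    rw [← h1, inner_self_eq_norm_sq_to_K] at h2
    simpa [ha] using h2
  have ha1 : 0 < a 1 := by simpa [ha] using hf
  have ha00 : 0 < a 0 := by
    have := hconv 0
    rcases (ha0 0).lt_or_eq with h | h
    · exact h
    · rw [← h] at this; nlinarith
  set r : ℝ := a 1 / a 0 with hr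
  have hrpos : 0 < r := div_pos ha1 ha00
  have hind : ∀ k, 0 < a k ∧ r * a k ≤ a (k + 1) := by
    intro k
    induction k with
    | zero => exact ⟨ha00, by rw [hr]; field_simp; rfl⟩
    | succ k ih =>
      have hp : 0 < a (k + 1) := lt_of_lt_of_le (mul_pos hrpos ih.1) ih.2
      refine ⟨hp, ?_⟩
      have h1 := hconv k
      have h2 : a k * (r * a (k + 1)) ≤ a k * a (k + 2) := by nlinarith [ih.2]
      exact le_of_mul_le_mul_left h2 ih.1
  have hlow : ∀ k, r ^ k * a 0 ≤ a k := by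
    intro k
    induction k with
    | zero => simp
    | succ k ih =>
      calc r ^ (k + 1) * a 0 = r * (r ^ k * a 0) := by ring
        _ ≤ r * a k := by gcongr
        _ ≤ _ := (hind k).2
  have hup : ∀ k, a k ≤ (‖ι‖ * ‖f‖) * ‖T ^ k‖ := by
    intro k
    calc a k ≤ ‖ι‖ * ‖(T ^ k) f‖ := ι.le_opNorm _
      _ ≤ ‖ι‖ * (‖T ^ k‖ * ‖f‖) := by gcongr; exact (T ^ k).le_opNorm _
      _ = _ := by ring
  have hf0 : f ≠ 0 := by rintro rfl; simp at hf
  have : Nontrivial X := ⟨⟨f, 0, hf0⟩⟩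
  obtain ⟨z, hz, hzr⟩ := spectrum.exists_nnnorm_eq_spectralRadius T
  by_cases hz0 : z = 0
  · exfalso
    have hlim := spectrum.pow_norm_pow_one_div_tendsto_nhds_spectralRadius T
    rw [← hzr, hz0] at hlim
    simp only [nnnorm_zero, ENNReal.coe_zero] at hlim
    have hev : ∀ᶠ n : ℕ in atTop, ENNReal.ofReal (‖T ^ n‖ ^ (1 / n : ℝ)) < ENNReal.ofReal (r / 2) :=
      hlim.eventually (gt_mem_nhds (by simpa using hrpos))
    have hhalf : Tendsto (fun n : ℕ => (‖ι‖ * ‖f‖) * (1 / 2 : ℝ) ^ n) atTop (𝓝 0) := by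
      simpa using (tendsto_pow_atTop_nhds_zero_of_lt_one (r := (1 / 2 : ℝ)) (by norm_num)
        (by norm_num)).const_mul (‖ι‖ * ‖f‖)
    obtain ⟨n, hn1, hn2, hn3⟩ := (hev.and ((hhalf.eventually (gt_mem_nhds ha00)).and
      (eventually_ge_atTop 1))).exists
    rw [ENNReal.ofReal_lt_ofReal_iff (by positivity)] at hn1
    have hn4 : ‖T ^ n‖ ≤ (r / 2) ^ n := by
      have : (‖T ^ n‖ ^ (1 / n : ℝ)) ^ n ≤ (r / 2) ^ n :=
        pow_le_pow_left₀ (by positivity) hn1.le n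
      rwa [one_div, Real.rpow_inv_natCast_pow (norm_nonneg _) (by omega)] at this
    have h5 : r ^ n * a 0 ≤ r ^ n * ((‖ι‖ * ‖f‖) * (1 / 2 : ℝ) ^ n) := by
      calc r ^ n * a 0 ≤ (‖ι‖ * ‖f‖) * ‖T ^ n‖ := (hlow n).trans (hup n)
        _ ≤ (‖ι‖ * ‖f‖) * (r / 2) ^ n := by gcongr
        _ = _ := by rw [div_eq_mul_one_div r, mul_pow]; ring
    have := le_of_mul_le_mul_left h5 (by positivity)
    linarith
  · exact ⟨z, hz0, (hT.hasEigenvalue_iff_mem_spectrum hz0).2 hz⟩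

theorem finite_eigenspace {X : Type*} [NormedAddCommGroup X] [NormedSpace ℂ X]
    [CompleteSpace X] (T : X →L[ℂ] X) (hT : IsCompactOperator T) (μ : ℂ) (hμ : μ ≠ 0) :
    FiniteDimensional ℂ (End.eigenspace T.toLinearMap μ) := by
  replace hT := hT.restrict'
    ((End.mem_invtSubmodule_iff_forall_mem_of_mem _).mp
      (End.eigenspace_mem_invtSubmodule T.toLinearMap μ))
  rw [End.restrict_eigenspace, LinearMap.coe_smul, IsCompactOperator.smul_iff₀ hμ] at hT
  rwa [← isCompactOperator_id_iff_finiteDimensional]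

theorem common_eigenvector {X ι : Type*} [AddCommGroup X] [Module ℂ X] (A : ι → End ℂ X)
    (hA : ∀ i j, A i * A j = A j * A i) (V : Submodule ℂ X) [FiniteDimensional ℂ V]
    (hV : V ≠ ⊥) (hinv : ∀ i, ∀ v ∈ V, A i v ∈ V) :
    ∃ v ∈ V, v ≠ 0 ∧ ∀ i, ∃ c : ℂ, A i v = c • v := by
  classical
  have key : ∀ n : ℕ, ∀ W : Submodule ℂ X, W ≤ V → finrank ℂ W = n → W ≠ ⊥ →
      (∀ i, ∀ v ∈ W, A i v ∈ W) → ∃ v ∈ W, v ≠ 0 ∧ ∀ i, ∃ c : ℂ, A i v = c • v := by
    intro n
    induction n using Nat.strong_induction_on with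
    | _ n ih =>
      intro W hWV hn hW hWinv
      have : FiniteDimensional ℂ W := Submodule.finiteDimensional_of_le hWV
      by_cases hall : ∀ i, ∃ c : ℂ, ∀ v ∈ W, A i v = c • v
      · obtain ⟨v, hv, hv0⟩ := (Submodule.ne_bot_iff W).1 hW
        exact ⟨v, hv, hv0, fun i => (hall i).imp fun c hc => hc v hv⟩
      · push Not at hall
        obtain ⟨i, hi⟩ := hall
        have : Nontrivial W := Submodule.nontrivial_iff_ne_bot.2 hW
        obtain ⟨c, hc⟩ := End.exists_eigenvalue ((A i).restrict (hWinv i))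
        obtain ⟨w, hw⟩ := hc.exists_hasEigenvector
        set W' : Submodule ℂ X := W ⊓ End.eigenspace (A i) c with hW'
        have hlt : W' < W := by
          refine lt_of_le_of_ne inf_le_left fun h => ?_
          obtain ⟨v, hv, hv'⟩ := hi c
          rw [← h] at hv
          exact hv' (End.mem_eigenspace_iff.1 hv.2)
        have hne : W' ≠ ⊥ := by
          rw [Submodule.ne_bot_iff]
          refine ⟨w, ⟨w.2, End.mem_eigenspace_iff.2 ?_⟩, fun h => hw.2 (Subtype.ext h)⟩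
          have := congrArg Subtype.val hw.apply_eq_smul
          simpa using this
        obtain ⟨v, hv, hv0, hvi⟩ := ih (finrank ℂ W') (hn ▸ Submodule.finrank_lt_finrank_of_lt hlt)
          W' (hlt.le.trans hWV) rfl hne (by
            intro j v hv
            refine ⟨hWinv j v hv.1, End.mem_eigenspace_iff.2 ?_⟩
            have h1 : A i (A j v) = A j (A i v) := by
              have := congrArg (fun B : End ℂ X => B v) (hA i j)
              simpa using this
            rw [h1, End.mem_eigenspace_iff.1 hv.2, map_smul])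
        exact ⟨v, hlt.le hv, hv0, hvi⟩
  exact key _ V le_rfl rfl hV hinv

/-- Two measurable partitions of unity for a countable group of measure preserving maps give the
same integral for invariant functions. -/
theorem lintegral_partition {Γ Y : Type*} [Group Γ] [Countable Γ] [MeasurableSpace Y]
    (ν : Measure Y) (act : Γ → Y → Y) (hmp : ∀ g, MeasurePreserving (act g) ν ν)
    (hinv : ∀ g y, act g⁻¹ (act g y) = y)
    (φ₁ φ₂ : Y → ℝ≥0∞) (h₁ : Measurable φ₁) (h₂ : Measurable φ₂)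
    (s₁ : ∀ y, ∑' g, φ₁ (act g y) = 1) (s₂ : ∀ y, ∑' g, φ₂ (act g y) = 1)
    (Φ : Y → ℝ≥0∞) (hΦ : Measurable Φ) (hΦi : ∀ g y, Φ (act g y) = Φ y) :
    ∫⁻ y, φ₁ y * Φ y ∂ν = ∫⁻ y, φ₂ y * Φ y ∂ν := by
  calc ∫⁻ y, φ₁ y * Φ y ∂ν = ∫⁻ y, ∑' g, φ₁ y * φ₂ (act g y) * Φ y ∂ν := by
        refine lintegral_congr fun y => ?_
        rw [ENNReal.tsum_mul_right, ENNReal.tsum_mul_left, s₂, mul_one]
    _ = ∑' g, ∫⁻ y, φ₁ y * φ₂ (act g y) * Φ y ∂ν :=
        lintegral_tsum fun g => ((h₁.mul (h₂.comp (hmp g).measurable)).mul hΦ).aemeasurable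
    _ = ∑' g, ∫⁻ y, φ₁ (act g⁻¹ y) * φ₂ y * Φ y ∂ν := by
        refine tsum_congr fun g => ?_
        rw [← (hmp g).lintegral_comp
          (f := fun y => φ₁ (act g⁻¹ y) * φ₂ y * Φ y)
          (((h₁.comp (hmp g⁻¹).measurable).mul h₂).mul hΦ)]
        simp only [hinv, hΦi]
    _ = ∫⁻ y, ∑' g, φ₁ (act g⁻¹ y) * φ₂ y * Φ y ∂ν :=
        (lintegral_tsum fun g =>
          (((h₁.comp (hmp g⁻¹).measurable).mul h₂).mul hΦ).aemeasurable).symm
    _ = ∫⁻ y, φ₂ y * Φ y ∂ν := by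
        refine lintegral_congr fun y => ?_
        have e : ∑' g, φ₁ (act g⁻¹ y) = 1 :=
          ((Equiv.inv Γ).tsum_eq (fun g => φ₁ (act g y))).trans (s₁ y)
        rw [ENNReal.tsum_mul_right, ENNReal.tsum_mul_right, e, one_mul]

theorem integral_partition {Γ Y : Type*} [Group Γ] [Countable Γ] [MeasurableSpace Y]
    (ν : Measure Y) (act : Γ → Y → Y) (hmp : ∀ g, MeasurePreserving (act g) ν ν)
    (hinv : ∀ g y, act g⁻¹ (act g y) = y)
    (φ₁ φ₂ : Y → ℝ≥0∞) (h₁ : Measurable φ₁) (h₂ : Measurable φ₂)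
    (s₁ : ∀ y, ∑' g, φ₁ (act g y) = 1) (s₂ : ∀ y, ∑' g, φ₂ (act g y) = 1)
    (Φ : Y → ℂ) (hΦ : Measurable Φ) (hΦi : ∀ g y, Φ (act g y) = Φ y) :
    ∫ y, Φ y ∂(ν.withDensity φ₁) = ∫ y, Φ y ∂(ν.withDensity φ₂) := by
  have hmap : (ν.withDensity φ₁).map Φ = (ν.withDensity φ₂).map Φ := by
    ext s hs
    rw [Measure.map_apply hΦ hs, Measure.map_apply hΦ hs, withDensity_apply _ (hΦ hs),
      withDensity_apply _ (hΦ hs), ← lintegral_indicator (hΦ hs), ← lintegral_indicator (hΦ hs)]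
    have := lintegral_partition ν act hmp hinv φ₁ φ₂ h₁ h₂ s₁ s₂
      ((Φ ⁻¹' s).indicator 1) (measurable_one.indicator (hΦ hs)) (by
        intro g y
        have e : act g y ∈ Φ ⁻¹' s ↔ y ∈ Φ ⁻¹' s := by simp only [Set.mem_preimage, hΦi]
        by_cases hy : y ∈ Φ ⁻¹' s
        · simp [hy, e.2 hy]
        · have := mt e.1 hy
          simp [hy, this])
    convert this using 3 <;> rename_i y <;> by_cases hy : y ∈ Φ ⁻¹' s <;> simp [hy]
  have e1 := integral_map (μ := ν.withDensity φ₁) hΦ.aemeasurable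
    (f := id) aestronglyMeasurable_id
  have e2 := integral_map (μ := ν.withDensity φ₂) hΦ.aemeasurable
    (f := id) aestronglyMeasurable_id
  simp only [id] at e1 e2
  rw [← e1, ← e2, hmap]

end Pool.Agent.H26Z.Mf
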