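import Mathlib

/-! The Bessel function given by its integral, its differential equation and Mellin transform. -/

set_option autoImplicit false

namespace Pool.Agent.H26Z.Mf

open Filter Topology MeasureTheory Set Complex
open scoped Real

/-- The integrand. -/
noncomputable def bE (n : ℕ) (ν : ℂ) (y u : ℝ) : ℂ :=
  (Real.cosh u : ℂ) ^ n * cexp (-(2 * π * y * Real.cosh u) + ν * u)

/-- Twice the Bessel function (for `n = 0`) and its companions. -/
noncomputable def bF (n : ℕ) (ν : ℂ) (y : ℝ) : ℂ := ∫ u, bE n ν y u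

theorem norm_bE (n : ℕ) (ν : ℂ) (y u : ℝ) :
    ‖bE n ν y u‖ = Real.cosh u ^ n * Real.exp (-(2 * π * y * Real.cosh u) + ν.re * u) := by
  rw [bE, norm_mul, norm_pow, norm_real, Real.norm_of_nonneg (Real.cosh_pos u).le, norm_exp]
  congr 2
  simp [-ofReal_cosh]

theorem bE_cont (n : ℕ) (ν : ℂ) (y : ℝ) : Continuous (bE n ν y) := by
  unfold bE; fun_prop

theorem cosh_le_exp_abs (u : ℝ) : Real.cosh u ≤ Real.exp |u| := by
  rw [Real.cosh_eq]
  have h1 := Real.exp_le_exp.2 (le_abs_self u)
  have h2 := Real.exp_le_exp.2 (neg_le_abs u)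
  linarith

theorem sq_le_cosh (u : ℝ) : u ^ 2 / 4 ≤ Real.cosh u := by
  rw [← Real.cosh_abs, Real.cosh_eq, ← sq_abs]
  have h1 := Real.quadratic_le_exp_of_nonneg (abs_nonneg u)
  have h2 := Real.exp_pos (-|u|)
  have := abs_nonneg u
  linarith

theorem bE_int (n : ℕ) (ν : ℂ) {y : ℝ} (hy : 0 < y) : Integrable (bE n ν y) := by
  set c := 2 * π * y with hc
  have hc0 : 0 < c := by positivity
  set b := n + |ν.re| with hb
  refine ((integrable_exp_neg_mul_sq (b := c / 8) (by positivity)).const_mul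
    (Real.exp (2 * b ^ 2 / c))).mono' (bE_cont n ν y).aestronglyMeasurable
    (Eventually.of_forall fun u => ?_)
  rw [norm_bE, ← hc]
  calc _ ≤ Real.exp |u| ^ n * Real.exp (-(c * Real.cosh u) + ν.re * u) := by
        gcongr
        exact cosh_le_exp_abs u
    _ ≤ _ := by
        rw [← Real.exp_nat_mul, ← Real.exp_add, ← Real.exp_add, Real.exp_le_exp]
        have h1 : ν.re * u ≤ |ν.re| * |u| := by rw [← abs_mul]; exact le_abs_self _
        have h2 := mul_le_mul_of_nonneg_left (sq_le_cosh u) hc0.le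
        have h3 : b * |u| ≤ 2 * b ^ 2 / c + c / 8 * u ^ 2 := by
          rw [← sq_abs u, div_add' _ _ _ hc0.ne', le_div_iff₀ hc0]
          nlinarith [sq_nonneg (c * |u| - 4 * b)]
        have h4 : b * |u| = n * |u| + |ν.re| * |u| := by rw [hb]; ring
        nlinarith

theorem norm_bE_le (n : ℕ) (ν : ℂ) {y₀ y : ℝ} (h : y₀ ≤ y) (u : ℝ) :
    ‖bE n ν y u‖ ≤ Real.exp (-(2 * π * (y - y₀))) * ‖bE n ν y₀ u‖ := by
  rw [norm_bE, norm_bE, mul_left_comm, ← Real.exp_add]
  refine mul_le_mul_of_nonneg_left (Real.exp_le_exp.2 ?_) (pow_nonneg (Real.cosh_pos u).le n)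
  have := mul_le_mul_of_nonneg_left (Real.one_le_cosh u)
    (mul_nonneg (by positivity : 0 ≤ 2 * π) (sub_nonneg.2 h))
  nlinarith

theorem bF_decay (n : ℕ) (ν : ℂ) {y₀ : ℝ} (h₀ : 0 < y₀) : ∃ C : ℝ, 0 ≤ C ∧ ∀ y, y₀ ≤ y →
    ‖bF n ν y‖ ≤ C * Real.exp (-(2 * π * (y - y₀))) := by
  refine ⟨∫ u, ‖bE n ν y₀ u‖, integral_nonneg fun u => norm_nonneg _, fun y hy => ?_⟩
  rw [mul_comm, ← integral_const_mul]
  exact norm_integral_le_of_norm_le ((bE_int n ν h₀).norm.const_mul _)
    (Eventually.of_forall (norm_bE_le n ν hy))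

theorem bF_deriv (n : ℕ) (ν : ℂ) {y : ℝ} (hy : 0 < y) :
    HasDerivAt (bF n ν) (-(2 * π) * bF (n + 1) ν y) y := by
  have := (hasDerivAt_integral_of_dominated_loc_of_deriv_le (s := Ioi (y / 2))
    (F := fun y u => bE n ν y u) (F' := fun y u => -(2 * π) * bE (n + 1) ν y u)
    (bound := fun u => 2 * π * ‖bE (n + 1) ν (y / 2) u‖) (Ioi_mem_nhds (by linarith))
    (Eventually.of_forall fun y => (bE_cont n ν y).aestronglyMeasurable) (bE_int n ν hy)
    (continuous_const.mul (bE_cont _ ν y)).aestronglyMeasurable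
    (Eventually.of_forall fun u x hx => ?_) ((bE_int _ ν (by linarith)).norm.const_mul _)
    (Eventually.of_forall fun u x _ => ?_)).2
  · rwa [integral_const_mul] at this
  · rw [norm_mul, norm_neg]
    have e : ‖(2 * π : ℂ)‖ = 2 * π := by simp [abs_of_pos Real.pi_pos]
    rw [e]
    gcongr
    refine (norm_bE_le _ ν (le_of_lt hx) u).trans (mul_le_of_le_one_left (norm_nonneg _) ?_)
    rw [Real.exp_le_one_iff, neg_nonpos]
    exact mul_nonneg (by positivity) (sub_nonneg.2 (le_of_lt hx))
  · have h1 : HasDerivAt (fun x : ℝ => (x : ℂ)) 1 x := by simpa using (hasDerivAt_id x).ofReal_comp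
    have := (((((h1.const_mul (2 * π : ℂ)).mul_const (Real.cosh u : ℂ)).neg).add_const
      (ν * u)).cexp).const_mul ((Real.cosh u : ℂ) ^ n)
    refine this.congr_deriv ?_
    simp only [bE, Pi.neg_apply]; ring

theorem bF_ode (ν : ℂ) {y : ℝ} (hy : 0 < y) :
    (2 * π * y) ^ 2 * bF 2 ν y - 2 * π * y * bF 1 ν y - ((2 * π * y) ^ 2 + ν ^ 2) * bF 0 ν y
      = 0 := by
  have i0 := bE_int 0 ν hy
  have i1 := bE_int 1 ν hy
  have i2 := bE_int 2 ν hy
  have key := integral_eq_zero_of_hasDerivAt_of_integrable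
    (f := fun u : ℝ => (-(2 * π * y * Real.sinh u) - ν) * bE 0 ν y u)
    (f' := fun u : ℝ => (2 * π * y) ^ 2 * bE 2 ν y u - 2 * π * y * bE 1 ν y u
      - ((2 * π * y) ^ 2 + ν ^ 2) * bE 0 ν y u) (fun u => ?_)
    (((i2.const_mul _).sub (i1.const_mul _)).sub (i0.const_mul _)) ?_
  · have i3 : Integrable fun u : ℝ => (2 * π * y) ^ 2 * bE 2 ν y u - 2 * π * y * bE 1 ν y u :=
      (i2.const_mul _).sub (i1.const_mul _)
    rw [integral_sub i3 (i0.const_mul _),
      integral_sub (i2.const_mul _) (i1.const_mul _), integral_const_mul, integral_const_mul,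
      integral_const_mul] at key
    exact key
  · have h1 : HasDerivAt (fun x : ℝ => (x : ℂ)) 1 u := by simpa using (hasDerivAt_id u).ofReal_comp
    have hs := (Real.hasDerivAt_sinh u).ofReal_comp
    have hc := (Real.hasDerivAt_cosh u).ofReal_comp
    have := (((hs.const_mul (2 * π * y : ℂ)).neg).sub_const ν).mul
      ((((hc.const_mul (2 * π * y : ℂ)).neg).add (h1.const_mul ν)).cexp)
    simp only [bE, pow_zero, one_mul]
    refine this.congr_deriv ?_
    have hsq : (Real.cosh u : ℂ) ^ 2 = Real.sinh u ^ 2 + 1 := by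
      exact_mod_cast Real.cosh_sq u
    simp only [Pi.neg_apply, Pi.add_apply]
    rw [hsq]; ring
  · refine ((i1.norm.const_mul (2 * π * y)).add (i0.norm.const_mul ‖ν‖)).mono'
      (Continuous.aestronglyMeasurable (by have := bE_cont 0 ν y; fun_prop))
      (Eventually.of_forall fun u => ?_)
    have e : ‖bE 1 ν y u‖ = Real.cosh u * ‖bE 0 ν y u‖ := by simp only [norm_bE]; ring
    simp only [Pi.add_apply, e, norm_mul]
    rw [← mul_assoc, ← add_mul]
    gcongr
    refine (norm_sub_le _ _).trans (add_le_add ?_ le_rfl)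
    have : |Real.sinh u| ≤ Real.cosh u := by
      rw [Real.abs_sinh, ← Real.cosh_abs]; exact (Real.sinh_lt_cosh _).le
    simp only [norm_neg, norm_mul, norm_real, Real.norm_eq_abs, abs_of_pos Real.pi_pos,
      abs_of_pos hy, Complex.norm_ofNat]
    gcongr

theorem beta_sub {s ν : ℂ} (h : |ν.re| < s.re) :
    Integrable (fun u : ℝ => cexp (ν * u - s * Real.log (2 * Real.cosh u))) ∧
    2 * ∫ u : ℝ, cexp (ν * u - s * Real.log (2 * Real.cosh u))
      = betaIntegral ((s + ν) / 2) ((s - ν) / 2) := by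
  have h' := abs_lt.1 h
  have hα : 0 < ((s + ν) / 2).re := by simp; linarith
  have hβ : 0 < ((s - ν) / 2).re := by simp; linarith
  set φ : ℝ → ℝ := fun u => Real.exp u / (2 * Real.cosh u) with hφ
  have hφ1 : ∀ u, 1 - φ u = Real.exp (-u) / (2 * Real.cosh u) := by
    intro u
    have := (Real.cosh_pos u).ne'
    simp only [hφ]; field_simp
    rw [Real.cosh_eq]; ring
  have hφ0 : ∀ u, 0 < φ u := fun u => div_pos (Real.exp_pos u) (by have := Real.cosh_pos u; positivity)
  have hφ1' : ∀ u, 0 < 1 - φ u := fun u => by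
    rw [hφ1]; exact div_pos (Real.exp_pos _) (by have := Real.cosh_pos u; positivity)
  have hd : ∀ u, HasDerivAt φ (2 * φ u * (1 - φ u)) u := by
    intro u
    have hne := (Real.cosh_pos u).ne'
    refine ((Real.hasDerivAt_exp u).div ((Real.hasDerivAt_cosh u).const_mul 2)
      (by positivity)).congr_deriv ?_
    rw [hφ1]
    simp only [hφ]; field_simp
    rw [← Real.cosh_sub_sinh]
  have hinj : InjOn φ univ := (strictMono_of_deriv_pos fun u => by
    rw [(hd u).deriv]; have := hφ0 u; have := hφ1' u; positivity).injective.injOn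
  have himg : φ '' univ = Ioo 0 1 := by
    ext x
    constructor
    · rintro ⟨u, -, rfl⟩; exact ⟨hφ0 u, by linarith [hφ1' u]⟩
    · rintro ⟨h0, h1⟩
      have h1' : 0 < 1 - x := by linarith
      refine ⟨Real.log (x / (1 - x)) / 2, trivial, ?_⟩
      set u := Real.log (x / (1 - x)) / 2 with hu
      have e : Real.exp u * Real.exp u = x / (1 - x) := by
        rw [← Real.exp_add, hu, add_halves, Real.exp_log (by positivity)]
      have e2 : Real.exp u * Real.exp (-u) = 1 := by rw [← Real.exp_add]; simp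
      have hp := Real.exp_pos u
      have hq := Real.exp_pos (-u)
      simp only [hφ, Real.cosh_eq]
      rw [eq_div_iff h1'.ne'] at e
      field_simp
      have : Real.exp u * (Real.exp u - (Real.exp u + Real.exp (-u)) * x) = 0 := by
        linear_combination e - x * e2
      have := (mul_eq_zero.1 this).resolve_left hp.ne'
      linarith
  have hval : ∀ u : ℝ, |2 * φ u * (1 - φ u)| • (((φ u : ℝ) : ℂ) ^ ((s + ν) / 2 - 1)
      * (1 - ((φ u : ℝ) : ℂ)) ^ ((s - ν) / 2 - 1))
      = 2 * cexp (ν * u - s * Real.log (2 * Real.cosh u)) := by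
    intro u
    have h0 := hφ0 u
    have h1 := hφ1' u
    have hc : 0 < 2 * Real.cosh u := by have := Real.cosh_pos u; positivity
    have l0 : Real.log (φ u) = u - Real.log (2 * Real.cosh u) := by
      simp only [hφ]; rw [Real.log_div (Real.exp_pos u).ne' hc.ne', Real.log_exp]
    have l1 : Real.log (1 - φ u) = -u - Real.log (2 * Real.cosh u) := by
      rw [hφ1, Real.log_div (Real.exp_pos _).ne' hc.ne', Real.log_exp]
    have c1 : (1 - ((φ u : ℝ) : ℂ)) = ((1 - φ u : ℝ) : ℂ) := by push_cast; ring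
    rw [abs_of_pos (by positivity), c1, cpow_def_of_ne_zero (ofReal_ne_zero.2 h0.ne'),
      cpow_def_of_ne_zero (ofReal_ne_zero.2 h1.ne'), ← ofReal_log h0.le, ← ofReal_log h1.le,
      real_smul]
    conv_lhs => enter [1, 1]; rw [← Real.exp_log h1]; enter [1, 2]; rw [← Real.exp_log h0]
    rw [l0, l1]
    generalize Real.log (2 * Real.cosh u) = L
    push_cast
    rw [mul_assoc, mul_assoc, ← Complex.exp_add, ← Complex.exp_add, ← Complex.exp_add]
    congr 2
    ring
  constructor
  · have := (integrableOn_image_iff_integrableOn_abs_deriv_smul MeasurableSet.univ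
      (fun u _ => (hd u).hasDerivWithinAt) hinj
      (fun x : ℝ => (x : ℂ) ^ ((s + ν) / 2 - 1) * (1 - (x : ℂ)) ^ ((s - ν) / 2 - 1))).1 (by
        rw [himg]
        exact ((intervalIntegrable_iff_integrableOn_Ioo_of_le zero_le_one).1
          (betaIntegral_convergent hα hβ)))
    simp only [hval, integrableOn_univ] at this
    simpa using this.const_mul (1 / 2 : ℂ)
  · have := integral_image_eq_integral_abs_deriv_smul MeasurableSet.univ
      (fun u _ => (hd u).hasDerivWithinAt) hinj
      (fun x : ℝ => (x : ℂ) ^ ((s + ν) / 2 - 1) * (1 - (x : ℂ)) ^ ((s - ν) / 2 - 1))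
    simp only [hval, himg, Measure.restrict_univ, integral_const_mul] at this
    rw [← this, betaIntegral, intervalIntegral.integral_of_le zero_le_one,
      integral_Ioc_eq_integral_Ioo]

theorem bF_mellin {s ν : ℂ} (h : |ν.re| < s.re) :
    HasMellin (bF 0 ν) s
      ((π : ℂ) ^ (-s) / 2 * (Gamma ((s + ν) / 2) * Gamma ((s - ν) / 2))) := by
  have h' := abs_lt.1 h
  have hs : 0 < s.re := (abs_nonneg _).trans_lt h
  have hα : 0 < ((s + ν) / 2).re := by simp; linarith
  have hβ : 0 < ((s - ν) / 2).re := by simp; linarith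
  have hr : ∀ u, 0 < 2 * π * Real.cosh u := fun u => by have := Real.cosh_pos u; positivity
  have hpow : ∀ (s : ℂ) (u : ℝ), (1 / ((2 * π * Real.cosh u : ℝ) : ℂ)) ^ s
      = (π : ℂ) ^ (-s) * cexp (-(s * Real.log (2 * Real.cosh u))) := by
    intro s u
    have hc : 0 < 2 * Real.cosh u := by have := Real.cosh_pos u; positivity
    have e : (1 / ((2 * π * Real.cosh u : ℝ) : ℂ)) = ((1 / (π * (2 * Real.cosh u)) : ℝ) : ℂ) := by
      rw [ofReal_div, ofReal_one]; congr 2; ring
    rw [e, cpow_def_of_ne_zero (ofReal_ne_zero.2 (by positivity)), ← ofReal_log (by positivity),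
      cpow_def_of_ne_zero (ofReal_ne_zero.2 Real.pi_pos.ne'), ← ofReal_log Real.pi_pos.le,
      one_div, Real.log_inv, Real.log_mul Real.pi_pos.ne' hc.ne', ← Complex.exp_add]
    congr 1
    generalize Real.log (2 * Real.cosh u) = L
    push_cast; ring
  have hin : ∀ (s ν : ℂ), 0 < s.re → ∀ u : ℝ, ∫ y : ℝ in Ioi 0, (y : ℂ) ^ (s - 1) * bE 0 ν y u
      = (π : ℂ) ^ (-s) * Gamma s * cexp (ν * u - s * Real.log (2 * Real.cosh u)) := by
    intro s ν hs u
    have := integral_cpow_mul_exp_neg_mul_Ioi hs (hr u)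
    rw [hpow] at this
    have e : ∀ y : ℝ, (y : ℂ) ^ (s - 1) * bE 0 ν y u
        = (y : ℂ) ^ (s - 1) * cexp (-(((2 * π * Real.cosh u : ℝ) : ℂ) * y)) * cexp (ν * u) := by
      intro y
      rw [bE, pow_zero, one_mul, Complex.exp_add, ← mul_assoc]
      congr 4
      simp only [ofReal_mul, ofReal_ofNat]; ring
    simp only [e]
    rw [integral_mul_const, this, sub_eq_add_neg, Complex.exp_add]; ring
  have hmeas : AEStronglyMeasurable (fun p : ℝ × ℝ => (p.1 : ℂ) ^ (s - 1) * bE 0 ν p.1 p.2)
      ((volume.restrict (Ioi 0)).prod volume) := by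
    refine Measurable.aestronglyMeasurable ?_
    unfold bE
    fun_prop
  have hint : Integrable (fun p : ℝ × ℝ => (p.1 : ℂ) ^ (s - 1) * bE 0 ν p.1 p.2)
      ((volume.restrict (Ioi 0)).prod volume) := by
    rw [integrable_prod_iff' hmeas]
    constructor
    · refine Eventually.of_forall fun u => ?_
      have h1 : MellinConvergent (fun t : ℝ => cexp (-t)) s := by
        have := Complex.GammaIntegral_convergent hs
        refine this.congr_fun (fun t _ => ?_) measurableSet_Ioi
        simp [mul_comm]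
      have h2 := ((MellinConvergent.comp_mul_left (hr u)).2 h1).mul_const (cexp (ν * u))
      refine h2.congr (Eventually.of_forall fun y => ?_)
      simp only [bE, pow_zero, one_mul, Complex.exp_add, smul_eq_mul, mul_assoc]
      congr 3
      simp only [ofReal_mul, ofReal_ofNat]; ring
    · have h1 := ((beta_sub (s := (s.re : ℂ)) (ν := (ν.re : ℂ)) (by simpa using h)).1.const_mul
        ((π : ℂ) ^ (-(s.re : ℂ)) * Gamma s.re)).re
      refine h1.congr (Eventually.of_forall fun u => ?_)
      simp only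
      rw [← hin (s.re : ℂ) (ν.re : ℂ) (by simpa using hs) u]
      have e : ∫ y : ℝ in Ioi 0, (y : ℂ) ^ ((s.re : ℂ) - 1) * bE 0 (ν.re : ℂ) y u
          = ((∫ y : ℝ in Ioi 0, ‖(y : ℂ) ^ (s - 1) * bE 0 ν y u‖ : ℝ) : ℂ) := by
        rw [← integral_complex_ofReal]
        refine setIntegral_congr_fun measurableSet_Ioi fun y hy => ?_
        simp only [norm_mul, norm_bE, norm_cpow_eq_rpow_re_of_pos hy]
        rw [bE, ofReal_mul, ofReal_cpow (le_of_lt hy)]
        push_cast
        simp
      rw [e]; simp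
  constructor
  · have := hint.integral_prod_left
    simp only [integral_const_mul] at this
    exact this
  · have := integral_integral_swap (f := fun (y : ℝ) (u : ℝ) => (y : ℂ) ^ (s - 1) * bE 0 ν y u) hint
    simp only [integral_const_mul, hin s ν hs] at this
    rw [mellin]
    simp only [smul_eq_mul, bF]
    rw [this, Gamma_mul_Gamma_eq_betaIntegral hα hβ, ← (beta_sub h).2]
    have : (s + ν) / 2 + (s - ν) / 2 = s := by ring
    rw [this]; ring

end Pool.Agent.H26Z.Mf
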