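import Mathlib

/-! Hecke-Maass cusp forms of level one and the L-functions of their twists. -/

set_option autoImplicit false

namespace Pool.Agent.H26Z.Mf

open scoped ContDiff

/-- The hyperbolic Laplace operator `-y² (∂²/∂x² + ∂²/∂y²)`. -/
noncomputable def hypLaplace (U : ℂ → ℂ) (z : ℂ) : ℂ :=
  -((z.im : ℂ)) ^ 2 *
    (deriv (deriv fun t : ℝ => U (z + t)) 0 + deriv (deriv fun t : ℝ => U (z + t * Complex.I)) 0)

/-- The Hecke operator at a prime `p`, in the unitary normalisation. -/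
noncomputable def heckeOp (p : ℕ) (U : ℂ → ℂ) (z : ℂ) : ℂ :=
  ((√p : ℝ) : ℂ)⁻¹ * (U (p * z) + ∑ b ∈ Finset.range p, U ((z + b) / p))

/-- `U` is a Hecke-Maass cusp form for the full modular group, with Laplace eigenvalue `ev` and
eigenvalue `lam p` for the Hecke operator at each prime `p`. Only the values of `U` on the upper
half-plane matter. -/
structure IsHeckeMaass (U : ℂ → ℂ) (ev : ℂ) (lam : ℕ → ℂ) : Prop where
  smooth : ContDiffOn ℝ ∞ U {z | 0 < z.im}
  nonzero : ∃ z : ℂ, 0 < z.im ∧ U z ≠ 0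
  modular : ∀ a b c d : ℤ, a * d - b * c = 1 → ∀ z : ℂ, 0 < z.im →
    U ((a * z + b) / (c * z + d)) = U z
  laplace : ∀ z : ℂ, 0 < z.im → hypLaplace U z = ev * U z
  bounded : ∃ B : ℝ, ∀ z : ℂ, 0 < z.im → ‖U z‖ ≤ B
  cuspidal : ∀ y : ℝ, 0 < y → ∫ x in (0 : ℝ)..1, U (x + y * Complex.I) = 0
  hecke : ∀ p : ℕ, p.Prime → ∀ z : ℂ, 0 < z.im → heckeOp p U z = lam p * U z

/-- `U` is odd under the reflection `z ↦ -conj z`. -/
def IsOddForm (U : ℂ → ℂ) : Prop := ∀ z : ℂ, 0 < z.im → U (-(starRingEnd ℂ z)) = -U z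

/-- The local factor at `p` of the standard L-function of the twist by `η` of a level one form with
Hecke eigenvalues `lam`. -/
noncomputable def eulerFactor (lam η : ℕ → ℂ) (p : ℕ) (s : ℂ) : ℂ :=
  (1 - lam p * η p * (p : ℂ) ^ (-s) + η p ^ 2 * (p : ℂ) ^ (-2 * s))⁻¹

/-- `L` is an entire function given by the Euler product of the twist in a right half-plane. -/
def IsTwistL (lam η : ℕ → ℂ) (L : ℂ → ℂ) : Prop :=
  Differentiable ℂ L ∧ ∃ σ : ℝ, ∀ s : ℂ, σ < s.re →
    HasProd (fun p : Nat.Primes => eulerFactor lam η p s) (L s)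

/-- `D` is a fundamental discriminant other than `1`, that is, the discriminant of a quadratic
field. -/
def IsFundDisc (D : ℤ) : Prop :=
  (D % 4 = 1 ∧ Squarefree D ∧ D ≠ 1) ∨ ∃ m : ℤ, D = 4 * m ∧ (m % 4 = 2 ∨ m % 4 = 3) ∧ Squarefree m

/-- The Kronecker symbol `(D / p)` at a prime `p`, for a discriminant `D`. -/
def kron (D : ℤ) (p : ℕ) : ℤ :=
  if p = 2 then (if D % 2 = 0 then 0 else if D % 8 = 1 then 1 else -1) else jacobiSym D p

/-- The number of quadratic fields with `|D| < x`. -/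
noncomputable def countAll (x : ℝ) : ℕ := {D : ℤ | IsFundDisc D ∧ |(D : ℝ)| < x}.ncard

/-- The number of quadratic fields with `|D| < x` for which the twisted L-function does not vanish
at the centre. -/
noncomputable def countNonvanishing (lam : ℕ → ℂ) (x : ℝ) : ℕ :=
  {D : ℤ | IsFundDisc D ∧ |(D : ℝ)| < x ∧
    ∃ L : ℂ → ℂ, IsTwistL lam (fun p => (kron D p : ℂ)) L ∧ L (1 / 2) ≠ 0}.ncard

end Pool.Agent.H26Z.Mf
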