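import Pool.Agent.H26Z.MfMellin

/-! Vanishing at the centre of all quadratic twists of an odd form of level one. -/

set_option autoImplicit false

namespace Pool.Agent.H26Z.Mf

open Filter Topology MeasureTheory Set Complex
open scoped Real ContDiff

theorem coeff_bound (ν : ℂ) {a : ℤ → ℂ} {A : ℝ} (h0 : a 0 = 0) (hA : ∀ n, ‖a n‖ ≤ A) {y : ℝ}
    (hy : 0 < y) : ∃ u : ℤ → ℝ, Summable u ∧ ∀ n : ℤ, ‖a n * wW ν (|(n : ℝ)| * y)‖ ≤ u n ∧
      ‖a n * (((|(n : ℝ)| * y : ℝ) : ℂ) * wW ν (|(n : ℝ)| * y))‖ ≤ u n := by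
  obtain ⟨C, hC0, hC⟩ := wW_decay ν hy
  have hA0 : 0 ≤ A := (norm_nonneg _).trans (hA 0)
  refine ⟨fun n => A * (C * Real.exp (-(|(n : ℝ)| * y))), ?_, fun n => ?_⟩
  · have : Summable fun n : ℤ => Real.exp (-(|(n : ℝ)| * y)) :=
      Summable.of_nat_of_neg (by simpa using summable_exp_nat hy)
        (by simpa using summable_exp_nat hy)
    exact (this.mul_left C).mul_left A
  · by_cases hn : n = 0
    · simp only [hn, h0, zero_mul, norm_zero, and_self]; positivity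
    · have h1 : (1 : ℝ) ≤ |(n : ℝ)| := by exact_mod_cast Int.one_le_abs hn
      have h2 := hC (|(n : ℝ)| * y) (by nlinarith)
      rw [norm_mul, norm_mul (a n)]
      exact ⟨mul_le_mul (hA n) h2.1 (norm_nonneg _) hA0, mul_le_mul (hA n) h2.2 (norm_nonneg _) hA0⟩

theorem IsHeckeMaass.expansion {U : ℂ → ℂ} {ev : ℂ} {lam : ℕ → ℂ} (h : IsHeckeMaass U ev lam)
    {ν : ℂ} {a : ℤ → ℂ} {A : ℝ} (h0 : a 0 = 0) (hA : ∀ n, ‖a n‖ ≤ A)
    (ha : ∀ n : ℤ, ∀ y > 0, cf U n y = a n * wW ν (|(n : ℝ)| * y)) (x : ℝ) {y : ℝ} (hy : 0 < y) :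
    HasSum (fun n : ℤ => a n * wW ν (|(n : ℝ)| * y) * ee n x) (U (x + y * I)) := by
  obtain ⟨u, hu, hb⟩ := coeff_bound ν h0 hA hy
  have e : ∀ n : ℤ, ∫ x in (0 : ℝ)..1, ee (-n) x * U (x + y * I) = a n * wW ν (|(n : ℝ)| * y) :=
    fun n => ha n y hy
  have := hasSum_fourier (g := fun x : ℝ => U (x + y * I)) (line_cont h.smooth.continuousOn hy)
    (fun t => by
      simp only
      rw [← h.per (t + y * I) (by simpa using hy)]
      congr 1; push_cast; ring)
    (by simp only [e]; exact Summable.of_norm_bounded hu fun n => (hb n).1) x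
  simpa only [e] using this

theorem IsHeckeMaass.coeff_hecke {U : ℂ → ℂ} {ev : ℂ} {lam : ℕ → ℂ} (h : IsHeckeMaass U ev lam)
    {ν : ℂ} {a : ℤ → ℂ} (ha : ∀ n : ℤ, ∀ y > 0, cf U n y = a n * wW ν (|(n : ℝ)| * y))
    (p n : ℕ) (hp : p.Prime) (hn : 0 < n) :
    lam p * ((√n : ℝ) * a n) = (√(n * p : ℕ) : ℝ) * a (n * p : ℕ)
      + if p ∣ n then (√(n / p : ℕ) : ℝ) * a (n / p : ℕ) else 0 := by
  obtain ⟨y₀, hy₀, hW⟩ := wW_ne ν
  have hp' : (0 : ℝ) < p := by exact_mod_cast hp.pos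
  have hn' : (0 : ℝ) < n := by exact_mod_cast hn
  have hsp : ((√p : ℝ) : ℂ) ≠ 0 := ofReal_ne_zero.2 (Real.sqrt_pos.2 hp').ne'
  have hsq : ((√p : ℝ) : ℂ) ^ 2 = p := by exact_mod_cast Real.sq_sqrt hp'.le
  set y := y₀ / n with hy
  have hy0 : 0 < y := by positivity
  have hc := h.smooth.continuousOn
  have c1 : Continuous fun x : ℝ => ee (-n) x * U (p * (x + y * I)) :=
    (ee_cont _).mul (hc.comp_continuous (by fun_prop) fun x => by simp; positivity)
  have c2 : ∀ b : ℕ, Continuous fun x : ℝ => ee (-n) x * U ((x + y * I + b) / p) := fun b =>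
    (ee_cont _).mul (hc.comp_continuous (by fun_prop) fun x => by simp; positivity)
  have e : cf (fun z => U (p * z)) n y + ∑ b ∈ Finset.range p, cf (fun z => U ((z + b) / p)) n y
      = (√p : ℝ) * lam p * cf U n y := by
    simp only [cf]
    rw [← intervalIntegral.integral_finsetSum fun b _ => (c2 b).intervalIntegrable _ _,
      ← intervalIntegral.integral_add (c1.intervalIntegrable _ _)
        ((continuous_finsetSum _ fun b _ => c2 b).intervalIntegrable _ _),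
      ← intervalIntegral.integral_const_mul]
    congr 1
    funext x
    have := h.hecke p hp (x + y * I) (by simpa using hy0)
    rw [heckeOp, inv_mul_eq_iff_eq_mul₀ hsp] at this
    rw [← Finset.mul_sum, ← mul_add, this]; ring
  rw [cf_up hc h.per hp.pos n hy0, cf_down hc hp.pos n hy0, ha _ _ hy0, ha _ _ (div_pos hy0 hp'),
    ha _ _ (mul_pos hp' hy0)] at e
  have a1 : |((n : ℤ) : ℝ)| * y = y₀ := by
    rw [Int.cast_natCast, abs_of_pos hn', hy]; field_simp
  have a2 : |((n * p : ℤ) : ℝ)| * (y / p) = y₀ := by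
    push_cast; rw [abs_of_pos (by positivity), hy]; field_simp
  rw [a1, a2] at e
  have s1 : ((√(n * p : ℕ) : ℝ) : ℂ) = (√n : ℝ) * (√p : ℝ) := by
    push_cast; rw [Real.sqrt_mul hn'.le]; push_cast; ring
  rw [s1, Nat.cast_mul]
  by_cases hd : p ∣ n
  · obtain ⟨m, rfl⟩ := hd
    have hm : 0 < m := Nat.pos_of_mul_pos_left hn
    have hm' : (0 : ℝ) < m := by exact_mod_cast hm
    have q1 : ((p * m : ℕ) : ℤ) / p = m := by
      push_cast; exact Int.mul_ediv_cancel_left _ (by exact_mod_cast hp.pos.ne')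
    have a3 : |((m : ℤ) : ℝ)| * (p * y) = y₀ := by
      rw [Int.cast_natCast, abs_of_pos hm', hy]; push_cast; field_simp
    rw [if_pos (by exact_mod_cast dvd_mul_right p m), q1, a3] at e
    have s2 : ((√(p * m : ℕ) : ℝ) : ℂ) = (√p : ℝ) * (√m : ℝ) := by
      push_cast; rw [Real.sqrt_mul hp'.le]; push_cast; ring
    rw [if_pos (dvd_mul_right p m), Nat.mul_div_cancel_left _ hp.pos, s2]
    refine mul_right_cancel₀ hW ?_
    rw [← hsq] at e
    linear_combination -((√m : ℝ) : ℂ) * e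
  · rw [if_neg (by exact_mod_cast hd)] at e
    rw [if_neg hd]
    refine mul_right_cancel₀ (mul_ne_zero hW hsp) ?_
    rw [← hsq] at e
    linear_combination -((√n : ℝ) : ℂ) * e

/-- The twisted form. -/
noncomputable def tw {q : ℕ} [NeZero q] (χ : DirichletCharacter ℂ q) (U : ℂ → ℂ) (z : ℂ) : ℂ :=
  ∑ u : ZMod q, χ u * U (z + (u.val : ℂ) / q)

theorem sum_units {q : ℕ} [NeZero q] (χ : DirichletCharacter ℂ q) (F : ZMod q → ℂ) :
    ∑ u : ZMod q, χ u * F u = ∑ u : (ZMod q)ˣ, χ u * F u := by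
  classical
  refine Eq.trans ?_
    (Finset.sum_map Finset.univ ⟨Units.val, Units.val_injective⟩ fun u => χ u * F u)
  refine (Finset.sum_subset (Finset.subset_univ _) fun u _ hu => ?_).symm
  rw [MulChar.map_nonunit, zero_mul]
  rintro ⟨v, rfl⟩
  exact hu (Finset.mem_map.2 ⟨v, Finset.mem_univ _, rfl⟩)

theorem tw_fe {U : ℂ → ℂ} {ev : ℂ} {lam : ℕ → ℂ} (h : IsHeckeMaass U ev lam) {q : ℕ} [NeZero q]
    {χ : DirichletCharacter ℂ q} (hχ : χ.IsQuadratic) {z : ℂ} (hz : 0 < z.im) :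
    tw χ U (-(q ^ 2 * z)⁻¹) = χ (-1) * tw χ U z := by
  have hq : (q : ℂ) ≠ 0 := Nat.cast_ne_zero.2 (NeZero.ne q)
  have hz0 : z ≠ 0 := by rintro rfl; simp at hz
  rw [tw, tw, sum_units, sum_units, Finset.mul_sum,
    ← ((Equiv.inv (ZMod q)ˣ).trans (Equiv.neg _)).sum_comp]
  refine Finset.sum_congr rfl fun v _ => ?_
  simp only [Equiv.trans_apply, Equiv.inv_apply, Equiv.neg_apply]
  have e1 : χ ((-v⁻¹ : (ZMod q)ˣ) : ZMod q) = χ (-1) * χ v := by
    have : χ ((v⁻¹ : (ZMod q)ˣ) : ZMod q) = χ v := by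
      conv_rhs => rw [← hχ.inv, MulChar.inv_apply, Ring.inverse_unit]
    rw [Units.val_neg, neg_eq_neg_one_mul, map_mul, this]
  rw [e1, mul_assoc]
  congr 2
  set u : ZMod q := ((-v⁻¹ : (ZMod q)ˣ) : ZMod q) with hu
  have h' : (((u.val : ℤ) * ((v : ZMod q).val : ℤ) + 1 : ℤ) : ZMod q) = 0 := by
    push_cast
    simp [hu]
  obtain ⟨k, hk⟩ := (ZMod.intCast_zmod_eq_zero_iff_dvd _ _).1 h'
  rw [← h.modular u.val (-k) q (-((v : ZMod q).val : ℤ)) (by linarith)
    (z + ((v : ZMod q).val : ℂ) / q) (by simpa [-ZMod.natCast_val] using hz)]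
  congr 1
  have hk' : (u.val : ℂ) * ((v : ZMod q).val : ℂ) + 1 = q * k := by exact_mod_cast hk
  push_cast
  have : (q : ℂ) * (z + ((v : ZMod q).val : ℂ) / q) + -((v : ZMod q).val : ℂ) = q * z := by
    field_simp; ring
  rw [this]
  field_simp
  linear_combination -hk'

theorem tw_smooth {U : ℂ → ℂ} (hU : ContDiffOn ℝ ∞ U {z | 0 < z.im}) {q : ℕ} [NeZero q]
    (χ : DirichletCharacter ℂ q) : ContDiffOn ℝ ∞ (tw χ U) {z | 0 < z.im} :=
  ContDiffOn.sum fun u _ => contDiffOn_const.mul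
    (hU.comp (contDiff_id.add contDiff_const).contDiffOn fun z hz => by simpa [-ZMod.natCast_val] using hz)

theorem gauss_ne {q : ℕ} [NeZero q] {χ : DirichletCharacter ℂ q} (hχ : χ.IsPrimitive) :
    gaussSum χ ZMod.stdAddChar ≠ 0 := by
  intro h
  have h1 : ZMod.dft (χ : ZMod q → ℂ) = 0 := by
    funext k
    rw [hχ.fourierTransform_eq_inv_mul_gaussSum, h, mul_zero]; rfl
  have h2 := congrFun ((LinearEquiv.map_eq_zero_iff _).1 h1) 1
  simp at h2

theorem tw_series {U : ℂ → ℂ} {c : ℤ → ℂ} {y : ℝ}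
    (hs : ∀ x : ℝ, HasSum (fun n : ℤ => c n * ee n x) (U (x + y * I))) {q : ℕ} [NeZero q]
    {χ : DirichletCharacter ℂ q} (hχ : χ.IsPrimitive) (hχ2 : χ.IsQuadratic) (x : ℝ) :
    HasSum (fun n : ℤ => gaussSum χ ZMod.stdAddChar * χ n * c n * ee n x)
      (tw χ U (x + y * I)) := by
  have := hasSum_sum (s := Finset.univ) fun (u : ZMod q) _ =>
    (hs (x + (u.val : ℝ) / q)).mul_left (χ u)
  convert! this using 1
  · funext n
    have hg := gaussSum_mulShift_of_isPrimitive ZMod.stdAddChar hχ (n : ZMod q)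
    rw [hχ2.inv] at hg
    rw [mul_comm (gaussSum _ _), ← hg, gaussSum, Finset.sum_mul, Finset.sum_mul]
    refine Finset.sum_congr rfl fun u _ => ?_
    have e : ZMod.stdAddChar.mulShift (n : ZMod q) u = ee n ((u.val : ℝ) / q) := by
      rw [AddChar.mulShift_apply]
      have : (n : ZMod q) * u = ((n * (u.val : ℤ) : ℤ) : ZMod q) := by simp
      rw [this, ZMod.stdAddChar_coe, ee]
      congr 1; push_cast; ring
    rw [e, ee_add]; ring
  · refine Finset.sum_congr rfl fun u _ => ?_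
    congr 2; push_cast; ring

theorem gamma_inv {w ν : ℂ} (h : |ν.re| < w.re) :
    (2 * (π : ℂ) ^ w * ((Gamma ((w + ν) / 2))⁻¹ * (Gamma ((w - ν) / 2))⁻¹))
      * ((π : ℂ) ^ (-w) / 2 * (Gamma ((w + ν) / 2) * Gamma ((w - ν) / 2))) = 1 := by
  have h' := abs_lt.1 h
  have g1 : Gamma ((w + ν) / 2) ≠ 0 := Gamma_ne_zero_of_re_pos (by simp; linarith)
  have g2 : Gamma ((w - ν) / 2) ≠ 0 := Gamma_ne_zero_of_re_pos (by simp; linarith)
  have g3 : (π : ℂ) ^ w ≠ 0 := by rw [Ne, cpow_eq_zero_iff]; simp [Real.pi_pos.ne']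
  rw [cpow_neg]
  field_simp

theorem gamma_diff (c ν : ℂ) : Differentiable ℂ fun s : ℂ =>
    2 * (π : ℂ) ^ (s + c) * ((Gamma ((s + c + ν) / 2))⁻¹ * (Gamma ((s + c - ν) / 2))⁻¹) :=
  ((differentiable_id.add_const c).const_cpow (Or.inl (ofReal_ne_zero.2 Real.pi_pos.ne'))
    |>.const_mul 2).mul
    ((differentiable_one_div_Gamma.comp (by fun_prop)).mul
      (differentiable_one_div_Gamma.comp (by fun_prop)))

theorem exists_entire {U : ℂ → ℂ} {ev : ℂ} {lam : ℕ → ℂ} (h : IsHeckeMaass U ev lam)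
    {ν : ℂ} {a : ℤ → ℂ} {A : ℝ} (h0 : a 0 = 0) (hA : ∀ n, ‖a n‖ ≤ A)
    (ha : ∀ n : ℤ, ∀ y > 0, cf U n y = a n * wW ν (|(n : ℝ)| * y)) (hodd : ∀ n, a (-n) = -a n)
    {q : ℕ} [NeZero q] {χ : DirichletCharacter ℂ q} (hχ : χ.IsPrimitive) (hχ2 : χ.IsQuadratic) :
    ∃ (L : ℂ → ℂ) (σ : ℝ), Differentiable ℂ L ∧ L 0 = 0 ∧ ∀ s : ℂ, σ < s.re →
      HasSum (fun n : ℕ => χ n * a n * (n : ℂ) ^ (-s)) (L s) := by
  set τ := gaussSum χ ZMod.stdAddChar with hτ
  have hτ0 : τ ≠ 0 := gauss_ne hχ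
  have hq : (0 : ℝ) < q := Nat.cast_pos.2 (NeZero.pos q)
  have hqc : (q : ℂ) ≠ 0 := Nat.cast_ne_zero.2 (NeZero.ne q)
  have hser := fun {y : ℝ} (hy : 0 < y) => tw_series (h.expansion h0 hA ha · hy) hχ hχ2
  have hb : ∀ n : ℤ, ‖χ n * a n‖ ≤ A := fun n => by
    rw [norm_mul]
    exact (mul_le_of_le_one_left (norm_nonneg _) (χ.norm_le_one _)).trans (hA n)
  have hb' : ∀ n : ℕ, ‖χ n * a n‖ ≤ A := fun n => by simpa using hb n
  obtain ⟨C, -, hC⟩ := wW_decay ν one_pos
  have hsm := tw_smooth h.smooth χ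
  have hpt : ∀ y : ℝ, 0 < y → -((q : ℂ) ^ 2 * (y * I))⁻¹ = (((q : ℝ) ^ 2)⁻¹ * y⁻¹ : ℝ) * I := by
    intro y hy
    have : (y : ℂ) ≠ 0 := ofReal_ne_zero.2 hy.ne'
    push_cast
    field_simp
    simp
  have hIc : ∀ {V : ℂ → ℂ}, ContinuousOn V {z | 0 < z.im} →
      ContinuousOn (fun y : ℝ => V (y * I)) (Ioi 0) := fun hV =>
    hV.comp (by fun_prop) fun y hy => by simpa using hy
  rcases χ.even_or_odd with he | ho
  · refine And.elim (fun d H => ?_) <| mellin_series (b := fun n : ℕ => χ n * a n) (by simp [h0]) hb'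
      (Ψ := fun y : ℝ => (y : ℂ) * wW ν y) (fun y hy => (hC y hy).2) (σ := |ν.re|)
      (fun s hs => wW_mellin' (by linarith))
      (g := fun y : ℝ => (4 * π * I * τ)⁻¹ * (y * dU 1 (tw χ U) (y * I)))
      (continuousOn_const.mul (continuous_ofReal.continuousOn.mul
        (hIc (dU_smooth hsm 1).continuousOn)))
      (fun y hy => ?_) (Q := ((q : ℝ) ^ 2)⁻¹) (by positivity) (fun y hy => ?_)
    · obtain ⟨z, hs⟩ := H
      refine ⟨fun s => _ * mellin _ s, max |ν.re| 1, (gamma_diff (3 / 2) ν).mul d,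
        by simp only [z, mul_zero], fun s hs' => ?_⟩
      have hg := gamma_inv (w := s + 3 / 2) (ν := ν) (by
        have := (le_max_left _ _).trans_lt hs'
        simp; linarith)
      refine ((hs s hs').mul_left _).congr_fun fun n => ?_
      rw [mul_left_comm, hg, mul_one]
    · obtain ⟨u, hu, hbd⟩ := coeff_bound ν (a := fun n => χ n * a n) (by simp [h0]) hb hy
      have hyc : (y : ℂ) ≠ 0 := ofReal_ne_zero.2 hy.ne'
      have hbd' : ∀ (n : ℤ) (x : ℝ), ‖τ * χ n * (a n * wW ν (|(n : ℝ)| * y))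
          * (2 * π * I * n * ee n x)‖ ≤ ‖τ‖ * (2 * π) / y * u n := by
        intro n x
        have := (hbd n).2
        simp only [norm_mul, norm_ee, norm_real, norm_I, Complex.norm_ofNat, norm_intCast,
          Real.norm_eq_abs, abs_of_pos hy, abs_of_pos Real.pi_pos, abs_abs] at this ⊢
        rw [div_mul_eq_mul_div, le_div_iff₀ hy]
        calc _ = ‖τ‖ * (2 * π) * (‖χ n‖ * ‖a n‖ * (|(n : ℝ)| * y * ‖wW ν (|(n : ℝ)| * y)‖)) := by
              ring
          _ ≤ _ := by gcongr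
      have hd := hasDerivAt_tsum (hu.mul_left (‖τ‖ * (2 * π) / y))
        (g := fun (n : ℤ) (x : ℝ) => τ * χ n * (a n * wW ν (|(n : ℝ)| * y)) * ee n x)
        (fun n x => (ee_deriv n x).const_mul _) hbd' (hser hy 0).summable 0
      have efun : (fun x : ℝ => ∑' n : ℤ, τ * χ n * (a n * wW ν (|(n : ℝ)| * y)) * ee n x)
          = fun x : ℝ => tw χ U (x + y * I) := funext fun x => (hser hy x).tsum_eq
      rw [efun] at hd
      have hd2 := dU_line hsm (y * I) 1 (t := 0) (by simpa using hy)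
      simp only [mul_one, add_comm ((y : ℂ) * I), ofReal_zero, zero_add] at hd2
      have hsum := (Summable.of_norm_bounded (hu.mul_left _) fun n => hbd' n 0).hasSum
      rw [← hd2.unique hd] at hsum
      have := (hsum.nat_add_neg.mul_left (y : ℂ)).mul_left (4 * π * I * τ)⁻¹
      have hπ : (π : ℂ) ≠ 0 := ofReal_ne_zero.2 Real.pi_pos.ne'
      convert! this using 1
      · funext n
        have e1 : χ ((-(n : ℤ) : ℤ) : ZMod q) = χ n := by
          rw [Int.cast_neg, he.eval_neg]; simp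
        rw [e1, hodd]
        simp only [ee, Int.cast_neg, abs_neg, Int.cast_natCast, Nat.abs_cast, ofReal_zero,
          mul_zero, Complex.exp_zero]
        push_cast
        field_simp
        ring
      · simp
    · have hyc : (y : ℂ) ≠ 0 := ofReal_ne_zero.2 hy.ne'
      have hw : 0 < ((q : ℝ) ^ 2)⁻¹ * y⁻¹ := by positivity
      have hd2 := dU_line hsm (y * I) 1 (t := 0) (by simpa using hy)
      have h1 : HasDerivAt (fun t : ℝ => -((q : ℂ) ^ 2 * (y * I + t * 1))⁻¹)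
          ((-(((q : ℝ) ^ 2)⁻¹ * y⁻¹ * y⁻¹) : ℝ) • (1 : ℂ)) 0 := by
        have t1 : HasDerivAt (fun t : ℝ => (q : ℂ) ^ 2 * (y * I + t * 1)) ((q : ℂ) ^ 2) 0 := by
          simpa using (((hasDerivAt_id (0 : ℝ)).ofReal_comp.mul_const (1 : ℂ)).const_add
            ((y : ℂ) * I)).const_mul ((q : ℂ) ^ 2)
        refine (t1.inv (by simp [hqc, hyc])).neg.congr_deriv ?_
        simp only [ofReal_zero, zero_mul, add_zero, real_smul, mul_pow, I_sq]
        push_cast
        field_simp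
      have h2 : HasFDerivAt (tw χ U) (fderiv ℝ (tw χ U) ((((q : ℝ) ^ 2)⁻¹ * y⁻¹ : ℝ) * I))
          (-((q : ℂ) ^ 2 * (y * I + (0 : ℝ) * 1))⁻¹) := by
        simp only [ofReal_zero, zero_mul, add_zero, hpt y hy]
        exact ((hsm.contDiffAt (isOpen_H.mem_nhds (by simpa [-ofReal_mul, -ofReal_inv] using hw)))
          |>.differentiableAt (by simp)).hasFDerivAt
      have h3 := h2.comp_hasDerivAt (0 : ℝ) h1
      have h4 : (tw χ U ∘ fun t : ℝ => -((q : ℂ) ^ 2 * (y * I + t * 1))⁻¹)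
          = fun t : ℝ => tw χ U (y * I + t * 1) := by
        funext t
        rw [Function.comp_apply, tw_fe h hχ2 (by simpa using hy), he, one_mul]
      rw [h4] at h3
      have h5 := hd2.unique h3
      rw [map_smul] at h5
      simp only [ofReal_zero, zero_mul, add_zero, real_smul] at h5
      rw [h5, dU]
      generalize fderiv ℝ (tw χ U) _ 1 = D
      push_cast
      field_simp
  · refine And.elim (fun d H => ?_) <| mellin_series (b := fun n : ℕ => χ n * a n) (by simp [h0]) hb'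
      (Ψ := wW ν) (fun y hy => (hC y hy).1) (σ := |ν.re|)
      (fun s hs => wW_mellin (by linarith))
      (g := fun y : ℝ => (2 * τ)⁻¹ * tw χ U (y * I))
      (continuousOn_const.mul (hIc hsm.continuousOn))
      (fun y hy => ?_) (Q := ((q : ℝ) ^ 2)⁻¹) (by positivity) (fun y hy => ?_)
    · obtain ⟨z, hs⟩ := H
      refine ⟨fun s => _ * mellin _ s, max |ν.re| 1, (gamma_diff (1 / 2) ν).mul d,
        by simp only [z, mul_zero], fun s hs' => ?_⟩
      have hg := gamma_inv (w := s + 1 / 2) (ν := ν) (by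
        have := (le_max_left _ _).trans_lt hs'
        simp; linarith)
      refine ((hs s hs').mul_left _).congr_fun fun n => ?_
      rw [mul_left_comm, hg, mul_one]
    · have := (hser hy 0).nat_add_neg.mul_left (2 * τ)⁻¹
      convert! this using 1
      · funext n
        have e1 : χ ((-(n : ℤ) : ℤ) : ZMod q) = -χ n := by
          rw [Int.cast_neg, ho.eval_neg]; simp
        rw [e1, hodd]
        simp only [ee, Int.cast_neg, abs_neg, Int.cast_natCast, Nat.abs_cast, ofReal_zero,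
          mul_zero, Complex.exp_zero]
        field_simp
        ring
      · simp [h0]
    · rw [← hpt y hy, tw_fe h hχ2 (by simpa using hy), ho]
      ring

theorem twist_vanishes {U : ℂ → ℂ} {ev : ℂ} {lam : ℕ → ℂ} (h : IsHeckeMaass U ev lam)
    (ho : IsOddForm U) {q : ℕ} [NeZero q] {χ : DirichletCharacter ℂ q} (hχ : χ.IsPrimitive)
    (hχ2 : χ.IsQuadratic) : ∃ L : ℂ → ℂ, IsTwistL lam (fun n => χ n) L ∧ L (1 / 2) = 0 := by
  obtain ⟨ν, hν⟩ := IsAlgClosed.exists_pow_nat_eq (1 / 4 - ev) two_pos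
  obtain ⟨a, A, h0, hA, ha⟩ := h.exists_coeff (ν := ν) (by rw [hν]; ring)
  obtain ⟨y₀, hy₀, hW⟩ := wW_ne ν
  have hodd : ∀ n, a (-n) = -a n := by
    intro n
    by_cases hn : n = 0
    · simp [hn, h0]
    have hN : 0 < |(n : ℝ)| := abs_pos.2 (by exact_mod_cast hn)
    have := cf_odd h.per ho n (div_pos hy₀ hN)
    rw [ha _ _ (div_pos hy₀ hN), ha _ _ (div_pos hy₀ hN), Int.cast_neg, abs_neg,
      mul_div_cancel₀ _ hN.ne', ← neg_mul] at this
    exact mul_right_cancel₀ hW this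
  have hr := h.coeff_hecke ha
  have h1 : a 1 ≠ 0 := by
    intro h1
    have hz := hecke_one_ne (r := fun n : ℕ => (√n : ℝ) * a n) hr (by simp [h1])
    have hz' : ∀ n : ℕ, a n = 0 := fun n => by
      rcases Nat.eq_zero_or_pos n with rfl | hn
      · simpa using h0
      · exact (mul_eq_zero.1 (hz n hn)).resolve_left
          (ofReal_ne_zero.2 (Real.sqrt_pos.2 (by exact_mod_cast hn)).ne')
    have hz'' : ∀ n : ℤ, a n = 0 := fun n => by
      obtain ⟨m, rfl | rfl⟩ := Int.eq_nat_or_neg n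
      · exact hz' m
      · rw [hodd, hz', neg_zero]
    obtain ⟨z, hz1, hz2⟩ := h.nonzero
    have := h.expansion h0 hA ha z.re hz1
    simp only [hz'', zero_mul, re_add_im] at this
    exact hz2 (this.unique hasSum_zero)
  obtain ⟨L, σ, hL, hL0, hs⟩ := exists_entire h h0 hA ha hodd hχ hχ2
  refine ⟨fun s => (a 1)⁻¹ * L (s - 1 / 2), ⟨(hL.comp (by fun_prop)).const_mul _, σ + 1 / 2,
    fun s hs' => ?_⟩, by simp [hL0]⟩
  have h2 : HasSum (fun n : ℕ => (a 1)⁻¹ * ((√n : ℝ) * a n) * χ n * (n : ℂ) ^ (-s))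
      ((a 1)⁻¹ * L (s - 1 / 2)) := by
    convert! (hs (s - 1 / 2) (by simp; linarith)).mul_left (a 1)⁻¹ using 1
    funext n
    rcases Nat.eq_zero_or_pos n with rfl | hn
    · simp [h0]
    · have hnc : (n : ℂ) ≠ 0 := by exact_mod_cast hn.ne'
      rw [neg_sub, sub_eq_add_neg, cpow_add _ _ hnc, Real.sqrt_eq_rpow, ofReal_cpow (by positivity)]
      push_cast; ring
  have := euler (r := fun n : ℕ => (a 1)⁻¹ * ((√n : ℝ) * a n)) (lam := lam) (η := fun n => χ n)
    (by simp [h1]) (by simp) (fun p n hp hn => by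
      have := hr p n hp hn
      rw [mul_left_comm, this, mul_add]
      split_ifs <;> simp) (by simp) (by simp) h2.summable
  rwa [h2.tsum_eq] at this

end Pool.Agent.H26Z.Mf
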