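import Pool.Agent.H26Z.MfSmooth
import Pool.Agent.H26Z.MfTwist

/-! Existence of an odd Hecke-Maass cusp form of level one. -/

set_option autoImplicit false

namespace Pool.Agent.H26Z.Mf

open Filter Topology MeasureTheory UpperHalfPlane
open scoped ContDiff MatrixGroups

theorem exists_odd_form : ∃ (U : ℂ → ℂ) (ev : ℂ) (lam : ℕ → ℂ),
    IsHeckeMaass U ev lam ∧ IsOddForm U := by
  obtain ⟨r, hr, hex⟩ := exists_radius
  have hc : 0 < Real.cosh (r / 2) - 1 := sub_pos.2 (Real.one_lt_cosh.2 (by positivity))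
  let B : ContDiffBump (1 : ℝ) := ⟨(Real.cosh (r / 2) - 1) / 2, Real.cosh (r / 2) - 1,
    by positivity, by linarith⟩
  have hκ : ContDiff ℝ ∞ (B : ℝ → ℝ) := B.contDiff
  have hz : ∀ u, Real.cosh (r / 2) < u → B u = 0 := fun u hu =>
    B.zero_of_le_dist (by
      rw [Real.dist_eq, abs_of_pos (by linarith)]
      change Real.cosh (r / 2) - 1 ≤ _
      linarith)
  obtain ⟨f₀, hf₀⟩ := hex (kerOf B hκ.continuous r hr hz) le_rfl (fun t => B.nonneg) (by
    change 0 < B (Real.cosh 0)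
    rw [Real.cosh_zero, B.one_of_mem_closedBall (Metric.mem_closedBall_self B.rIn_pos.le)]
    exact one_pos)
  obtain ⟨f, μ, μ', c, hf0, hμ, hT, hT', hH⟩ := exists_joint _
    (kerOf (Dk B) (Dk_cont hκ) r hr (Dk_zero hz)) f₀ hf₀
  set U : ℂ → ℂ := fun ζ => f.1 (ofComplex ζ) with hU
  have hUc : ∀ z : ℍ, U z = f.1 z := fun z => by simp only [hU, ofComplex_apply]
  have hrep : ∀ ζ : ℂ, 0 < ζ.im → U ζ = μ⁻¹ * ∫ w : ℍ, (B (uu ζ w) : ℂ) * f.1 w := by
    intro ζ hζ
    rw [← kerOf_T hκ.continuous hr hz f.1 hζ, hT, ← mul_assoc, inv_mul_cancel₀ hμ, one_mul]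
  have hmod : ∀ a b c d : ℤ, a * d - b * c = 1 → ∀ z : ℂ, 0 < z.im →
      U ((a * z + b) / (c * z + d)) = U z := by
    intro a b c d h z hz
    let γ : SL(2, ℤ) := ⟨!![a, b; c, d], by rw [Matrix.det_fin_two_of]; exact h⟩
    have e : (a * z + b) / (c * z + d) = ((γ • (⟨z, hz⟩ : ℍ) : ℍ) : ℂ) := by
      rw [coe_specialLinearGroup_apply]; simp [γ]
    rw [e, hUc, f.2.1, ← hUc]
  have hodd : IsOddForm U := fun z hz => by
    have := f.2.2 ⟨z, hz⟩
    rw [← hUc, ← hUc, coe_J_smul] at this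
    exact this
  refine ⟨U, μ⁻¹ * μ', fun p => ((√p : ℝ) : ℂ)⁻¹ * c p, ⟨?_, ?_, hmod, fun ζ hζ => ?_,
    ⟨‖f.1‖, fun z _ => f.1.norm_coe_le_norm _⟩, fun y hy => ?_, fun p hp z hz => ?_⟩, hodd⟩
  · exact (contDiffOn_const.mul (smooth_int hκ hr hz f.1.continuous)).congr hrep
  · by_contra h
    push Not at h
    exact hf0 (X_ext fun z => by rw [← hUc]; exact h z z.im_pos)
  · have e : ∀ v : ℂ, deriv (deriv fun t : ℝ => U (ζ + t * v)) 0
        = μ⁻¹ * deriv (deriv fun t : ℝ => ∫ w : ℍ, (B (uu (ζ + t * v) w) : ℂ) * f.1 w) 0 := by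
      intro v
      have h1 : (fun t : ℝ => U (ζ + t * v)) =ᶠ[𝓝 0]
          fun t : ℝ => μ⁻¹ * ∫ w : ℍ, (B (uu (ζ + t * v) w) : ℂ) * f.1 w := by
        have : ∀ᶠ t : ℝ in 𝓝 0, 0 < (ζ + t * v).im :=
          (isOpen_lt continuous_const (by fun_prop)).mem_nhds (by simpa using hζ)
        filter_upwards [this] with t ht using hrep _ ht
      rw [h1.deriv.deriv_eq, deriv_const_mul_field', deriv_const_mul_field]
    have e1 := e 1
    simp only [mul_one] at e1
    have h2 := laplace_int hκ hr hz f.1.continuous hζ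
    rw [← kerOf_T (Dk_cont hκ) hr (Dk_zero hz) f.1 hζ, hT'] at h2
    rw [hypLaplace, e1, e Complex.I, ← mul_add, mul_left_comm, h2, mul_assoc]
  · have := cf_odd (fun z hz => by simpa using hmod 1 1 0 1 (by simp) z hz) hodd 0 hy
    simp only [neg_zero, cf, ee, Int.cast_zero, mul_zero, zero_mul, Complex.exp_zero,
      one_mul] at this
    linear_combination this / 2
  · have hp' : (0 : ℝ) < p := by exact_mod_cast hp.pos
    have := hH p hp ⟨z, hz⟩
    simp only [hk, ← hUc, coe_gm hp' one_pos, coe_gm one_pos hp'] at this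
    rw [heckeOp, mul_assoc, ← this]
    simp

end Pool.Agent.H26Z.Mf
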