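import Pool.Agent.H26Z.MfODE
import Pool.Agent.H26Z.MfDefs

/-! Fourier expansion of Maass cusp forms. -/

set_option autoImplicit false

namespace Pool.Agent.H26Z.Mf

open Filter Topology MeasureTheory Set Complex
open scoped Real ContDiff

/-- The additive character. -/
noncomputable def ee (n : ℤ) (x : ℝ) : ℂ := cexp (2 * π * I * n * x)

theorem norm_ee (n : ℤ) (x : ℝ) : ‖ee n x‖ = 1 := by
  have : (2 * π * I * n * x : ℂ) = ((2 * π * n * x : ℝ) : ℂ) * I := by push_cast; ring
  rw [ee, this, norm_exp_ofReal_mul_I]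

theorem ee_cont (n : ℤ) : Continuous (ee n) := by unfold ee; fun_prop

theorem ee_add (n : ℤ) (x y : ℝ) : ee n (x + y) = ee n x * ee n y := by
  simp only [ee, ← Complex.exp_add]; congr 1; push_cast; ring

theorem ee_int (n m : ℤ) : ee n m = 1 := by
  have : (2 * π * I * n * (m : ℝ) : ℂ) = ((n * m : ℤ) : ℂ) * (2 * π * I) := by push_cast; ring
  rw [ee, this, exp_int_mul_two_pi_mul_I]

theorem ee_one (n : ℤ) : ee n 1 = 1 := by simpa using ee_int n 1

theorem ee_deriv (n : ℤ) (x : ℝ) : HasDerivAt (ee n) (2 * π * I * n * ee n x) x := by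
  have h1 : HasDerivAt (fun x : ℝ => (x : ℂ)) 1 x := by simpa using (hasDerivAt_id x).ofReal_comp
  exact ((h1.const_mul (2 * π * I * n : ℂ)).cexp).congr_deriv (by simp only [ee]; ring)

/-- The Fourier coefficient at height `y`. -/
noncomputable def cf (U : ℂ → ℂ) (n : ℤ) (y : ℝ) : ℂ :=
  ∫ x in (0 : ℝ)..1, ee (-n) x * U (x + y * I)

/-- Directional derivative. -/
noncomputable def dU (v : ℂ) (U : ℂ → ℂ) (z : ℂ) : ℂ := fderiv ℝ U z v

theorem isOpen_H : IsOpen {z : ℂ | 0 < z.im} := isOpen_lt continuous_const continuous_im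

theorem dU_smooth {U : ℂ → ℂ} (hU : ContDiffOn ℝ ∞ U {z | 0 < z.im}) (v : ℂ) :
    ContDiffOn ℝ ∞ (dU v U) {z | 0 < z.im} :=
  (hU.fderiv_of_isOpen isOpen_H (m := ∞) (by simp)).clm_apply contDiffOn_const

theorem dU_line {U : ℂ → ℂ} (hU : ContDiffOn ℝ ∞ U {z | 0 < z.im}) (z v : ℂ) {t : ℝ}
    (ht : 0 < (z + t * v).im) : HasDerivAt (fun t : ℝ => U (z + t * v)) (dU v U (z + t * v)) t := by
  have h1 : HasDerivAt (fun x : ℝ => z + (x : ℂ) * v) v t := by
    simpa using ((hasDerivAt_id t).ofReal_comp.mul_const v).const_add z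
  exact ((hU.contDiffAt (isOpen_H.mem_nhds ht)).differentiableAt (by simp)).hasFDerivAt
    |>.comp_hasDerivAt t h1

theorem dU_second {U : ℂ → ℂ} (hU : ContDiffOn ℝ ∞ U {z | 0 < z.im}) {z : ℂ} (hz : 0 < z.im)
    (v : ℂ) : deriv (deriv fun t : ℝ => U (z + t * v)) 0 = dU v (dU v U) z := by
  have e : deriv (fun t : ℝ => U (z + t * v)) =ᶠ[𝓝 0] fun t : ℝ => dU v U (z + t * v) := by
    have : ∀ᶠ t : ℝ in 𝓝 0, 0 < (z + t * v).im :=
      (isOpen_lt continuous_const (by fun_prop)).mem_nhds (by simpa using hz)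
    filter_upwards [this] with t ht using (dU_line hU z v ht).deriv
  rw [e.deriv_eq, (dU_line (dU_smooth hU v) z v (t := 0) (by simpa using hz)).deriv]
  simp

theorem line_cont {U : ℂ → ℂ} (hU : ContinuousOn U {z | 0 < z.im}) {y : ℝ} (hy : 0 < y) :
    Continuous fun x : ℝ => U (x + y * I) :=
  hU.comp_continuous (by fun_prop) fun x => by simpa using hy

theorem cf_deriv {U : ℂ → ℂ} (hU : ContDiffOn ℝ ∞ U {z | 0 < z.im}) (n : ℤ) {y : ℝ}
    (hy : 0 < y) : HasDerivAt (cf U n) (cf (dU I U) n y) y := by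
  have hV := (dU_smooth hU I).continuousOn
  have hK : IsCompact ((fun p : ℝ × ℝ => (p.1 : ℂ) + p.2 * I) '' (Icc 0 1 ×ˢ Icc (y / 2) (2 * y))) :=
    (isCompact_Icc.prod isCompact_Icc).image (by fun_prop)
  obtain ⟨C, hC⟩ := hK.exists_bound_of_continuousOn (hV.mono (by
    rintro _ ⟨p, hp, rfl⟩
    simpa using lt_of_lt_of_le (by linarith) hp.2.1))
  refine (intervalIntegral.hasDerivAt_integral_of_dominated_loc_of_deriv_le
    (F := fun y x : ℝ => ee (-n) x * U (x + y * I))
    (F' := fun y x : ℝ => ee (-n) x * dU I U (x + y * I)) (bound := fun _ => C)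
    (s := Icc (y / 2) (2 * y)) (Icc_mem_nhds (by linarith) (by linarith)) ?_ ?_ ?_ ?_
    intervalIntegrable_const ?_).2
  · filter_upwards [lt_mem_nhds hy] with t ht using
      ((ee_cont _).mul (line_cont hU.continuousOn ht)).aestronglyMeasurable
  · exact ((ee_cont _).mul (line_cont hU.continuousOn hy)).intervalIntegrable _ _
  · exact ((ee_cont _).mul (line_cont hV hy)).aestronglyMeasurable
  · refine Eventually.of_forall fun x hx t ht => ?_
    rw [uIoc_of_le zero_le_one] at hx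
    rw [norm_mul, norm_ee, one_mul]
    exact hC _ ⟨(x, t), ⟨Ioc_subset_Icc_self hx, ht⟩, rfl⟩
  · refine Eventually.of_forall fun x _ t ht => ?_
    exact (dU_line hU x I (by simpa using lt_of_lt_of_le (by linarith) ht.1)).const_mul _

theorem dU_per {U : ℂ → ℂ} (hp : ∀ z : ℂ, 0 < z.im → U (z + 1) = U z) (v : ℂ) :
    ∀ z : ℂ, 0 < z.im → dU v U (z + 1) = dU v U z := by
  intro z hz
  have e : (fun w => U (w + 1)) =ᶠ[𝓝 z] U := by
    filter_upwards [isOpen_H.mem_nhds hz] with w hw using hp w hw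
  rw [dU, dU, ← e.fderiv_eq, fderiv_comp_add_right]

theorem cf_dx {U : ℂ → ℂ} (hU : ContDiffOn ℝ ∞ U {z | 0 < z.im})
    (hp : ∀ z : ℂ, 0 < z.im → U (z + 1) = U z) (n : ℤ) {y : ℝ} (hy : 0 < y) :
    cf (dU 1 U) n y = 2 * π * I * n * cf U n y := by
  have key := intervalIntegral.integral_mul_deriv_eq_deriv_mul (a := 0) (b := 1)
    (u := ee (-n)) (v := fun x : ℝ => U (x + y * I))
    (u' := fun x => 2 * π * I * (-n : ℤ) * ee (-n) x) (v' := fun x : ℝ => dU 1 U (x + y * I))
    (fun x _ => ee_deriv _ x) (fun x _ => by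
      simpa [add_comm] using dU_line hU (y * I) 1 (t := x) (by simpa using hy))
    ((continuous_const.mul (ee_cont _)).intervalIntegrable _ _)
    ((line_cont (dU_smooth hU 1).continuousOn hy).intervalIntegrable _ _)
  have e := hp (y * I) (by simpa using hy)
  rw [cf, key, cf, ← intervalIntegral.integral_const_mul, ee_one]
  simp only [ofReal_one, ofReal_zero, zero_add, add_comm (1 : ℂ), e, ee, mul_zero, Complex.exp_zero,
    sub_self, zero_sub, ← intervalIntegral.integral_neg]
  congr 1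
  funext x
  push_cast; ring

theorem hasSum_fourier {g : ℝ → ℂ} (hg : Continuous g) (hp : Function.Periodic g 1)
    (hs : Summable fun n : ℤ => ∫ x in (0 : ℝ)..1, ee (-n) x * g x) (x : ℝ) :
    HasSum (fun n : ℤ => (∫ x in (0 : ℝ)..1, ee (-n) x * g x) * ee n x) (g x) := by
  have : Fact ((0 : ℝ) < 1) := ⟨one_pos⟩
  let G : C(AddCircle (1 : ℝ), ℂ) := ⟨hp.lift, continuous_coinduced_dom.mpr hg⟩
  have e1 : ∀ (n : ℤ) (x : ℝ), fourier n (x : AddCircle (1 : ℝ)) = ee n x := by
    intro n x; rw [fourier_coe_apply, ee]; simp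
  have e2 : ∀ n, fourierCoeff G n = ∫ x in (0 : ℝ)..1, ee (-n) x * g x := by
    intro n
    rw [fourierCoeff_eq_intervalIntegral _ _ 0]
    simp only [e1, div_one, one_smul, zero_add, smul_eq_mul]
    rfl
  have := has_pointwise_sum_fourier_series_of_summable (f := G) (by
    rw [show fourierCoeff G = _ from funext e2]; exact hs) (x : AddCircle (1 : ℝ))
  simp only [e1, e2, smul_eq_mul] at this
  exact this

theorem cf_up {U : ℂ → ℂ} (hU : ContinuousOn U {z | 0 < z.im})
    (hp : ∀ z : ℂ, 0 < z.im → U (z + 1) = U z) {p : ℕ} (hp0 : 0 < p) (n : ℤ) {y : ℝ}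
    (hy : 0 < y) :
    cf (fun z => U (p * z)) n y = if (p : ℤ) ∣ n then cf U (n / p) (p * y) else 0 := by
  have hp' : (0 : ℝ) < p := by exact_mod_cast hp0
  have hpc : (p : ℂ) ≠ 0 := by exact_mod_cast hp0.ne'
  set g : ℝ → ℂ := fun t => U (t + (p * y : ℝ) * I) with hg
  have hgc : Continuous g := line_cont hU (by positivity)
  have hgp : Function.Periodic g 1 := fun t => by
    simp only [hg]
    rw [← hp (t + (p * y : ℝ) * I) (by simp; positivity)]
    congr 1; push_cast; ring
  have e : ∀ x : ℝ, U (p * (x + y * I)) = g (p * x) := fun x => by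
    simp only [hg]; congr 1; push_cast; ring
  simp only [cf, e]
  split_ifs with h
  · obtain ⟨m, rfl⟩ := h
    rw [Int.mul_ediv_cancel_left _ (by exact_mod_cast hp0.ne')]
    have hper : Function.Periodic (fun t => ee (-m) t * g t) 1 := fun t => by
      simp only [ee_add, ee_one, mul_one, hgp t]
    have e2 : ∀ x : ℝ, ee (-(p * m)) x = ee (-m) (p * x) := fun x => by
      simp only [ee]; congr 1; push_cast; ring
    simp only [e2]
    have := hper.intervalIntegral_add_zsmul_eq (p : ℤ) 0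
      fun a b => ((ee_cont _).mul hgc).intervalIntegrable a b
    rw [intervalIntegral.integral_comp_mul_left (fun t => ee (-m) t * g t) hp'.ne']
    simp only [zero_add, zsmul_eq_mul, Int.cast_natCast, mul_one, mul_zero] at this ⊢
    rw [this, real_smul, ← mul_assoc]
    have : ((p : ℝ)⁻¹ : ℝ) * (p : ℂ) = 1 := by push_cast; field_simp
    rw [this, one_mul]
  · have hper : Function.Periodic (fun t => ee (-n) t * g (p * t)) 1 := fun t => by
      have := (hgp.nat_mul p) (p * t)
      simp only [ee_add, ee_one, mul_one, mul_add] at this ⊢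
      rw [this]
    have h1 := hper.intervalIntegral_add_eq (1 / p) 0
    rw [← zero_add (1 / p : ℝ), zero_add (1 : ℝ), add_right_comm, zero_add (1 : ℝ),
      ← intervalIntegral.integral_comp_add_right (fun t => ee (-n) t * g (p * t))] at h1
    have e3 : ∀ x : ℝ, ee (-n) (x + 1 / p) * g (p * (x + 1 / p))
        = ee (-n) (1 / p) * (ee (-n) x * g (p * x)) := fun x => by
      rw [ee_add, mul_add, mul_one_div_cancel hp'.ne', hgp]; ring
    simp only [e3, intervalIntegral.integral_const_mul] at h1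
    by_contra hne
    have h2 : ee (-n) (1 / p) = 1 := by
      exact mul_right_cancel₀ hne (h1.trans (one_mul _).symm)
    obtain ⟨k, hk⟩ := Complex.exp_eq_one_iff.1 h2
    apply h
    refine ⟨-k, ?_⟩
    have hπ : (2 * π * I : ℂ) ≠ 0 := two_pi_I_ne_zero
    have : (n : ℂ) = p * (-k) := by
      push_cast at hk
      field_simp at hk
      linear_combination -hk
    exact_mod_cast this

theorem cf_down {U : ℂ → ℂ} (hU : ContinuousOn U {z | 0 < z.im}) {p : ℕ} (hp0 : 0 < p) (n : ℤ)
    {y : ℝ} (hy : 0 < y) :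
    ∑ b ∈ Finset.range p, cf (fun z => U ((z + b) / p)) n y = p * cf U (n * p) (y / p) := by
  have hp' : (0 : ℝ) < p := by exact_mod_cast hp0
  have hpc : (p : ℂ) ≠ 0 := by exact_mod_cast hp0.ne'
  set k : ℝ → ℂ := fun t => ee (-(n * p)) t * U (t + (y / p : ℝ) * I) with hk
  have hkc : Continuous k := (ee_cont _).mul (line_cont hU (by positivity))
  have e : ∀ b : ℕ, cf (fun z => U ((z + b) / p)) n y = ∫ x in (b : ℝ)..(b + 1 : ℕ), k (x / p) := by
    intro b
    have := intervalIntegral.integral_comp_add_right (a := 0) (b := 1) (fun x => k (x / p)) b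
    rw [zero_add, add_comm] at this
    rw [Nat.cast_succ, ← this, cf]
    congr 1
    funext x
    simp only [hk]
    congr 1
    · have h1 := ee_int (-n) b
      rw [Int.cast_natCast] at h1
      rw [← mul_one (ee (-n) x), ← h1, ← ee_add]
      simp only [ee]; congr 1; push_cast; field_simp
    · congr 1; push_cast; field_simp; ring
  simp only [e]
  rw [intervalIntegral.sum_integral_adjacent_intervals (a := fun b : ℕ => (b : ℝ))
    (f := fun x => k (x / p)) fun b _ => (hkc.comp (continuous_id.div_const _)).intervalIntegrable _ _,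
    intervalIntegral.integral_comp_div k hp'.ne']
  simp [cf, hk, hp'.ne']

theorem cf_odd {U : ℂ → ℂ} (hp : ∀ z : ℂ, 0 < z.im → U (z + 1) = U z) (ho : IsOddForm U) (n : ℤ)
    {y : ℝ} (hy : 0 < y) : cf U (-n) y = -cf U n y := by
  have := intervalIntegral.integral_comp_sub_left (a := 0) (b := 1)
    (fun x : ℝ => ee (- -n) x * U (x + y * I)) 1
  rw [sub_self, sub_zero] at this
  rw [cf, ← this, cf, ← intervalIntegral.integral_neg]
  congr 1
  funext x
  have h1 := ho (x + y * I) (by simpa using hy)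
  have h2 := hp (-(starRingEnd ℂ (x + y * I))) (by simpa using hy)
  have e : (((1 - x : ℝ) : ℂ) + y * I) = -(starRingEnd ℂ (x + y * I)) + 1 := by
    simp; ring
  rw [e, h2, h1, sub_eq_add_neg, ee_add, ee_one]
  simp [ee]

theorem IsHeckeMaass.per {U : ℂ → ℂ} {ev : ℂ} {lam : ℕ → ℂ} (h : IsHeckeMaass U ev lam) :
    ∀ z : ℂ, 0 < z.im → U (z + 1) = U z := fun z hz => by
  simpa using h.modular 1 1 0 1 (by simp) z hz

theorem IsHeckeMaass.cf_ode {U : ℂ → ℂ} {ev : ℂ} {lam : ℕ → ℂ} (h : IsHeckeMaass U ev lam)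
    (n : ℤ) {y : ℝ} (hy : 0 < y) :
    cf (dU I (dU I U)) n y = (4 * π ^ 2 * n ^ 2 - ev / y ^ 2) * cf U n y := by
  have hyc : (y : ℂ) ≠ 0 := ofReal_ne_zero.2 hy.ne'
  have e1 := cf_dx (dU_smooth h.smooth 1) (dU_per h.per 1) n hy
  rw [cf_dx h.smooth h.per n hy] at e1
  have e2 : cf (dU I (dU I U)) n y = -(ev / y ^ 2) * cf U n y - cf (dU 1 (dU 1 U)) n y := by
    rw [cf, cf, cf, ← intervalIntegral.integral_const_mul, ← intervalIntegral.integral_sub
      (f := fun x : ℝ => -(ev / y ^ 2) * (ee (-n) x * U (x + y * I)))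
      (g := fun x : ℝ => ee (-n) x * dU 1 (dU 1 U) (x + y * I))
      ((continuous_const.mul ((ee_cont _).mul
        (line_cont h.smooth.continuousOn hy))).intervalIntegrable _ _)
      (((ee_cont _).mul (line_cont (dU_smooth (dU_smooth h.smooth 1) 1).continuousOn
        hy)).intervalIntegrable _ _)]
    congr 1
    funext x
    have hz : 0 < ((x : ℂ) + y * I).im := by simpa using hy
    have h1 := h.laplace _ hz
    have h2 := dU_second h.smooth hz 1
    simp only [mul_one] at h2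
    rw [hypLaplace, h2, dU_second h.smooth hz I] at h1
    simp only [add_im, ofReal_im, mul_im, ofReal_re, I_im, mul_one, I_re, mul_zero, add_zero,
      zero_add] at h1
    field_simp
    linear_combination (-ee (-n) x) * h1
  rw [e2, e1]
  linear_combination (-4 * π ^ 2 * n ^ 2 * cf U n y) * I_sq

theorem IsHeckeMaass.exists_coeff {U : ℂ → ℂ} {ev : ℂ} {lam : ℕ → ℂ} (h : IsHeckeMaass U ev lam)
    {ν : ℂ} (hν : ev = 1 / 4 - ν ^ 2) :
    ∃ (a : ℤ → ℂ) (A : ℝ), a 0 = 0 ∧ (∀ n, ‖a n‖ ≤ A) ∧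
      ∀ n : ℤ, ∀ y > 0, cf U n y = a n * wW ν (|(n : ℝ)| * y) := by
  obtain ⟨B, hB⟩ := h.bounded
  have hcB : ∀ n : ℤ, ∀ y > 0, ‖cf U n y‖ ≤ B := fun n y hy => by
    have := intervalIntegral.norm_integral_le_of_norm_le_const (a := 0) (b := 1) (C := B)
      (f := fun x : ℝ => ee (-n) x * U (x + y * I)) fun x _ => by
        rw [norm_mul, norm_ee, one_mul]; exact hB _ (by simpa using hy)
    simpa [cf] using this
  have key : ∀ n : ℤ, n ≠ 0 → ∃ a : ℂ, ∀ y > 0, cf U n y = a * wW ν (|(n : ℝ)| * y) := by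
    intro n hn
    have hN : 0 < |(n : ℝ)| := abs_pos.2 (by exact_mod_cast hn)
    have hNc : ((|(n : ℝ)| : ℝ) : ℂ) ≠ 0 := ofReal_ne_zero.2 hN.ne'
    have hN2 : (n : ℂ) ^ 2 = ((|(n : ℝ)| : ℝ) : ℂ) ^ 2 := by
      rw [← ofReal_pow, sq_abs]; simp
    generalize |(n : ℝ)| = N at hN hNc hN2 ⊢
    obtain ⟨a, ha⟩ := ode_unique ν (c := fun y => cf U n (y / N))
      (c1 := fun y => (1 / N : ℝ) • cf (dU I U) n (y / N)) (B := B)
      (fun y hy => by
        have := (cf_deriv h.smooth n (div_pos hy hN)).scomp y ((hasDerivAt_id y).div_const N)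
        exact this)
      (fun y hy => by
        have := ((cf_deriv (dU_smooth h.smooth I) n (div_pos hy hN)).scomp y
          ((hasDerivAt_id y).div_const N)).const_smul (1 / N : ℝ)
        refine this.congr_deriv ?_
        have hyc : (y : ℂ) ≠ 0 := ofReal_ne_zero.2 hy.ne'
        simp only [h.cf_ode n (div_pos hy hN), real_smul, hN2, ← hν]
        push_cast
        field_simp)
      (fun y hy => hcB n _ (div_pos hy hN))
    refine ⟨a, fun y hy => ?_⟩
    rw [← ha _ (mul_pos hN hy), mul_div_cancel_left₀ _ hN.ne']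
  choose! a ha using key
  obtain ⟨y₀, hy₀, hW⟩ := wW_ne ν
  have hB0 : 0 ≤ B := (norm_nonneg _).trans (hcB 0 1 one_pos)
  refine ⟨fun n => if n = 0 then 0 else a n, B / ‖wW ν y₀‖, by simp, fun n => ?_,
    fun n y hy => ?_⟩
  · beta_reduce
    split_ifs with hn
    · simp only [norm_zero]; positivity
    · have hN : 0 < |(n : ℝ)| := abs_pos.2 (by exact_mod_cast hn)
      have := hcB n _ (div_pos hy₀ hN)
      rw [ha n hn _ (div_pos hy₀ hN), mul_div_cancel₀ _ hN.ne', norm_mul] at this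
      rwa [le_div_iff₀ (norm_pos_iff.2 hW)]
  · beta_reduce
    split_ifs with hn
    · simpa [hn, cf, ee] using h.cuspidal y hy
    · exact ha n hn y hy

end Pool.Agent.H26Z.Mf
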