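import Pool.Agent.H26Z.MfSym

/-! Hecke operators on modular invariant functions. -/

set_option autoImplicit false

namespace Pool.Agent.H26Z.Mf

open Filter Topology MeasureTheory UpperHalfPlane Metric ModularGroup Finset
open scoped ENNReal NNReal MatrixGroups ComplexConjugate Modular

/-- Invariance under the modular group. -/
def Inv (f : ℍ → ℂ) : Prop := ∀ (γ : SL(2, ℤ)) (z : ℍ), f (γ • z) = f z

/-- Oddness under the reflection. -/
def Odd' (f : ℍ → ℂ) : Prop := ∀ z : ℍ, f (J • z) = -f z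

theorem Inv.eq_of {f : ℍ → ℂ} (hf : Inv f) (a b c d : ℤ) (h : a * d - b * c = 1) (z w : ℍ)
    (hw : (w : ℂ) * (c * z + d) = a * z + b) : f w = f z := by
  let γ : SL(2, ℤ) := ⟨!![a, b; c, d], by rw [Matrix.det_fin_two_of]; exact h⟩
  rw [← hf γ z]
  congr 1
  ext1
  have hne := denom_ne_zero (γ : GL (Fin 2) ℝ) z
  rw [ModularGroup.denom_apply] at hne
  rw [coe_specialLinearGroup_apply]
  simp only [γ, Matrix.of_apply, Matrix.cons_val', Matrix.cons_val_zero,
    Matrix.cons_val_one, Matrix.cons_val_fin_one, eq_intCast, Complex.ofReal_intCast] at hne ⊢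
  rw [eq_div_iff hne, hw]

theorem inv_of_ST {f : ℍ → ℂ} (hS : ∀ z, f (S • z) = f z) (hT : ∀ z, f (T • z) = f z) :
    Inv f := by
  intro γ
  have : γ ∈ Subgroup.closure {S, T} := by simp [SpecialLinearGroup.SL2Z_generators]
  induction this using Subgroup.closure_induction with
  | mem g hg => rcases hg with rfl | rfl <;> assumption
  | one => intro z; rw [one_smul]
  | mul g h _ _ hg hh => intro z; rw [mul_smul, hg, hh]
  | inv g _ hg => intro z; rw [← hg, smul_inv_smul]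

/-- The upper triangular matrix with rows `(a, b)`, `(0, d)`. -/
noncomputable def gm (a b d : ℝ) : GL (Fin 2) ℝ :=
  if h : a * d ≠ 0 then .mkOfDetNeZero !![a, b; 0, d] (by simpa [Matrix.det_fin_two_of] using h)
  else 1

theorem coe_gm {a d : ℝ} (ha : 0 < a) (hd : 0 < d) (b : ℝ) (z : ℍ) :
    ((gm a b d • z : ℍ) : ℂ) = (a * z + b) / d := by
  have h : a * d ≠ 0 := (mul_pos ha hd).ne'
  have hdet : 0 < (gm a b d).det.val := by
    simp [gm, ha.ne', hd.ne', Matrix.det_fin_two_of, mul_pos ha hd]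
  rw [coe_smul_of_det_pos hdet]
  simp [num, denom, gm, ha.ne', hd.ne']

theorem coe_S (z : ℍ) : ((S • z : ℍ) : ℂ) = -(z : ℂ)⁻¹ := by
  rw [modular_S_smul]; simp [inv_neg]

theorem coe_T (z : ℍ) : ((T • z : ℍ) : ℂ) = z + 1 := by
  rw [modular_T_smul]; simp [add_comm]

theorem gm_gm {a d a' d' : ℝ} (ha : 0 < a) (hd : 0 < d) (ha' : 0 < a') (hd' : 0 < d')
    (b b' : ℝ) (z : ℍ) :
    gm a b d • gm a' b' d' • z = gm (a * a') (a * b' + b * d') (d * d') • z := by
  ext1
  rw [coe_gm ha hd, coe_gm ha' hd', coe_gm (mul_pos ha ha') (mul_pos hd hd')]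
  have : (d : ℂ) ≠ 0 := by exact_mod_cast hd.ne'
  have : (d' : ℂ) ≠ 0 := by exact_mod_cast hd'.ne'
  push_cast
  field_simp
  ring

theorem Inv.gm_congr {f : ℍ → ℂ} (hf : Inv f) {a : ℝ} (ha : 0 < a) {q : ℕ} (hq : 0 < q)
    {b b' : ℤ} (h : (b : ZMod q) = b') (z : ℍ) :
    f (gm a b q • z) = f (gm a b' q • z) := by
  obtain ⟨k, hk⟩ := (ZMod.intCast_eq_intCast_iff_dvd_sub b' b q).1 h.symm
  have hq' : (0 : ℝ) < q := by exact_mod_cast hq
  refine hf.eq_of 1 k 0 1 (by simp) _ _ ?_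
  rw [coe_gm ha hq', coe_gm ha hq']
  have : (q : ℂ) ≠ 0 := by exact_mod_cast hq.ne'
  have hb : (b : ℂ) = b' + q * k := by exact_mod_cast (by linarith : b = b' + q * k)
  push_cast
  rw [hb]
  field_simp
  ring

theorem Inv.gm_S {f : ℍ → ℂ} (hf : Inv f) {q : ℕ} (hq : 0 < q) {u v : ℤ}
    (h : (u : ZMod q) * v = -1) (z : ℍ) :
    f (gm 1 u q • S • z) = f (gm 1 v q • z) := by
  have h' : ((u * v + 1 : ℤ) : ZMod q) = 0 := by push_cast; rw [h]; ring
  obtain ⟨k, hk⟩ := (ZMod.intCast_zmod_eq_zero_iff_dvd _ _).1 h'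
  have hq' : (0 : ℝ) < q := by exact_mod_cast hq
  refine hf.eq_of u (-k) q (-v) (by linarith) _ _ ?_
  rw [coe_gm one_pos hq', coe_gm one_pos hq', coe_S]
  have : (q : ℂ) ≠ 0 := by exact_mod_cast hq.ne'
  have hz := z.ne_zero
  have hk' : (u : ℂ) * v + 1 = q * k := by exact_mod_cast hk
  push_cast
  field_simp
  linear_combination (-(z : ℂ)) * hk'

theorem gm_J {a d : ℝ} (ha : 0 < a) (hd : 0 < d) (b : ℝ) (z : ℍ) :
    gm a b d • J • z = J • gm a (-b) d • z := by
  ext1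
  rw [coe_gm ha hd, coe_J_smul, coe_J_smul, coe_gm ha hd]
  simp only [map_div₀, map_add, map_mul, Complex.conj_ofReal]
  push_cast
  ring

theorem sum_range_zmod (q : ℕ) [NeZero q] (g : ℕ → ℂ) :
    ∑ b ∈ range q, g b = ∑ u : ZMod q, g u.val := by
  refine (Finset.sum_nbij' (fun u : ZMod q => u.val) (fun b : ℕ => (b : ZMod q)) ?_ ?_ ?_ ?_ ?_).symm
  · intro u _; simpa using ZMod.val_lt u
  · intro b _; simp
  · intro u _; simp
  · intro b hb; exact ZMod.val_cast_of_lt (by simpa using hb)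
  · intro u _; rfl

/-- The unnormalised Hecke operator. -/
noncomputable def hk (p : ℕ) (f : ℍ → ℂ) (z : ℍ) : ℂ :=
  f (gm p 0 1 • z) + ∑ b ∈ range p, f (gm 1 b p • z)

theorem Inv.sum_perm {f : ℍ → ℂ} (hf : Inv f) {a : ℝ} (ha : 0 < a) {q : ℕ} (hq : 0 < q)
    (σ : ZMod q ≃ ZMod q) (s : ℕ → ℤ) (hs : ∀ u : ZMod q, (s u.val : ZMod q) = σ u) (z : ℍ) :
    ∑ b ∈ range q, f (gm a (s b) q • z) = ∑ b ∈ range q, f (gm a b q • z) := by
  have : NeZero q := ⟨hq.ne'⟩
  rw [sum_range_zmod, sum_range_zmod, ← σ.sum_comp (fun u => f (gm a (u.val : ℕ) q • z))]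
  refine Finset.sum_congr rfl fun u _ => ?_
  have := hf.gm_congr ha hq (b := s u.val) (b' := ((σ u).val : ℕ)) (by simp [hs]) z
  simpa using this

theorem Inv.hk {f : ℍ → ℂ} (hf : Inv f) {p : ℕ} (hp : p.Prime) : Inv (hk p f) := by
  have hp0 := hp.pos
  have hp' : (0 : ℝ) < p := by exact_mod_cast hp0
  have hpc : (p : ℂ) ≠ 0 := by exact_mod_cast hp0.ne'
  have := Fact.mk hp
  refine inv_of_ST (fun z => ?_) (fun z => ?_)
  · have hz := z.ne_zero
    have e1 : f (gm p 0 1 • S • z) = f (gm 1 0 p • z) := by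
      refine hf.eq_of 0 (-1) 1 0 (by simp) _ _ ?_
      rw [coe_gm one_pos hp', coe_gm hp' one_pos, coe_S]
      push_cast; field_simp; ring
    have e2 : f (gm 1 0 p • S • z) = f (gm p 0 1 • z) := by
      refine hf.eq_of 0 (-1) 1 0 (by simp) _ _ ?_
      rw [coe_gm one_pos hp', coe_gm hp' one_pos, coe_S]
      push_cast; field_simp; ring
    unfold Mf.hk
    rw [sum_range_zmod, sum_range_zmod, ← ((Equiv.inv (ZMod p)).trans (Equiv.neg _)).sum_comp
      (fun u => f (gm 1 (u.val : ℕ) p • z)), ← Finset.add_sum_erase _ _ (mem_univ 0),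
      ← Finset.add_sum_erase _ _ (mem_univ 0)]
    simp only [ZMod.val_zero, Nat.cast_zero, Equiv.trans_apply, Equiv.inv_apply, Equiv.neg_apply,
      inv_zero, neg_zero, e1, e2]
    rw [← add_assoc, ← add_assoc, add_comm (f (gm 1 0 p • z))]
    congr 1
    refine Finset.sum_congr rfl fun u hu => ?_
    have hu0 : u ≠ 0 := (Finset.mem_erase.1 hu).1
    have := hf.gm_S hp0 (u := (u.val : ℕ)) (v := ((-u⁻¹).val : ℕ)) (by simp [hu0]) z
    simpa using this
  · unfold Mf.hk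
    congr 1
    · refine hf.eq_of 1 p 0 1 (by simp) _ _ ?_
      rw [coe_gm hp' one_pos, coe_gm hp' one_pos, coe_T]
      push_cast; ring
    · rw [← hf.sum_perm one_pos hp0 (Equiv.addRight 1) (fun b => b + 1) (by simp) z]
      refine Finset.sum_congr rfl fun b _ => ?_
      congr 1
      ext1
      rw [coe_gm one_pos hp', coe_gm one_pos hp', coe_T]
      push_cast; ring

theorem Odd'.hk {f : ℍ → ℂ} (hf : Inv f) (ho : Odd' f) {p : ℕ} (hp0 : 0 < p) : Odd' (hk p f) := by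
  have hp' : (0 : ℝ) < p := by exact_mod_cast hp0
  have : NeZero p := ⟨hp0.ne'⟩
  intro z
  unfold Mf.hk
  rw [gm_J hp' one_pos, ho, neg_zero, neg_add,
    ← hf.sum_perm one_pos hp0 (Equiv.neg _) (fun b => -b) (by simp) z, ← Finset.sum_neg_distrib]
  congr 1
  refine Finset.sum_congr rfl fun b _ => ?_
  rw [gm_J one_pos hp', ho]
  simp

theorem sum_range_mul' (p q : ℕ) (g : ℕ → ℂ) :
    ∑ a ∈ range p, ∑ b ∈ range q, g (a + p * b) = ∑ c ∈ range (q * p), g c := by
  rw [Finset.sum_comm, ← Fin.sum_univ_eq_sum_range (fun c => g c),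
    ← finProdFinEquiv.sum_comp, Fintype.sum_prod_type,
    ← Fin.sum_univ_eq_sum_range (fun b => ∑ a ∈ range p, g (a + p * b))]
  refine Finset.sum_congr rfl fun b _ => ?_
  rw [← Fin.sum_univ_eq_sum_range (fun a => g (a + p * b))]
  simp [finProdFinEquiv]

theorem Inv.hk_hk {f : ℍ → ℂ} (hf : Inv f) {p q : ℕ} (hp0 : 0 < p) (hq0 : 0 < q)
    (hpq : Nat.Coprime q p) (z : ℍ) :
    Mf.hk p (Mf.hk q f) z = f (gm (q * p) 0 1 • z) + ∑ b ∈ range q, f (gm p b q • z)
      + ∑ a ∈ range p, f (gm q a p • z) + ∑ c ∈ range (q * p), f (gm 1 c (q * p) • z) := by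
  have hp' : (0 : ℝ) < p := by exact_mod_cast hp0
  have hq' : (0 : ℝ) < q := by exact_mod_cast hq0
  have : NeZero p := ⟨hp0.ne'⟩
  unfold Mf.hk
  simp only [gm_gm hq' one_pos hp' one_pos, gm_gm one_pos hq' hp' one_pos,
    gm_gm hq' one_pos one_pos hp', gm_gm one_pos hq' one_pos hp', Finset.sum_add_distrib,
    mul_zero, zero_mul, add_zero, mul_one, one_mul, zero_add]
  rw [← sum_range_mul' p q (fun c => f (gm 1 c (q * p) • z)),
    ← hf.sum_perm hq' hp0 (ZMod.unitOfCoprime q hpq).mulLeft (fun a => q * a) (by simp) z]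
  simp only [add_assoc]
  push_cast
  simp only [mul_comm (p : ℝ)]

theorem Inv.hk_comm {f : ℍ → ℂ} (hf : Inv f) {p q : ℕ} (hp : p.Prime) (hq : q.Prime) (z : ℍ) :
    Mf.hk p (Mf.hk q f) z = Mf.hk q (Mf.hk p f) z := by
  by_cases h : p = q
  · rw [h]
  have hc := (Nat.coprime_primes hp hq).2 h
  rw [hf.hk_hk hp.pos hq.pos hc.symm, hf.hk_hk hq.pos hp.pos hc, mul_comm q p,
    mul_comm (q : ℝ) p]
  ring

theorem hk_cont {f : ℍ → ℂ} (hf : Continuous f) (p : ℕ) : Continuous (hk p f) :=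
  (hf.comp (continuous_const_smul _)).add
    (continuous_finsetSum _ fun _ _ => hf.comp (continuous_const_smul _))

theorem hk_bound {f : ℍ → ℂ} {B : ℝ} (hB : ∀ w, ‖f w‖ ≤ B) (p : ℕ) (z : ℍ) :
    ‖hk p f z‖ ≤ (p + 1) * B := by
  unfold hk
  refine (norm_add_le _ _).trans ?_
  have := norm_sum_le_of_le (range p) (f := fun b : ℕ => f (gm 1 b p • z)) (n := fun _ => B)
    fun b _ => hB _
  simp only [sum_const, card_range, nsmul_eq_mul] at this
  have := hB (gm p 0 1 • z)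
  linarith

theorem hk_T (k : Ker) {f : ℍ → ℂ} (hf : Continuous f) {B : ℝ} (hB : ∀ w, ‖f w‖ ≤ B) (p : ℕ)
    (z : ℍ) : hk p (k.T f) z = k.T (hk p f) z := by
  have hi : ∀ g : GL (Fin 2) ℝ, Integrable fun w => k.kf z w * f (g • w) := fun g =>
    k.integrable_mul z (hf.comp (continuous_const_smul g)).aestronglyMeasurable fun w => hB _
  unfold hk
  simp only [k.T_smul]
  unfold Ker.T
  simp only [mul_add, Finset.mul_sum]
  rw [integral_add (hi _) (integrable_finsetSum _ fun b _ => hi _),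
    integral_finsetSum _ fun b _ => hi _]

end Pool.Agent.H26Z.Mf
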