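import Pool.Agent.H26Z.MfDefs

/-! The Kronecker symbol of a fundamental discriminant is a primitive quadratic character. -/

set_option autoImplicit false

namespace Pool.Agent.H26Z.Mf

open scoped NumberTheorySymbols
open jacobiSym

theorem mk_char (q : ℕ) [NeZero q] (φ : ℕ → ℤ) (h1 : φ 1 = 1)
    (hm : ∀ m n, φ (m * n) = φ m * φ n) (hp : ∀ m n, m ≡ n [MOD q] → φ m = φ n)
    (h0 : ∀ n, ¬Nat.Coprime n q → φ n = 0) (ht : ∀ n, φ n = 0 ∨ φ n = 1 ∨ φ n = -1)
    (hprim : ∀ l : ℕ, l.Prime → l ∣ q → ∃ u : ℕ, u ≡ 1 [MOD q / l] ∧ φ u = -1) :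
    ∃ χ : DirichletCharacter ℂ q, χ.IsPrimitive ∧ χ.IsQuadratic ∧ ∀ n : ℕ, χ n = φ n := by
  have hv : ∀ n : ℕ, φ (n : ZMod q).val = φ n := fun n =>
    hp _ _ (by rw [ZMod.val_natCast]; exact Nat.mod_modEq n q)
  let χ : DirichletCharacter ℂ q :=
    { toFun := fun u => (φ u.val : ℂ)
      map_one' := by
        have := hv 1
        rw [Nat.cast_one, h1] at this
        simp [this]
      map_mul' := fun u v => by
        rw [ZMod.val_mul, hp _ _ (Nat.mod_modEq _ q), hm, Int.cast_mul]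
      map_nonunit' := fun u hu => by
        rw [h0 _ (fun h => hu (by
          rw [← ZMod.natCast_zmod_val u]; exact (ZMod.isUnit_iff_coprime _ _).2 h)), Int.cast_zero] }
  have hχ : ∀ n : ℕ, χ n = φ n := fun n => congrArg Int.cast (hv n)
  refine ⟨χ, ?_, fun u => ?_, hχ⟩
  · by_contra hne
    obtain ⟨k, hk⟩ := χ.conductor_dvd_level
    have hk1 : k ≠ 1 := by rintro rfl; exact hne (by rw [mul_one] at hk; exact hk.symm)
    obtain ⟨l, hl, j, rfl⟩ := Nat.exists_prime_and_dvd hk1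
    obtain ⟨u, hu, hφ⟩ := hprim l hl ⟨χ.conductor * j, hk.trans (by ring)⟩
    have hd : χ.conductor ∣ q / l := ⟨j, by
      rw [Nat.div_eq_iff_eq_mul_left hl.pos ⟨χ.conductor * j, hk.trans (by ring)⟩]
      exact hk.trans (by ring)⟩
    have hc : Nat.Coprime u q := by
      by_contra h
      rw [h0 u h] at hφ; omega
    have e := χ.primitiveCharacter_apply_of_isCoprime (a := u) (Nat.isCoprime_iff_coprime.2 hc)
    have e2 : (((u : ℤ)) : ZMod χ.conductor) = 1 := by
      have := (ZMod.natCast_eq_natCast_iff _ _ _).2 (hu.of_dvd hd)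
      simpa using this
    rw [e2, map_one, Int.cast_natCast, hχ, hφ] at e
    norm_num at e
  · change (φ u.val : ℂ) = 0 ∨ (φ u.val : ℂ) = 1 ∨ (φ u.val : ℂ) = -1
    rcases ht u.val with h | h | h <;> simp [h]

theorem exists_nonres {l : ℕ} (hl : l.Prime) (h2 : l ≠ 2) {n : ℕ} (hc : Nat.Coprime n l) :
    ∃ u : ℕ, u ≡ 1 [MOD n] ∧ J(u | l) = -1 := by
  have := Fact.mk hl
  obtain ⟨a, ha⟩ := FiniteField.exists_nonsquare (F := ZMod l) (by rwa [ZMod.ringChar_zmod_n])
  obtain ⟨u, h1, h3⟩ := Nat.chineseRemainder hc 1 a.val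
  refine ⟨u, h1, ZMod.nonsquare_iff_jacobiSym_eq_neg_one.2 ?_⟩
  have : ((u : ℤ) : ZMod l) = a := by
    rw [Int.cast_natCast, (ZMod.natCast_eq_natCast_iff _ _ _).2 h3, ZMod.natCast_zmod_val]
  rwa [this]

theorem kron_odd {D : ℤ} (h4 : D % 4 = 1) (hs : Squarefree D) :
    ∃ (q : ℕ) (_ : NeZero q) (χ : DirichletCharacter ℂ q), χ.IsPrimitive ∧ χ.IsQuadratic ∧
      ∀ p : ℕ, p.Prime → χ p = kron D p := by
  set q := D.natAbs with hq
  have hq0 : q ≠ 0 := by omega
  have hqo : Odd q := Nat.odd_iff.2 (by omega)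
  have hsq : Squarefree q := Int.squarefree_natAbs.2 hs
  have : NeZero q := ⟨hq0⟩
  obtain ⟨χ, h1, h2, h3⟩ := mk_char q (fun n => J(n | q)) (by simp) (fun m n => by
      rw [Nat.cast_mul, mul_left])
    (fun m n h => mod_left' (by exact_mod_cast h))
    (fun n h => eq_zero_iff_not_coprime.2 (by simpa using h)) (fun n => trichotomy _ _) (by
      rintro l hl ⟨k, hk⟩
      have hk0 : k ≠ 0 := by rintro rfl; exact hq0 (by simpa using hk)
      have hc : Nat.Coprime k l := (Nat.coprime_of_squarefree_mul (hk ▸ hsq)).symm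
      have hl2 : l ≠ 2 := by rintro rfl; omega
      obtain ⟨u, hu1, hu2⟩ := exists_nonres hl hl2 hc
      refine ⟨u, by rwa [hk, Nat.mul_div_cancel_left _ hl.pos], ?_⟩
      rw [hk, mul_right' _ hl.ne_zero hk0, hu2,
        mod_left' (a₂ := 1) (by exact_mod_cast hu1), one_left]; rfl)
  refine ⟨q, this, χ, h1, h2, fun p hp => ?_⟩
  rw [h3, kron]
  congr 1
  split_ifs with e1 e2 e3
  · omega
  · rw [e1, Nat.cast_ofNat, at_two hqo, ZMod.χ₈_nat_eq_if_mod_eight]
    split_ifs <;> omega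
  · rw [e1, Nat.cast_ofNat, at_two hqo, ZMod.χ₈_nat_eq_if_mod_eight]
    split_ifs <;> omega
  · have hpo : Odd p := hp.odd_of_ne_two e1
    have hp4 := Nat.odd_mod_four_iff.1 (Nat.odd_iff.1 hpo)
    rcases Int.natAbs_eq D with h | h
    · rw [h, ← hq, quadratic_reciprocity_one_mod_four (a := q) (by omega) hpo]
    · rw [h, ← hq, jacobiSym.neg _ hpo]
      rcases hp4 with h5 | h5
      · rw [ZMod.χ₄_nat_one_mod_four h5, one_mul, quadratic_reciprocity_one_mod_four h5 hqo]
      · rw [ZMod.χ₄_nat_three_mod_four h5,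
          quadratic_reciprocity_three_mod_four (a := p) (b := q) h5 (by omega)]
        ring

theorem kron_even {m : ℤ} (h4 : m % 4 = 2 ∨ m % 4 = 3) (hs : Squarefree m) :
    ∃ (q : ℕ) (_ : NeZero q) (χ : DirichletCharacter ℂ q), χ.IsPrimitive ∧ χ.IsQuadratic ∧
      ∀ p : ℕ, p.Prime → χ p = kron (4 * m) p := by
  set a := m.natAbs with ha
  have ha0 : a ≠ 0 := by omega
  have hsq : Squarefree a := Int.squarefree_natAbs.2 hs
  have : NeZero (4 * a) := ⟨by omega⟩
  have one : ∀ (c : ℤ) (u : ℕ), c ≠ 0 → u ≡ 1 [MOD 4 * c.natAbs] → J(c | u) = 1 := by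
    intro c u hc hu
    have h1 : u % 2 = 1 := hu.of_dvd ⟨2 * c.natAbs, by ring⟩
    rw [mod_right c (Nat.odd_iff.2 h1), hu, Nat.mod_eq_of_lt (by omega), one_right]
  obtain ⟨χ, h1, h2, h3⟩ := mk_char (4 * a) (fun n => if n % 2 = 1 then J(m | n) else 0) (by simp)
    (fun x y => by
      rcases Nat.mod_two_eq_zero_or_one x with hx | hx <;>
        rcases Nat.mod_two_eq_zero_or_one y with hy | hy <;> simp [Nat.mul_mod, hx, hy]
      exact mul_right' _ (by omega) (by omega))
    (fun x y h => by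
      have e : x % 2 = y % 2 := h.of_dvd ⟨2 * a, by ring⟩
      by_cases hx : x % 2 = 1
      · have hy : y % 2 = 1 := e ▸ hx
        rw [if_pos hx, if_pos hy, mod_right m (b := x) (Nat.odd_iff.2 hx),
          mod_right m (b := y) (Nat.odd_iff.2 hy), ← ha, h]
      · rw [if_neg hx, if_neg (e ▸ hx)])
    (fun n h => by
      split_ifs with hn
      · refine eq_zero_iff.2 ⟨by omega, fun hg => h ?_⟩
        refine Nat.Coprime.mul_right ?_ (Nat.Coprime.symm (by simpa [Int.gcd] using hg))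
        exact (Nat.coprime_two_right.2 (Nat.odd_iff.2 hn)).pow_right 2
      · rfl)
    (fun n => by
      split_ifs
      · exact trichotomy _ _
      · exact Or.inl rfl) (by
      intro l hl hd
      by_cases hl2 : l = 2
      · subst hl2
        have e : 4 * a / 2 = 2 * a := by omega
        refine ⟨1 + 2 * a, by rw [e]; simp [Nat.ModEq], ?_⟩
        rw [if_pos (by omega)]
        have huo : Odd (1 + 2 * a) := Nat.odd_iff.2 (by omega)
        rcases h4 with h4 | h4
        · obtain ⟨c, hc⟩ : ∃ c, m = 2 * c := ⟨m / 2, by omega⟩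
          rw [hc, mul_left, at_two huo, one c _ (by omega) (by
            have : a = 2 * c.natAbs := by omega
            rw [this, ← mul_assoc]; simp [Nat.ModEq]), ZMod.χ₈_nat_eq_if_mod_eight]
          split_ifs <;> omega
        · have hao : Odd a := Nat.odd_iff.2 (by omega)
          have e2 : J((1 + 2 * a : ℕ) | a) = 1 := by
            rw [mod_left' (a₂ := 1) (by push_cast; simp), one_left]
          rcases Int.natAbs_eq m with h | h
          · rw [h, ← ha, quadratic_reciprocity_three_mod_four (by omega) (by omega), e2]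
          · rw [h, ← ha, jacobiSym.neg _ huo, ZMod.χ₄_nat_three_mod_four (by omega),
              quadratic_reciprocity_one_mod_four (by omega) huo, e2]
            rfl
      · have hl4 : Nat.Coprime l 4 :=
          (Nat.coprime_two_right.2 (hl.odd_of_ne_two hl2)).pow_right 2
        have hda : l ∣ a := hl4.dvd_of_dvd_mul_left hd
        obtain ⟨c, hc⟩ : (l : ℤ) ∣ m := Int.natCast_dvd.2 hda
        have e : a = l * c.natAbs := by rw [ha, hc, Int.natAbs_mul]; simp
        have hc0 : c ≠ 0 := by rintro rfl; simp at e; exact ha0 e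
        have hco : Nat.Coprime (4 * c.natAbs) l :=
          Nat.Coprime.mul_left hl4.symm (Nat.coprime_of_squarefree_mul (e ▸ hsq)).symm
        obtain ⟨u, hu1, hu2⟩ := exists_nonres hl hl2 hco
        have hu4 : u % 4 = 1 := hu1.of_dvd ⟨c.natAbs, rfl⟩
        refine ⟨u, by rwa [e, mul_left_comm, Nat.mul_div_cancel_left _ hl.pos], ?_⟩
        rw [if_pos (by omega), hc, mul_left, one c u hc0 hu1, mul_one,
          quadratic_reciprocity_one_mod_four' (hl.odd_of_ne_two hl2) hu4, hu2])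
  refine ⟨4 * a, this, χ, h1, h2, fun p hp => ?_⟩
  rw [h3, kron]
  congr 1
  by_cases e1 : p = 2
  · simp [e1, Int.mul_emod]
  · have hpo : Odd p := hp.odd_of_ne_two e1
    rw [if_pos (Nat.odd_iff.1 hpo), if_neg e1, mul_left, at_four hpo, one_mul]

theorem IsFundDisc.exists_char {D : ℤ} (h : IsFundDisc D) :
    ∃ (q : ℕ) (_ : NeZero q) (χ : DirichletCharacter ℂ q), χ.IsPrimitive ∧ χ.IsQuadratic ∧
      ∀ p : ℕ, p.Prime → χ p = kron D p := by
  rcases h with ⟨h1, h2, -⟩ | ⟨m, rfl, h1, h2⟩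
  · exact kron_odd h1 h2
  · exact kron_even h1 h2

theorem IsTwistL.congr {lam η η' : ℕ → ℂ} {L : ℂ → ℂ} (h : IsTwistL lam η L)
    (e : ∀ p : ℕ, p.Prime → η p = η' p) : IsTwistL lam η' L := by
  obtain ⟨h1, σ, h2⟩ := h
  refine ⟨h1, σ, fun s hs => (h2 s hs).congr_fun fun p => ?_⟩
  simp only [eulerFactor, e p p.2]

theorem IsTwistL.unique {lam η : ℕ → ℂ} {L L' : ℂ → ℂ} (h : IsTwistL lam η L)
    (h' : IsTwistL lam η L') : L = L' := by
  obtain ⟨h1, σ, h2⟩ := h
  obtain ⟨h1', σ', h2'⟩ := h'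
  refine AnalyticOnNhd.eq_of_eventuallyEq (𝕜 := ℂ) (fun z _ => h1.analyticAt z)
    (fun z _ => h1'.analyticAt z) (z₀ := ((max σ σ' + 1 : ℝ) : ℂ)) ?_
  have : ∀ᶠ s : ℂ in nhds ((max σ σ' + 1 : ℝ) : ℂ), max σ σ' < s.re :=
    (isOpen_lt continuous_const Complex.continuous_re).mem_nhds (lt_add_one (max σ σ'))
  filter_upwards [this] with s hs using
    (h2 s ((le_max_left _ _).trans_lt hs)).unique (h2' s ((le_max_right _ _).trans_lt hs))

end Pool.Agent.H26Z.Mf
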