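import Pool.Agent.H26Z.MfFourier

/-! Mellin transforms of series with an odd functional equation, and Euler products. -/

set_option autoImplicit false

namespace Pool.Agent.H26Z.Mf

open Filter Topology MeasureTheory Set Complex Asymptotics
open scoped Real

theorem summable_exp_nat {y : ℝ} (hy : 0 < y) : Summable fun n : ℕ => Real.exp (-(n * y)) := by
  have := summable_geometric_of_lt_one (Real.exp_pos (-y)).le (Real.exp_lt_one_iff.2 (by linarith))
  refine this.congr fun n => ?_
  rw [← Real.exp_nat_mul]; congr 1; ring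

theorem mellin_series {b : ℕ → ℂ} {A : ℝ} (hb0 : b 0 = 0) (hb : ∀ n, ‖b n‖ ≤ A) {Ψ : ℝ → ℂ}
    {C : ℝ} (hC : ∀ y, 1 ≤ y → ‖Ψ y‖ ≤ C * Real.exp (-y)) {σ : ℝ} {γ : ℂ → ℂ}
    (hγ : ∀ s : ℂ, σ < s.re → HasMellin Ψ s (γ s)) {g : ℝ → ℂ} (hg : ContinuousOn g (Ioi 0))
    (hs : ∀ y > 0, HasSum (fun n : ℕ => b n * Ψ (n * y)) (g y)) {Q : ℝ} (hQ : 0 < Q)
    (hfe : ∀ y > 0, g (Q * y⁻¹) = -g y) :
    Differentiable ℂ (mellin g) ∧ mellin g 0 = 0 ∧ ∀ s : ℂ, max σ 1 < s.re →
      HasSum (fun n : ℕ => b n * (n : ℂ) ^ (-s) * γ s) (mellin g s) := by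
  have hA : 0 ≤ A := (norm_nonneg _).trans (hb 0)
  have hC0 : 0 ≤ C := by
    have := (norm_nonneg _).trans (hC 1 le_rfl)
    exact nonneg_of_mul_nonneg_left this (Real.exp_pos _)
  have htop : g =O[atTop] fun t => Real.exp (-1 * t) := by
    refine IsBigO.of_bound (A * C * Real.exp 1 * ∑' n : ℕ, Real.exp (-(n * 1))) ?_
    filter_upwards [eventually_ge_atTop 1] with y hy
    have h1 := ((summable_exp_nat one_pos).hasSum.mul_left (A * C * Real.exp 1)).mul_right
      (Real.exp (-1 * y))
    rw [Real.norm_of_nonneg (Real.exp_pos _).le]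
    refine (hs y (by linarith)).norm_le_of_bounded h1 fun n => ?_
    rcases Nat.eq_zero_or_pos n with rfl | hn
    · simp only [hb0, zero_mul, norm_zero]; positivity
    · have hn' : (1 : ℝ) ≤ n := by exact_mod_cast hn
      rw [norm_mul, mul_assoc, mul_assoc, ← Real.exp_add, ← Real.exp_add, mul_assoc]
      refine mul_le_mul (hb n) ((hC _ (by nlinarith)).trans ?_) (norm_nonneg _) hA
      refine mul_le_mul_of_nonneg_left (Real.exp_le_exp.2 ?_) hC0
      nlinarith
  have hbot : ∀ r : ℝ, g =O[𝓝[>] 0] (· ^ (-r)) := by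
    intro r
    have t1 : Tendsto (fun y : ℝ => Q * y⁻¹) (𝓝[>] 0) atTop :=
      tendsto_inv_nhdsGT_zero.const_mul_atTop hQ
    have h1 := (htop.comp_tendsto t1).neg_left
    have h2 := (isLittleO_exp_neg_mul_rpow_atTop hQ r).isBigO.comp_tendsto
      (tendsto_inv_nhdsGT_zero (𝕜 := ℝ))
    refine (IsBigO.congr' h1 ?_ (EventuallyEq.refl _ _)).trans (h2.congr' ?_ ?_)
    · filter_upwards [self_mem_nhdsWithin] with y hy
      simp [hfe y hy]
    · exact Eventually.of_forall fun y => by simp
    · filter_upwards [self_mem_nhdsWithin] with y hy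
      simp only [Function.comp_apply]
      rw [Real.inv_rpow (le_of_lt hy), Real.rpow_neg (le_of_lt hy)]
  refine ⟨fun s => mellin_differentiableAt_of_isBigO_rpow_exp one_pos
    (hg.locallyIntegrableOn measurableSet_Ioi) htop (hbot (s.re - 1)) (by linarith), ?_,
    fun s hs' => ?_⟩
  · have e1 := mellin_comp_inv (fun t => g (Q * t)) 0
    rw [neg_zero, mellin_comp_mul_left g 0 hQ, neg_zero, cpow_zero, one_smul] at e1
    have e2 : mellin (fun t => g (Q * t⁻¹)) 0 = -mellin g 0 := by
      rw [mellin, mellin, ← integral_neg]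
      exact setIntegral_congr_fun measurableSet_Ioi fun y hy => by simp [hfe y hy]
    rw [e2] at e1
    linear_combination -e1 / 2
  · have hσ := (le_max_left _ _).trans_lt hs'
    have h1 := (le_max_right _ _).trans_lt hs'
    have hm := hγ s hσ
    have key := hasSum_integral_of_summable_integral_norm (μ := volume.restrict (Ioi 0))
      (F := fun (n : ℕ) (y : ℝ) => b n * ((y : ℂ) ^ (s - 1) • Ψ (n * y))) (fun n => ?_) ?_
    · convert! key using 1
      · funext n
        rcases Nat.eq_zero_or_pos n with rfl | hn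
        · simp [hb0]
        · have := mellin_comp_mul_left Ψ s (a := n) (by exact_mod_cast hn)
          rw [integral_const_mul, ← mellin, this, hm.2]
          simp [mul_assoc]
      · refine setIntegral_congr_fun measurableSet_Ioi fun y hy => ?_
        simp only [smul_eq_mul, mul_left_comm (b _)]
        rw [tsum_mul_left, (hs y hy).tsum_eq]
    · rcases Nat.eq_zero_or_pos n with rfl | hn
      · simp [hb0]
      · exact ((MellinConvergent.comp_mul_left (a := n) (by exact_mod_cast hn)).2 hm.1).const_mul _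
    · set M := ∫ y in Ioi (0 : ℝ), ‖(y : ℂ) ^ (s - 1) • Ψ y‖ with hM
      have hM0 : 0 ≤ M := integral_nonneg fun _ => norm_nonneg _
      refine Summable.of_nonneg_of_le (fun n => integral_nonneg fun _ => norm_nonneg _)
        (fun n => ?_) ((Real.summable_nat_rpow.2 (by linarith : -s.re < -1)).mul_left (A * M))
      rcases Nat.eq_zero_or_pos n with rfl | hn
      · simp only [hb0, zero_mul, norm_zero, integral_zero]; positivity
      · have hn' : (0 : ℝ) < n := by exact_mod_cast hn
        have e := integral_comp_mul_left_Ioi (fun y : ℝ => ‖(y : ℂ) ^ (s - 1) • Ψ y‖) 0 hn'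
        rw [mul_zero, ← hM] at e
        have e2 : ∫ y in Ioi (0 : ℝ), ‖b n * ((y : ℂ) ^ (s - 1) • Ψ (n * y))‖
            = ‖b n‖ * (n : ℝ) ^ (1 - s.re)
              * ∫ y in Ioi (0 : ℝ), ‖(((n : ℝ) * y : ℝ) : ℂ) ^ (s - 1) • Ψ (n * y)‖ := by
          rw [← integral_const_mul]
          refine setIntegral_congr_fun measurableSet_Ioi fun y hy => ?_
          simp only [norm_mul, norm_smul, norm_cpow_eq_rpow_re_of_pos hy,
            norm_cpow_eq_rpow_re_of_pos (mul_pos hn' hy), Real.mul_rpow hn'.le (le_of_lt hy),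
            sub_re, one_re]
          have : (n : ℝ) ^ (1 - s.re) * (n : ℝ) ^ (s.re - 1) = 1 := by
            rw [← Real.rpow_add hn']; simp
          linear_combination (-‖b n‖ * y ^ (s.re - 1) * ‖Ψ (n * y)‖) * this
        rw [e2, e, smul_eq_mul, sub_eq_neg_add, Real.rpow_add hn', Real.rpow_one]
        have := hb n
        have h3 : 0 ≤ (n : ℝ) ^ (-s.re) := by positivity
        calc _ = ‖b n‖ * M * (n : ℝ) ^ (-s.re) := by field_simp
          _ ≤ _ := by gcongr

theorem hecke_one_ne {r lam : ℕ → ℂ}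
    (hr : ∀ p n : ℕ, p.Prime → 0 < n →
      lam p * r n = r (n * p) + if p ∣ n then r (n / p) else 0) (h1 : r 1 = 0) :
    ∀ n, 0 < n → r n = 0 := by
  intro n
  induction n using Nat.strong_induction_on with
  | _ n ih =>
    intro hn
    by_cases hn1 : n = 1
    · rw [hn1, h1]
    obtain ⟨p, hp, m, rfl⟩ := Nat.exists_prime_and_dvd hn1
    have hm : 0 < m := Nat.pos_of_mul_pos_left hn
    have h2 := hr p m hp hm
    have hlt : m < p * m := by nlinarith [hp.two_le]
    rw [ih m hlt hm, mul_zero, mul_comm m] at h2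
    split_ifs at h2 with hd
    · rw [ih (m / p) ((Nat.div_le_self _ _).trans_lt hlt)
        (Nat.div_pos (Nat.le_of_dvd hm hd) hp.pos), add_zero] at h2
      exact h2.symm
    · simpa using h2.symm

theorem hecke_mult {r lam : ℕ → ℂ}
    (hr : ∀ p n : ℕ, p.Prime → 0 < n →
      lam p * r n = r (n * p) + if p ∣ n then r (n / p) else 0) :
    ∀ m n : ℕ, 0 < m → 0 < n → Nat.Coprime m n → r (m * n) * r 1 = r m * r n := by
  have pw : ∀ p n : ℕ, p.Prime → 0 < n → ¬p ∣ n → ∀ e, r (p ^ e * n) * r 1 = r (p ^ e) * r n := by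
    intro p n hp hn hpn e
    induction e using Nat.twoStepInduction with
    | zero => simp [mul_comm]
    | one =>
      have h1 := hr p n hp hn
      have h2 := hr p 1 hp one_pos
      simp only [hpn, if_false, add_zero, Nat.dvd_one, hp.ne_one, one_mul] at h1 h2
      rw [pow_one, mul_comm p, ← h1, ← h2]; ring
    | more e ih1 ih2 =>
      have h1 := hr p (p ^ (e + 1) * n) hp (Nat.mul_pos (pow_pos hp.pos _) hn)
      have h2 := hr p (p ^ (e + 1)) hp (pow_pos hp.pos _)
      have d1 : p ∣ p ^ (e + 1) := dvd_pow_self p (by omega)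
      have q1 : p ^ (e + 1) / p = p ^ e := by rw [pow_succ, Nat.mul_div_cancel _ hp.pos]
      have q2 : p ^ (e + 1) * n / p = p ^ e * n := by
        rw [pow_succ, mul_right_comm, Nat.mul_div_cancel _ hp.pos]
      have q3 : p ^ (e + 1) * n * p = p ^ (e + 2) * n := by ring
      rw [if_pos (d1.mul_right n), q2, q3] at h1
      rw [if_pos d1, q1, ← pow_succ] at h2
      linear_combination -(r 1) * h1 + r n * h2 + lam p * ih2 - ih1
  by_cases h1 : r 1 = 0
  · intro m n hm hn _
    rw [h1, hecke_one_ne hr h1 m hm]; simp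
  intro m
  induction m using Nat.recOnPosPrimePosCoprime with
  | zero => intro n hm; omega
  | one => intro n _ _ _; simp [mul_comm]
  | prime_pow p e hp he =>
    intro n _ hn hc
    exact pw p n hp hn ((Nat.Prime.coprime_iff_not_dvd hp).1
      (Nat.Coprime.coprime_dvd_left (dvd_pow_self p he.ne') hc)) e
  | coprime a b ha hb hab iha ihb =>
    intro n _ hn hc
    have h2 := iha (b * n) (by omega) (by positivity)
      (Nat.Coprime.mul_right hab (Nat.Coprime.coprime_mul_right hc))
    have h3 := ihb n (by omega) hn (Nat.Coprime.coprime_mul_left hc)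
    have h4 := iha b (by omega) (by omega) hab
    refine mul_right_cancel₀ h1 ?_
    rw [mul_assoc a, h2]
    linear_combination r a * h3 - r n * h4

theorem local_factor {u : ℕ → ℂ} {x y : ℂ} (hs : Summable u) (h0 : u 0 = 1) (h1 : u 1 = x)
    (h2 : ∀ e, u (e + 2) = x * u (e + 1) - y * u e) : ∑' e, u e = (1 - x + y)⁻¹ := by
  have s1 := (summable_nat_add_iff 1).2 hs
  have e1 := hs.tsum_eq_zero_add
  have e2 := s1.tsum_eq_zero_add
  have e3 : ∑' e, u (e + 1 + 1) = x * ∑' e, u (e + 1) - y * ∑' e, u e := by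
    rw [← tsum_mul_left, ← tsum_mul_left, ← (s1.mul_left x).tsum_sub (hs.mul_left y)]
    exact tsum_congr h2
  rw [zero_add, h1, e3] at e2
  rw [h0] at e1
  refine eq_inv_of_mul_eq_one_left ?_
  linear_combination e1 + e2 - x * e1

theorem euler {r lam η : ℕ → ℂ} (h1 : r 1 = 1) (h0 : r 0 = 0)
    (hr : ∀ p n : ℕ, p.Prime → 0 < n →
      lam p * r n = r (n * p) + if p ∣ n then r (n / p) else 0)
    (hη1 : η 1 = 1) (hη : ∀ m n, η (m * n) = η m * η n) {s : ℂ}
    (hs : Summable fun n : ℕ => r n * η n * (n : ℂ) ^ (-s)) :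
    HasProd (fun p : Nat.Primes => eulerFactor lam η p s)
      (∑' n : ℕ, r n * η n * (n : ℂ) ^ (-s)) := by
  have key := EulerProduct.eulerProduct_hasProd (f := fun n : ℕ => r n * η n * (n : ℂ) ^ (-s))
    (by simp [h1, hη1]) (fun {m n} hc => by
      rcases Nat.eq_zero_or_pos m with rfl | hm
      · simp [h0]
      rcases Nat.eq_zero_or_pos n with rfl | hn
      · simp [h0]
      have := hecke_mult hr m n hm hn hc
      rw [h1, mul_one] at this
      rw [this, hη, Nat.cast_mul, natCast_mul_natCast_cpow]; ring) hs.norm (by simp [h0])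
  convert key using 2 with p
  have hp := p.2
  have hinj : Function.Injective fun e : ℕ => (p : ℕ) ^ e := Nat.pow_right_injective hp.two_le
  have hηp : ∀ e, η ((p : ℕ) ^ e) = η p ^ e := fun e => by
    induction e with
    | zero => simp [hη1]
    | succ e ih => rw [pow_succ, hη, ih, pow_succ]
  have hc : ∀ e : ℕ, ((((p : ℕ) ^ e : ℕ) : ℂ)) ^ (-s) = (((p : ℕ) : ℂ) ^ (-s)) ^ e := fun e => by
    rw [Nat.cast_pow, ← natCast_cpow_natCast_mul, cpow_nat_mul]
  have hc2 : ((p : ℕ) : ℂ) ^ (-2 * s) = (((p : ℕ) : ℂ) ^ (-s)) ^ 2 := by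
    rw [← cpow_nat_mul]; congr 1; push_cast; ring
  rw [eulerFactor, hc2]
  symm
  refine local_factor (hs.comp_injective hinj) (by simp [h1, hη1]) ?_ fun e => ?_
  · have h2 := hr p 1 hp one_pos
    simp only [Nat.dvd_one, hp.ne_one, if_false, add_zero, one_mul, h1, mul_one] at h2
    simp [h2]
  · have h2 := hr p (p ^ (e + 1)) hp (pow_pos hp.pos _)
    have d1 : (p : ℕ) ∣ p ^ (e + 1) := dvd_pow_self _ (by omega)
    have q1 : (p : ℕ) ^ (e + 1) / p = p ^ e := by rw [pow_succ, Nat.mul_div_cancel _ hp.pos]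
    rw [if_pos d1, q1, ← pow_succ] at h2
    simp only [hηp, hc]
    linear_combination (-(η p ^ (e + 2) * (((p : ℕ) : ℂ) ^ (-s)) ^ (e + 2))) * h2

end Pool.Agent.H26Z.Mf
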