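import Pool.Agent.H26Z.MfBessel

/-! The Whittaker function and uniqueness of bounded solutions. -/

set_option autoImplicit false

namespace Pool.Agent.H26Z.Mf

open Filter Topology MeasureTheory Set Complex
open scoped Real

/-- The Whittaker function. -/
noncomputable def wW (ν : ℂ) (y : ℝ) : ℂ := (√y : ℝ) * bF 0 ν y

/-- Its derivative. -/
noncomputable def wW1 (ν : ℂ) (y : ℝ) : ℂ :=
  bF 0 ν y / (2 * (√y : ℝ)) - 2 * π * (√y : ℝ) * bF 1 ν y

theorem sqrt_deriv {y : ℝ} (hy : 0 < y) :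
    HasDerivAt (fun y : ℝ => ((√y : ℝ) : ℂ)) (1 / (2 * (√y : ℝ))) y := by
  simpa using (Real.hasDerivAt_sqrt hy.ne').ofReal_comp

theorem wW_deriv (ν : ℂ) {y : ℝ} (hy : 0 < y) : HasDerivAt (wW ν) (wW1 ν y) y := by
  refine ((sqrt_deriv hy).mul (bF_deriv 0 ν hy)).congr_deriv ?_
  simp only [wW1]; ring

theorem wW1_deriv (ν : ℂ) {y : ℝ} (hy : 0 < y) :
    HasDerivAt (wW1 ν) ((4 * π ^ 2 - (1 / 4 - ν ^ 2) / y ^ 2) * wW ν y) y := by
  have hs : ((√y : ℝ) : ℂ) ≠ 0 := ofReal_ne_zero.2 (Real.sqrt_pos.2 hy).ne'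
  have h1 := ((bF_deriv 0 ν hy).div ((sqrt_deriv hy).const_mul 2) (by simpa using hs)).sub
    (((sqrt_deriv hy).const_mul (2 * π : ℂ)).mul (bF_deriv 1 ν hy))
  refine h1.congr_deriv ?_
  have hode := bF_ode ν hy
  have hsq : (y : ℂ) = ((√y : ℝ) : ℂ) ^ 2 := by exact_mod_cast (Real.sq_sqrt hy.le).symm
  simp only [wW, zero_add, Nat.reduceAdd]
  generalize ((√y : ℝ) : ℂ) = r at *
  rw [hsq] at hode ⊢
  field_simp
  linear_combination 16 * hode

theorem wW_cont (ν : ℂ) : ContinuousOn (wW ν) (Ioi 0) := fun _ hy =>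
  (wW_deriv ν hy).continuousAt.continuousWithinAt

theorem sqrt_le_exp {y : ℝ} (hy : 0 ≤ y) : √y ≤ Real.exp y := by
  have h1 := Real.add_one_le_exp y
  have h2 : √y ≤ y + 1 := by
    rw [Real.sqrt_le_left (by linarith)]; nlinarith
  linarith

theorem bF_decay' (n : ℕ) (ν : ℂ) {y₀ : ℝ} (h₀ : 0 < y₀) : ∃ C : ℝ, 0 ≤ C ∧ ∀ y, y₀ ≤ y →
    Real.exp y * Real.exp y * ‖bF n ν y‖ ≤ C * Real.exp (-y) := by
  obtain ⟨C, hC0, hC⟩ := bF_decay n ν h₀
  refine ⟨C * Real.exp (2 * π * y₀), by positivity, fun y hy => ?_⟩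
  calc _ ≤ Real.exp y * Real.exp y * (C * Real.exp (-(2 * π * (y - y₀)))) := by
        gcongr; exact hC y hy
    _ = C * Real.exp (y + y + -(2 * π * (y - y₀))) := by rw [Real.exp_add, Real.exp_add]; ring
    _ ≤ _ := by
        rw [mul_assoc C, ← Real.exp_add]
        refine mul_le_mul_of_nonneg_left (Real.exp_le_exp.2 ?_) hC0
        nlinarith [Real.pi_gt_three]

theorem wW_decay (ν : ℂ) {y₀ : ℝ} (h₀ : 0 < y₀) : ∃ C : ℝ, 0 ≤ C ∧ ∀ y, y₀ ≤ y →
    ‖wW ν y‖ ≤ C * Real.exp (-y) ∧ ‖(y : ℂ) * wW ν y‖ ≤ C * Real.exp (-y) := by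
  obtain ⟨C, hC0, hC⟩ := bF_decay' 0 ν h₀
  refine ⟨C, hC0, fun y hy => ?_⟩
  have hy0 : 0 ≤ y := h₀.le.trans hy
  have h1 := sqrt_le_exp hy0
  have h2 : 1 ≤ Real.exp y := Real.one_le_exp hy0
  have h3 : y ≤ Real.exp y := by linarith [Real.add_one_le_exp y]
  simp only [wW, norm_mul, norm_real, Real.norm_of_nonneg (Real.sqrt_nonneg y),
    Real.norm_of_nonneg hy0]
  refine ⟨le_trans ?_ (hC y hy), le_trans ?_ (hC y hy)⟩
  · gcongr; nlinarith
  · rw [← mul_assoc]; gcongr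

theorem tendsto_of_exp {g : ℝ → ℂ} {C : ℝ} (h : ∀ y, 1 ≤ y → ‖g y‖ ≤ C * Real.exp (-y)) :
    Tendsto g atTop (𝓝 0) := by
  refine squeeze_zero_norm' (a := fun y => C * Real.exp (-y)) ?_ ?_
  · filter_upwards [eventually_ge_atTop 1] with y hy using h y hy
  · simpa using Real.tendsto_exp_neg_atTop_nhds_zero.const_mul C

theorem wW_tendsto (ν : ℂ) : Tendsto (wW ν) atTop (𝓝 0) := by
  obtain ⟨C, -, hC⟩ := wW_decay ν one_pos
  exact tendsto_of_exp fun y hy => (hC y hy).1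

theorem wW1_tendsto (ν : ℂ) : Tendsto (wW1 ν) atTop (𝓝 0) := by
  obtain ⟨C, -, hC⟩ := bF_decay' 0 ν one_pos
  obtain ⟨D, -, hD⟩ := bF_decay' 1 ν one_pos
  refine tendsto_of_exp (C := C + 2 * π * D) fun y hy => (norm_sub_le _ _).trans ?_
  have hy0 : 0 ≤ y := by linarith
  have h1 := sqrt_le_exp hy0
  have h2 : 1 ≤ Real.exp y := Real.one_le_exp hy0
  have h3 : 1 ≤ √y := Real.one_le_sqrt.2 hy
  have h4 : 1 ≤ Real.exp y * Real.exp y := by nlinarith
  rw [add_mul]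
  refine add_le_add (le_trans ?_ (hC y hy)) ?_
  · simp only [norm_div, norm_mul, norm_real, Real.norm_of_nonneg (Real.sqrt_nonneg y),
      Complex.norm_ofNat]
    rw [div_le_iff₀ (by positivity)]
    have := norm_nonneg (bF 0 ν y)
    have h5 : 1 ≤ Real.exp y * Real.exp y * (2 * √y) := by nlinarith
    nlinarith
  · simp only [norm_mul, norm_real, Real.norm_of_nonneg (Real.sqrt_nonneg y),
      Complex.norm_ofNat, Real.norm_of_nonneg Real.pi_pos.le]
    rw [mul_assoc (2 * π), mul_assoc (2 * π)]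
    refine mul_le_mul_of_nonneg_left (le_trans ?_ (hD y hy)) (by positivity)
    gcongr; nlinarith

theorem wW_ne (ν : ℂ) : ∃ y > 0, wW ν y ≠ 0 := by
  by_contra h
  push Not at h
  have hs : |ν.re| < ((|ν.re| + 1 : ℝ) : ℂ).re := by simp
  have h' := abs_lt.1 hs
  have := (bF_mellin hs).2
  rw [mellin, setIntegral_congr_fun measurableSet_Ioi (g := fun _ => 0) (fun y hy => by
    have h1 := h y hy
    rw [wW, mul_eq_zero] at h1
    simp [h1.resolve_left (ofReal_ne_zero.2 (Real.sqrt_pos.2 hy).ne')])] at this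
  simp only [integral_zero] at this
  refine (mul_ne_zero (div_ne_zero ?_ two_ne_zero) (mul_ne_zero (Gamma_ne_zero_of_re_pos ?_)
    (Gamma_ne_zero_of_re_pos ?_))) this.symm
  · rw [Ne, cpow_eq_zero_iff]; simp [Real.pi_pos.ne']
  · simp at h' ⊢; linarith [h'.1]
  · simp at h' ⊢; linarith [h'.2]

theorem deriv_bound {c c1 c2 : ℝ → ℂ} (h1 : ∀ y > 0, HasDerivAt c (c1 y) y)
    (h2 : ∀ y > 0, HasDerivAt c1 (c2 y) y) {B M : ℝ} (hB : ∀ y > 0, ‖c y‖ ≤ B)
    (hM : ∀ y ≥ 1, ‖c2 y‖ ≤ M) {y : ℝ} (hy : 1 ≤ y) : ‖c1 y‖ ≤ 2 * B + M := by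
  have e1 : ∀ t ∈ Icc y (y + 1), ‖c1 t - c1 y‖ ≤ M := by
    intro t ht
    have := norm_image_sub_le_of_norm_deriv_le_segment' (f := c1) (f' := c2) (a := y) (b := y + 1)
      (C := M) (fun x hx => (h2 x (by linarith [hx.1])).hasDerivWithinAt)
      (fun x hx => hM x (by linarith [hx.1])) t ht
    have hM0 : 0 ≤ M := (norm_nonneg _).trans (hM 1 le_rfl)
    nlinarith [ht.1, ht.2]
  have e2 := norm_image_sub_le_of_norm_deriv_le_segment' (f := fun t : ℝ => c t - t * c1 y)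
    (f' := fun t => c1 t - c1 y) (a := y) (b := y + 1) (C := M) (fun x hx => by
      have h3 : HasDerivAt (fun x : ℝ => (x : ℂ)) 1 x := by
        simpa using (hasDerivAt_id x).ofReal_comp
      have hx0 : 0 < x := by linarith [hx.1]
      exact (((h1 x hx0).sub (h3.mul_const (c1 y))).congr_deriv (by ring)).hasDerivWithinAt)
    (fun x hx => e1 x (Ico_subset_Icc_self hx)) (y + 1) ⟨by linarith, le_rfl⟩
  have e3 : c1 y = c (y + 1) - c y - (c (y + 1) - ((y + 1 : ℝ) : ℂ) * c1 y - (c y - y * c1 y)) := by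
    push_cast; ring
  rw [e3]
  refine (norm_sub_le _ _).trans ?_
  have := norm_sub_le (c (y + 1)) (c y)
  have := hB (y + 1) (by linarith)
  have := hB y (by linarith)
  simp only [add_sub_cancel_left, mul_one] at e2
  linarith

theorem ode_zero {d d1 : ℝ → ℂ} {l : ℂ} (h1 : ∀ y > 0, HasDerivAt d (d1 y) y)
    (h2 : ∀ y > 0, HasDerivAt d1 ((4 * π ^ 2 - l / y ^ 2) * d y) y) {y₀ : ℝ} (hy₀ : 0 < y₀)
    (e0 : d y₀ = 0) (e1 : d1 y₀ = 0) {y : ℝ} (hy : 0 < y) : d y = 0 := by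
  set a := min y y₀ / 2 with ha
  have ha0 : 0 < a := by positivity
  have hay : a < y := by linarith [min_le_left y y₀, lt_min hy hy₀]
  have hay₀ : a < y₀ := by linarith [min_le_right y y₀, lt_min hy hy₀]
  set M : ℝ := 1 + (4 * π ^ 2 + ‖l‖ / a ^ 2) with hM
  have hM0 : 0 ≤ M := by positivity
  have := ODE_solution_unique_of_mem_Ioo (E := ℂ × ℂ) (K := ⟨M, hM0⟩) (s := fun _ => univ)
    (v := fun t p => (p.2, (4 * π ^ 2 - l / t ^ 2) * p.1)) (f := fun t => (d t, d1 t))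
    (g := fun _ => (0, 0)) (a := a) (b := max y y₀ + 1) (t₀ := y₀) (fun t ht => ?_)
    ⟨hay₀, by linarith [le_max_right y y₀]⟩
    (fun t ht => ⟨(h1 t (ha0.trans ht.1)).prodMk (h2 t (ha0.trans ht.1)), trivial⟩)
    (fun t _ => ⟨(hasDerivAt_const t ((0, 0) : ℂ × ℂ)).congr_deriv (by simp; rfl), trivial⟩) (by simp [e0, e1])
    (x := y) ⟨hay, by linarith [le_max_left y y₀]⟩
  · exact congrArg Prod.fst this
  · refine (LipschitzWith.of_dist_le_mul fun p q => ?_).lipschitzOnWith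
    have hq : ‖(4 * π ^ 2 - l / t ^ 2 : ℂ)‖ ≤ M := by
      refine (norm_sub_le _ _).trans ?_
      simp only [norm_mul, norm_pow, norm_div, norm_real, Complex.norm_ofNat,
        Real.norm_of_nonneg Real.pi_pos.le, Real.norm_of_nonneg (ha0.trans ht.1).le]
      have : ‖l‖ / t ^ 2 ≤ ‖l‖ / a ^ 2 := by gcongr; exact ht.1.le
      linarith
    have hM1 : 1 ≤ M := by
      have : 0 ≤ 4 * π ^ 2 + ‖l‖ / a ^ 2 := by positivity
      linarith
    rw [Prod.dist_eq, max_le_iff]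
    have d1' : dist p.1 q.1 ≤ dist p q := by rw [Prod.dist_eq]; exact le_max_left _ _
    have d2' : dist p.2 q.2 ≤ dist p q := by rw [Prod.dist_eq]; exact le_max_right _ _
    change dist p.2 q.2 ≤ M * _ ∧ _ ≤ M * _
    refine ⟨by nlinarith [dist_nonneg (x := p) (y := q)], ?_⟩
    rw [dist_eq_norm, ← mul_sub, norm_mul, ← dist_eq_norm p.1]
    gcongr

theorem ode_unique (ν : ℂ) {c c1 : ℝ → ℂ} (h1 : ∀ y > 0, HasDerivAt c (c1 y) y)
    (h2 : ∀ y > 0, HasDerivAt c1 ((4 * π ^ 2 - (1 / 4 - ν ^ 2) / y ^ 2) * c y) y) {B : ℝ}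
    (hB : ∀ y > 0, ‖c y‖ ≤ B) : ∃ a : ℂ, ∀ y > 0, c y = a * wW ν y := by
  set l := 1 / 4 - ν ^ 2 with hl
  have hB0 : 0 ≤ B := (norm_nonneg _).trans (hB 1 one_pos)
  have hc1 : ∀ y ≥ 1, ‖c1 y‖ ≤ 2 * B + (4 * π ^ 2 + ‖l‖) * B := fun y hy =>
    deriv_bound h1 h2 hB (fun t ht => by
      rw [norm_mul]
      refine mul_le_mul ((norm_sub_le _ _).trans ?_) (hB t (by linarith)) (norm_nonneg _)
        (by positivity)
      simp only [norm_mul, norm_pow, norm_div, norm_real, Complex.norm_ofNat,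
        Real.norm_of_nonneg Real.pi_pos.le, Real.norm_of_nonneg (by linarith : 0 ≤ t)]
      have : ‖l‖ / t ^ 2 ≤ ‖l‖ := div_le_self (norm_nonneg _) (by nlinarith)
      linarith) hy
  set Wr : ℝ → ℂ := fun y => c y * wW1 ν y - c1 y * wW ν y with hWr
  have hd : ∀ y > 0, HasDerivAt Wr 0 y := fun y hy =>
    (((h1 y hy).mul (wW1_deriv ν hy)).sub ((h2 y hy).mul (wW_deriv ν hy))).congr_deriv (by ring)
  have hconst : ∀ x > 0, ∀ y > 0, Wr x = Wr y := fun x hx y hy =>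
    isOpen_Ioi.is_const_of_deriv_eq_zero (𝕜 := ℝ) isPreconnected_Ioi
      (fun t ht => (hd t ht).differentiableAt.differentiableWithinAt)
      (fun t ht => (hd t ht).deriv) hx hy
  have hlim : Tendsto Wr atTop (𝓝 0) := by
    have t1 : Tendsto (fun y => c y * wW1 ν y) atTop (𝓝 0) := by
      refine squeeze_zero_norm' (a := fun y => B * ‖wW1 ν y‖) ?_
        (by simpa using (wW1_tendsto ν).norm.const_mul B)
      filter_upwards [eventually_gt_atTop 0] with y hy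
      rw [norm_mul]; gcongr; exact hB y hy
    have t2 : Tendsto (fun y => c1 y * wW ν y) atTop (𝓝 0) := by
      refine squeeze_zero_norm' (a := fun y => (2 * B + (4 * π ^ 2 + ‖l‖) * B) * ‖wW ν y‖) ?_
        (by simpa using (wW_tendsto ν).norm.const_mul _)
      filter_upwards [eventually_ge_atTop 1] with y hy
      rw [norm_mul]; gcongr; exact hc1 y hy
    simpa using t1.sub t2
  obtain ⟨y₀, hy₀, hW⟩ := wW_ne ν
  have hz : Wr y₀ = 0 := by
    refine tendsto_nhds_unique (tendsto_const_nhds.congr' ?_) hlim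
    filter_upwards [eventually_gt_atTop 0] with y hy using hconst y₀ hy₀ y hy
  refine ⟨c y₀ / wW ν y₀, fun y hy => sub_eq_zero.1 ?_⟩
  refine ode_zero (d := fun y => c y - c y₀ / wW ν y₀ * wW ν y)
    (d1 := fun y => c1 y - c y₀ / wW ν y₀ * wW1 ν y) (l := l)
    (fun t ht => (h1 t ht).sub ((wW_deriv ν ht).const_mul _))
    (fun t ht => ((h2 t ht).sub ((wW1_deriv ν ht).const_mul _)).congr_deriv (by ring)) hy₀
    (by field_simp; ring) ?_ hy
  simp only [hWr] at hz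
  field_simp
  linear_combination -hz

theorem wW_mellin {s ν : ℂ} (h : |ν.re| < s.re + 1 / 2) :
    HasMellin (wW ν) s ((π : ℂ) ^ (-(s + 1 / 2)) / 2
      * (Gamma ((s + 1 / 2 + ν) / 2) * Gamma ((s + 1 / 2 - ν) / 2))) := by
  have key := bF_mellin (s := s + 1 / 2) (ν := ν) (by simpa using h)
  have e : ∀ y ∈ Ioi (0 : ℝ), wW ν y = (y : ℂ) ^ (1 / 2 : ℂ) • bF 0 ν y := by
    intro y hy
    rw [wW, Real.sqrt_eq_rpow, ofReal_cpow (le_of_lt hy)]; simp
  refine ⟨?_, ?_⟩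
  · refine (MellinConvergent.cpow_smul.2 key.1).congr_fun (fun y hy => ?_) measurableSet_Ioi
    simp only [e y hy]
  · rw [← key.2, ← mellin_cpow_smul]
    exact setIntegral_congr_fun measurableSet_Ioi fun y hy => by simp only [e y hy]

theorem wW_mellin' {s ν : ℂ} (h : |ν.re| < s.re + 3 / 2) :
    HasMellin (fun y : ℝ => (y : ℂ) * wW ν y) s ((π : ℂ) ^ (-(s + 3 / 2)) / 2
      * (Gamma ((s + 3 / 2 + ν) / 2) * Gamma ((s + 3 / 2 - ν) / 2))) := by
  have key := wW_mellin (s := s + 1) (ν := ν) (by simp; linarith)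
  have e : s + 1 + 1 / 2 = s + 3 / 2 := by ring
  rw [e] at key
  refine ⟨?_, ?_⟩
  · simpa using (MellinConvergent.cpow_smul (a := 1)).2 key.1
  · rw [← key.2, ← mellin_cpow_smul]; simp

end Pool.Agent.H26Z.Mf
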