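import Pool.Agent.H26Z.MfAbs

/-! Invariant integral operators on the upper half-plane. -/

set_option autoImplicit false

namespace Pool.Agent.H26Z.Mf

open Filter Topology MeasureTheory UpperHalfPlane Metric
open scoped ENNReal NNReal MatrixGroups ComplexConjugate

theorem gl_dist (g : GL (Fin 2) ℝ) (z w : ℍ) : dist (g • z) (g • w) = dist z w := by
  have hz := denom_ne_zero g z
  have hw := denom_ne_zero g w
  have hd : (g.det : ℝ) ≠ 0 := g.det.ne_zero
  have h1 : dist ((g • z : ℍ) : ℂ) ((g • w : ℍ) : ℂ)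
      = |(g.det : ℝ)| * dist (z : ℂ) w / (‖denom g z‖ * ‖denom g w‖) := by
    rw [coe_smul, coe_smul, Complex.dist_eq, Complex.dist_eq, ← map_sub, norm_σ]
    have : num g z / denom g z - num g w / denom g w
        = ((g.det : ℝ) : ℂ) * ((z : ℂ) - w) / (denom g z * denom g w) := by
      field_simp
      simp only [num, denom, Matrix.GeneralLinearGroup.val_det_apply, Matrix.det_fin_two]
      push_cast
      ring
    rw [this, norm_div, norm_mul, norm_mul, Complex.norm_real, Real.norm_eq_abs]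
  have h2 : √((g • z).im * (g • w).im)
      = |(g.det : ℝ)| * √(z.im * w.im) / (‖denom g z‖ * ‖denom g w‖) := by
    rw [im_smul_eq_div_normSq, im_smul_eq_div_normSq, Complex.normSq_eq_norm_sq,
      Complex.normSq_eq_norm_sq]
    have hp : 0 ≤ z.im * w.im := (mul_pos z.im_pos w.im_pos).le
    rw [Real.sqrt_eq_iff_mul_self_eq (by have := z.im_pos; have := w.im_pos; positivity)
      (by positivity)]
    have := Real.mul_self_sqrt hp
    have hz' : ‖denom g z‖ ≠ 0 := norm_ne_zero_iff.2 hz
    have hw' : ‖denom g w‖ ≠ 0 := norm_ne_zero_iff.2 hw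
    field_simp
    nlinarith
  rw [UpperHalfPlane.dist_eq, UpperHalfPlane.dist_eq, h1, h2]
  congr 2
  have hz' : ‖denom g z‖ ≠ 0 := norm_ne_zero_iff.2 hz
  have hw' : ‖denom g w‖ ≠ 0 := norm_ne_zero_iff.2 hw
  have : √(z.im * w.im) ≠ 0 := (Real.sqrt_pos.2 (mul_pos z.im_pos w.im_pos)).ne'
  have : |(g.det : ℝ)| ≠ 0 := abs_ne_zero.2 hd
  field_simp

theorem gl_mp (g : GL (Fin 2) ℝ) : MeasurePreserving (fun z : ℍ => g • z) volume volume :=
  measurePreserving_smul g volume

theorem exists_swap (z w : ℍ) : ∃ g : GL (Fin 2) ℝ, g • z = w ∧ g • w = z := by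
  set c : ℝ := z.im + w.im with hc
  set a : ℝ := z.re * w.im + w.re * z.im with ha
  set b : ℝ := c * (z.re * w.re - z.im * w.im) - a * (z.re + w.re) with hb
  have hz := z.im_pos
  have hw := w.im_pos
  have hdet : (!![a, b; c, -a] : Matrix (Fin 2) (Fin 2) ℝ).det
      = z.im * w.im * ((z.re - w.re) ^ 2 + c ^ 2) := by
    rw [Matrix.det_fin_two_of, hb, ha, hc]; ring
  have hpos : 0 < (!![a, b; c, -a] : Matrix (Fin 2) (Fin 2) ℝ).det := by
    rw [hdet]; positivity
  set g : GL (Fin 2) ℝ := .mkOfDetNeZero _ hpos.ne' with hg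
  have hgd : 0 < g.det.val := by simpa [hg] using hpos
  refine ⟨g, ?_, ?_⟩
  · ext1
    rw [coe_smul_of_det_pos hgd, div_eq_iff (denom_ne_zero g z)]
    apply Complex.ext <;> simp [num, denom, hg, hb, ha, hc] <;> ring
  · ext1
    rw [coe_smul_of_det_pos hgd, div_eq_iff (denom_ne_zero g w)]
    apply Complex.ext <;> simp [num, denom, hg, hb, ha, hc] <;> ring

theorem vol_ball (z : ℍ) (r : ℝ) : volume (closedBall z r) = volume (closedBall I r) := by
  obtain ⟨g, hg⟩ := MulAction.exists_smul_eq (GL (Fin 2) ℝ) I z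
  rw [← (gl_mp g).measure_preimage measurableSet_closedBall.nullMeasurableSet]
  congr 1
  ext w
  simp only [Set.mem_preimage, mem_closedBall]
  rw [← hg, gl_dist]

/-- A continuous profile vanishing beyond a radius. -/
structure Ker where
  K : ℝ → ℝ
  R : ℝ
  cont : Continuous K
  zero : ∀ t, R ≤ t → K t = 0

/-- The point-pair invariant attached to a profile. -/
noncomputable def Ker.kf (k : Ker) (z w : ℍ) : ℂ := (k.K (dist z w) : ℂ)

/-- The invariant integral operator attached to a profile. -/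
noncomputable def Ker.T (k : Ker) (f : ℍ → ℂ) (z : ℍ) : ℂ := ∫ w, k.kf z w * f w

namespace Ker

variable (k : Ker)

theorem kf_smul (g : GL (Fin 2) ℝ) (z w : ℍ) : k.kf (g • z) (g • w) = k.kf z w := by
  simp only [kf, gl_dist]

theorem kf_comm (z w : ℍ) : k.kf z w = k.kf w z := by simp only [kf, dist_comm]

theorem kf_cont : Continuous fun p : ℍ × ℍ => k.kf p.1 p.2 :=
  Complex.continuous_ofReal.comp (k.cont.comp continuous_dist)

theorem kf_cont_right (z : ℍ) : Continuous (k.kf z) :=
  k.kf_cont.comp (continuous_const.prodMk continuous_id)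

theorem kf_zero {z w : ℍ} (h : k.R ≤ dist z w) : k.kf z w = 0 := by simp [kf, k.zero _ h]

theorem kf_supp (z : ℍ) : HasCompactSupport (k.kf z) :=
  HasCompactSupport.intro (isCompact_closedBall z k.R) fun w hw =>
    k.kf_zero (by rw [mem_closedBall, not_le, dist_comm] at hw; exact hw.le)

theorem kf_integrable (z : ℍ) : Integrable (k.kf z) :=
  (k.kf_cont_right z).integrable_of_hasCompactSupport (k.kf_supp z)

theorem integrable_mul (z : ℍ) {f : ℍ → ℂ} (hf : AEStronglyMeasurable f) {B : ℝ}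
    (hB : ∀ w, ‖f w‖ ≤ B) : Integrable fun w => k.kf z w * f w :=
  (k.kf_integrable z).mul_bdd hf (Eventually.of_forall hB)

theorem T_smul (f : ℍ → ℂ) (g : GL (Fin 2) ℝ) (z : ℍ) :
    k.T f (g • z) = k.T (fun w => f (g • w)) z := by
  unfold T
  rw [← integral_smul_eq_self (μ := volume) (fun w => k.kf (g • z) w * f w) (g := g)]
  simp only [kf_smul]

theorem exists_bound : ∃ C : ℝ, 0 ≤ C ∧ ∀ z w, ‖k.kf z w‖ ≤ C := by
  obtain ⟨C, hC⟩ := (isCompact_Icc (a := (0 : ℝ)) (b := k.R)).exists_bound_of_continuousOn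
    k.cont.continuousOn
  refine ⟨max C 0, le_max_right _ _, fun z w => ?_⟩
  by_cases h : k.R ≤ dist z w
  · simp [k.kf_zero h]
  · simp only [kf, Complex.norm_real]
    exact (hC _ ⟨dist_nonneg, (not_le.1 h).le⟩).trans (le_max_left _ _)

/-- integral of a function supported in a ball -/
theorem norm_integral_le_ball (z : ℍ) (r c : ℝ) (F : ℍ → ℂ) (hF : ∀ w, ‖F w‖ ≤ c)
    (h0 : ∀ w, r < dist z w → F w = 0) :
    ‖∫ w, F w‖ ≤ c * (volume (closedBall I r)).toReal := by
  rw [← setIntegral_eq_integral_of_forall_compl_eq_zero (s := closedBall z r)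
    (fun w hw => h0 w (by rwa [mem_closedBall, not_le, dist_comm] at hw)), ← vol_ball z]
  exact norm_setIntegral_le_of_norm_le_const (isCompact_closedBall z r).measure_lt_top
    fun w _ => hF w

theorem exists_T_bound : ∃ C : ℝ, 0 ≤ C ∧ ∀ (f : ℍ → ℂ) (B : ℝ), (∀ w, ‖f w‖ ≤ B) →
    ∀ z, ‖k.T f z‖ ≤ C * B := by
  obtain ⟨C, hC0, hC⟩ := k.exists_bound
  refine ⟨C * (volume (closedBall I k.R)).toReal, by positivity, fun f B hB z => ?_⟩
  have := norm_integral_le_ball z k.R (C * B) (fun w => k.kf z w * f w)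
    (fun w => by rw [norm_mul]; exact mul_le_mul (hC _ _) (hB _) (norm_nonneg _) hC0)
    (fun w hw => by simp [k.kf_zero hw.le])
  exact this.trans_eq (by ring)

theorem T_equicont {ε : ℝ} (hε : 0 < ε) : ∃ δ > 0, ∀ (f : ℍ → ℂ) (B : ℝ),
    AEStronglyMeasurable f → (∀ w, ‖f w‖ ≤ B) → ∀ z z', dist z z' < δ →
    ‖k.T f z - k.T f z'‖ ≤ ε * B := by
  set V := (volume (closedBall I (k.R + 1))).toReal with hV
  have hV0 : 0 ≤ V := ENNReal.toReal_nonneg
  have huc := (isCompact_Icc (a := (0 : ℝ)) (b := k.R + 2)).uniformContinuousOn_of_continuous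
    k.cont.continuousOn
  obtain ⟨δ, hδ, hd⟩ := Metric.uniformContinuousOn_iff.1 huc (ε / (V + 1)) (by positivity)
  refine ⟨min δ 1, lt_min hδ one_pos, fun f B hf hB z z' hzz => ?_⟩
  have hB0 : 0 ≤ B := (norm_nonneg _).trans (hB I)
  have hz1 : dist z z' < 1 := hzz.trans_le (min_le_right _ _)
  have hzδ : dist z z' < δ := hzz.trans_le (min_le_left _ _)
  have h0 : ∀ w, k.R + 1 < dist z w → k.kf z w = 0 ∧ k.kf z' w = 0 := by
    intro w hw
    refine ⟨k.kf_zero (by linarith), k.kf_zero ?_⟩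
    have := dist_triangle z z' w
    linarith
  unfold T
  rw [← integral_sub (k.integrable_mul z hf hB) (k.integrable_mul z' hf hB)]
  have := norm_integral_le_ball z (k.R + 1) (ε / (V + 1) * B)
    (fun w => k.kf z w * f w - k.kf z' w * f w) (fun w => by
      rw [← sub_mul, norm_mul]
      refine mul_le_mul ?_ (hB w) (norm_nonneg _) (by positivity)
      by_cases hw : k.R + 1 < dist z w
      · simp only [(h0 w hw).1, (h0 w hw).2, sub_zero, norm_zero]; positivity
      · have h1 := dist_triangle z' z w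
        rw [dist_comm z' z] at h1
        have h2 := hd (dist z w) ⟨dist_nonneg, by linarith⟩ (dist z' w) ⟨dist_nonneg, by linarith⟩
          ((dist_dist_dist_le_left z z' w).trans_lt hzδ)
        simp only [kf]
        rw [← Complex.ofReal_sub, Complex.norm_real]
        exact h2.le)
    (fun w hw => by simp [(h0 w hw).1, (h0 w hw).2])
  refine this.trans ?_
  rw [← hV]
  have : ε / (V + 1) * V ≤ ε := by
    rw [div_mul_eq_mul_div, div_le_iff₀ (by positivity)]; nlinarith
  nlinarith

theorem T_cont {f : ℍ → ℂ} (hf : AEStronglyMeasurable f) {B : ℝ} (hB : ∀ w, ‖f w‖ ≤ B) :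
    Continuous (k.T f) := by
  have hB0 : 0 ≤ B := (norm_nonneg _).trans (hB I)
  refine (Metric.uniformContinuous_iff.2 fun ε hε => ?_).continuous
  obtain ⟨δ, hδ, h⟩ := k.T_equicont (ε := ε / (B + 1) / 2) (by positivity)
  refine ⟨δ, hδ, fun {z z'} hz => ?_⟩
  rw [dist_eq_norm]
  refine (h f B hf hB z z' hz).trans_lt ?_
  have : ε / (B + 1) * B ≤ ε := by
    rw [div_mul_eq_mul_div, div_le_iff₀ (by positivity)]; nlinarith
  nlinarith

theorem conv_comm (k' : Ker) (z v : ℍ) :
    ∫ w, k.kf z w * k'.kf w v = ∫ w, k'.kf z w * k.kf w v := by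
  obtain ⟨g, hg1, hg2⟩ := exists_swap z v
  rw [← integral_smul_eq_self (μ := volume) (fun w => k.kf z w * k'.kf w v) (g := g)]
  refine integral_congr_ae (Eventually.of_forall fun w => ?_)
  simp only
  conv_lhs => rw [← hg2, kf_smul]; arg 2; rw [← hg1, kf_smul]
  rw [mul_comm, k'.kf_comm, k.kf_comm]

theorem T_T (k' : Ker) {f : ℍ → ℂ} (hf : Continuous f) (z : ℍ) :
    k.T (k'.T f) z = ∫ v, (∫ w, k.kf z w * k'.kf w v) * f v := by
  unfold T
  simp only [← integral_const_mul, ← integral_mul_const]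
  rw [integral_integral_swap_of_hasCompactSupport (f := fun w v => k.kf z w * (k'.kf w v * f v))]
  · simp only [mul_assoc]
  · exact ((k.kf_cont_right z).comp continuous_fst).mul
      (k'.kf_cont.mul (hf.comp continuous_snd))
  · refine HasCompactSupport.intro ((isCompact_closedBall z k.R).prod
      (isCompact_closedBall z (k.R + k'.R))) ?_
    rintro ⟨w, v⟩ h
    simp only [Set.mem_prod, mem_closedBall, not_and_or, not_le] at h
    by_cases hw : k.R ≤ dist z w
    · simp [k.kf_zero hw]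
    · have hv : k'.R ≤ dist w v := by
        rcases h with h | h
        · rw [dist_comm] at h; linarith
        · have := dist_triangle z w v
          rw [dist_comm] at h; linarith
      simp [k'.kf_zero hv]

theorem T_comm (k' : Ker) {f : ℍ → ℂ} (hf : Continuous f) (z : ℍ) :
    k.T (k'.T f) z = k'.T (k.T f) z := by
  rw [k.T_T k' hf, k'.T_T k hf]
  simp only [k.conv_comm k']

end Ker

end Pool.Agent.H26Z.Mf
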