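import Pool.Agent.H26Z.MfSpace

/-! Smoothness of invariant integrals and the action of the Laplace operator on them. -/

set_option autoImplicit false

namespace Pool.Agent.H26Z.Mf

open Filter Topology MeasureTheory UpperHalfPlane Metric
open scoped ENNReal NNReal MatrixGroups ComplexConjugate ContDiff Convolution

theorem hasDerivAt_param {G G' : ℝ → ℍ → ℂ} {s : Set ℝ} (hs : IsOpen s) {t₀ : ℝ} (ht₀ : t₀ ∈ s)
    {Kc : Set ℍ} (hK : IsCompact Kc) (hG : ∀ t ∈ s, Continuous (G t))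
    (hG' : ContinuousOn (fun p : ℝ × ℍ => G' p.1 p.2) (s ×ˢ Set.univ))
    (hd : ∀ t ∈ s, ∀ w, HasDerivAt (G · w) (G' t w) t)
    (h0 : ∀ t ∈ s, ∀ w ∉ Kc, G t w = 0 ∧ G' t w = 0) :
    HasDerivAt (fun t => ∫ w, G t w) (∫ w, G' t₀ w) t₀ := by
  obtain ⟨ε, hε, hεs⟩ := nhds_basis_closedBall.mem_iff.1 (hs.mem_nhds ht₀)
  obtain ⟨C, hC⟩ := ((isCompact_closedBall t₀ ε).prod hK).exists_bound_of_continuousOn
    (hG'.mono (Set.prod_mono hεs (Set.subset_univ _)))
  have hc' : Continuous (G' t₀) := by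
    rw [← continuousOn_univ]
    exact hG'.comp (f := fun w => (t₀, w)) (by fun_prop) fun w _ => ⟨ht₀, trivial⟩
  refine (hasDerivAt_integral_of_dominated_loc_of_deriv_le (s := closedBall t₀ ε)
    (bound := Kc.indicator fun _ => C) (closedBall_mem_nhds t₀ hε) ?_ ?_
    hc'.aestronglyMeasurable ?_ ?_ ?_).2
  · filter_upwards [hs.mem_nhds ht₀] with t ht using (hG t ht).aestronglyMeasurable
  · exact (hG t₀ ht₀).integrable_of_hasCompactSupport
      (HasCompactSupport.intro hK fun w hw => (h0 t₀ ht₀ w hw).1)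
  · refine Eventually.of_forall fun w t ht => ?_
    by_cases hw : w ∈ Kc
    · simpa [hw] using hC (t, w) ⟨ht, hw⟩
    · simp [hw, (h0 t (hεs ht) w hw).2]
  · exact (integrable_indicator_iff hK.measurableSet).2
      (integrableOn_const hK.measure_lt_top.ne)
  · exact Eventually.of_forall fun w t ht => hd t (hεs ht) w

theorem deriv_zero_of_gt {κ : ℝ → ℝ} {c : ℝ} (h : ∀ u, c < u → κ u = 0) :
    ∀ u, c < u → deriv κ u = 0 := by
  intro u hu
  have : κ =ᶠ[𝓝 u] fun _ => 0 := by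
    filter_upwards [lt_mem_nhds hu] with v hv using h v hv
  rw [this.deriv_eq, deriv_const]

theorem second_deriv_param {κ : ℝ → ℝ} (hκ : ContDiff ℝ ∞ κ) {c : ℝ} (h : ∀ u, c < u → κ u = 0)
    {a a' a'' : ℝ → ℍ → ℝ} {s : Set ℝ} (hs : IsOpen s) (h0 : (0 : ℝ) ∈ s)
    {Kc : Set ℍ} (hK : IsCompact Kc)
    (ha : ContinuousOn (fun p : ℝ × ℍ => a p.1 p.2) (s ×ˢ Set.univ))
    (ha' : ContinuousOn (fun p : ℝ × ℍ => a' p.1 p.2) (s ×ˢ Set.univ))
    (ha'' : ContinuousOn (fun p : ℝ × ℍ => a'' p.1 p.2) (s ×ˢ Set.univ))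
    (hd : ∀ t ∈ s, ∀ w, HasDerivAt (a · w) (a' t w) t)
    (hd' : ∀ t ∈ s, ∀ w, HasDerivAt (a' · w) (a'' t w) t)
    (hsup : ∀ t ∈ s, ∀ w ∉ Kc, c < a t w) {f : ℍ → ℂ} (hf : Continuous f) :
    Integrable (fun w => ((deriv (deriv κ) (a 0 w) * a' 0 w ^ 2 + deriv κ (a 0 w) * a'' 0 w : ℝ) : ℂ)
      * f w) ∧
    deriv (deriv fun t => ∫ w, (κ (a t w) : ℂ) * f w) 0
      = ∫ w, ((deriv (deriv κ) (a 0 w) * a' 0 w ^ 2 + deriv κ (a 0 w) * a'' 0 w : ℝ) : ℂ) * f w := by
  have hκ1 : ContDiff ℝ ∞ (deriv κ) := hκ.iterate_deriv 1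
  have hκ2 : ContDiff ℝ ∞ (deriv (deriv κ)) := hκ1.iterate_deriv 1
  have h1 := deriv_zero_of_gt h
  have h2 := deriv_zero_of_gt h1
  have hdκ : ∀ u, HasDerivAt κ (deriv κ u) u := fun u =>
    (hκ.differentiable (by simp) u).hasDerivAt
  have hdκ1 : ∀ u, HasDerivAt (deriv κ) (deriv (deriv κ) u) u := fun u =>
    (hκ1.differentiable (by simp) u).hasDerivAt
  have sec : ∀ {b : ℝ × ℍ → ℂ}, ContinuousOn b (s ×ˢ Set.univ) → ∀ t ∈ s,
      Continuous fun w => b (t, w) := by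
    intro b hb t ht
    rw [← continuousOn_univ]
    exact hb.comp (f := fun w => (t, w)) (by fun_prop) fun w _ => ⟨ht, trivial⟩
  have hf2 : ContinuousOn (fun p : ℝ × ℍ => f p.2) (s ×ˢ Set.univ) :=
    (hf.comp continuous_snd).continuousOn
  have c0 : ContinuousOn (fun p : ℝ × ℍ => (κ (a p.1 p.2) : ℂ) * f p.2) (s ×ˢ Set.univ) :=
    (Complex.continuous_ofReal.comp_continuousOn (hκ.continuous.comp_continuousOn ha)).mul hf2
  have c1 : ContinuousOn (fun p : ℝ × ℍ => ((deriv κ (a p.1 p.2) * a' p.1 p.2 : ℝ) : ℂ) * f p.2)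
      (s ×ˢ Set.univ) :=
    (Complex.continuous_ofReal.comp_continuousOn
      ((hκ1.continuous.comp_continuousOn ha).mul ha')).mul hf2
  have c2 : ContinuousOn (fun p : ℝ × ℍ => ((deriv (deriv κ) (a p.1 p.2) * a' p.1 p.2 ^ 2
      + deriv κ (a p.1 p.2) * a'' p.1 p.2 : ℝ) : ℂ) * f p.2) (s ×ˢ Set.univ) :=
    (Complex.continuous_ofReal.comp_continuousOn
      (((hκ2.continuous.comp_continuousOn ha).mul (ha'.pow 2)).add
        ((hκ1.continuous.comp_continuousOn ha).mul ha''))).mul hf2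
  refine ⟨(sec c2 0 h0).integrable_of_hasCompactSupport (HasCompactSupport.intro hK fun w hw => by
    simp [h1 _ (hsup 0 h0 w hw), h2 _ (hsup 0 h0 w hw)]), ?_⟩
  have e1 : deriv (fun t => ∫ w, (κ (a t w) : ℂ) * f w) =ᶠ[𝓝 0]
      fun t => ∫ w, ((deriv κ (a t w) * a' t w : ℝ) : ℂ) * f w := by
    filter_upwards [hs.mem_nhds h0] with t ht
    refine (hasDerivAt_param (G := fun t w => (κ (a t w) : ℂ) * f w)
      (G' := fun t w => ((deriv κ (a t w) * a' t w : ℝ) : ℂ) * f w) hs ht hK (sec c0) c1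
      (fun t ht w => ?_) (fun t ht w hw => ?_)).deriv
    · exact (((hdκ _).comp t (hd t ht w)).ofReal_comp).mul_const _
    · simp [h _ (hsup t ht w hw), h1 _ (hsup t ht w hw)]
  rw [e1.deriv_eq]
  refine (hasDerivAt_param (G := fun t w => ((deriv κ (a t w) * a' t w : ℝ) : ℂ) * f w)
    (G' := fun t w => ((deriv (deriv κ) (a t w) * a' t w ^ 2 + deriv κ (a t w) * a'' t w : ℝ) : ℂ)
      * f w) hs h0 hK (sec c1) c2 (fun t ht w => ?_) (fun t ht w hw => ?_)).deriv
  · have := (((hdκ1 _).comp t (hd t ht w)).mul (hd' t ht w))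
    refine HasDerivAt.mul_const (HasDerivAt.ofReal_comp (this.congr_deriv ?_)) _
    simp only [Function.comp_apply]; ring
  · simp [h1 _ (hsup t ht w hw), h2 _ (hsup t ht w hw)]

/-- The hyperbolic cosine of the distance, in coordinates. -/
noncomputable def uu (ζ t : ℂ) : ℝ := ((ζ.re - t.re) ^ 2 + ζ.im ^ 2 + t.im ^ 2) / (2 * ζ.im * t.im)

theorem cosh_uu {ζ : ℂ} (hζ : 0 < ζ.im) (w : ℍ) : Real.cosh (dist (ofComplex ζ) w) = uu ζ w := by
  rw [ofComplex_apply_of_im_pos hζ, cosh_dist']; rfl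

/-- The profile attached to a function of the hyperbolic cosine. -/
noncomputable def kerOf (κ : ℝ → ℝ) (hκ : Continuous κ) (R : ℝ) (hR : 0 < R)
    (h : ∀ u, Real.cosh (R / 2) < u → κ u = 0) : Ker where
  K t := κ (Real.cosh t)
  R := R
  cont := hκ.comp Real.continuous_cosh
  zero t ht := h _ (Real.cosh_lt_cosh.2 (by
    rw [abs_of_pos (by linarith), abs_of_pos (by linarith)]; linarith))

theorem kerOf_T {κ : ℝ → ℝ} (hκ : Continuous κ) {R : ℝ} (hR : 0 < R)
    (h : ∀ u, Real.cosh (R / 2) < u → κ u = 0) (f : ℍ → ℂ) {ζ : ℂ} (hζ : 0 < ζ.im) :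
    (kerOf κ hκ R hR h).T f (ofComplex ζ) = ∫ w : ℍ, (κ (uu ζ w) : ℂ) * f w := by
  simp only [Ker.T, Ker.kf, kerOf, cosh_uu hζ]

theorem local_supp {R : ℝ} (hR : 0 < R) (z₀ : ℍ) {ζ : ℂ} (hζ : ζ ∈ (↑) '' ball z₀ 1) {w : ℍ}
    (hw : w ∉ closedBall z₀ (R + 1)) : Real.cosh (R / 2) < uu ζ w := by
  obtain ⟨z, hz, rfl⟩ := hζ
  rw [← cosh_uu z.im_pos, ofComplex_apply]
  rw [mem_closedBall, not_le] at hw
  rw [mem_ball] at hz
  have := dist_triangle_left w z₀ z
  rw [Real.cosh_lt_cosh, abs_of_pos (by linarith), abs_of_nonneg dist_nonneg]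
  linarith

theorem smooth_int {κ : ℝ → ℝ} (hκ : ContDiff ℝ ∞ κ) {R : ℝ} (hR : 0 < R)
    (h : ∀ u, Real.cosh (R / 2) < u → κ u = 0) {f : ℍ → ℂ} (hf : Continuous f) :
    ContDiffOn ℝ ∞ (fun ζ : ℂ => ∫ w : ℍ, (κ (uu ζ w) : ℂ) * f w) {ζ | 0 < ζ.im} := by
  intro ζ₀ hζ₀
  refine ContDiffAt.contDiffWithinAt ?_
  set z₀ : ℍ := ⟨ζ₀, hζ₀⟩
  set s : Set ℂ := (↑) '' ball z₀ 1 with hs
  have hso : IsOpen s := isOpenEmbedding_coe.isOpenMap _ isOpen_ball
  have hs0 : ζ₀ ∈ s := ⟨z₀, mem_ball_self one_pos, rfl⟩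
  have hsim : ∀ p ∈ s, 0 < p.im := by rintro _ ⟨z, -, rfl⟩; exact z.im_pos
  set Kc := closedBall z₀ (R + 1) with hKc
  have hK : IsCompact Kc := isCompact_closedBall _ _
  set μ' : Measure ℂ := (volume.restrict Kc).map ((↑) : ℍ → ℂ) with hμ'
  set g : ℂ → ℂ → ℂ := fun p x => if 0 < (-x).im then (κ (uu p (-x)) : ℂ) else 0 with hg
  have hk : IsCompact ((fun w : ℍ => -(w : ℂ)) '' Kc) := hK.image continuous_coe.neg
  have hgs : ∀ p x, p ∈ s → x ∉ (fun w : ℍ => -(w : ℂ)) '' Kc → g p x = 0 := by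
    intro p x hp hx
    simp only [hg]
    split_ifs with hx'
    · have : (⟨-x, hx'⟩ : ℍ) ∉ Kc := fun hm => hx ⟨_, hm, by simp⟩
      rw [h _ (local_supp hR z₀ hp this)]; simp
    · rfl
  have hfi : LocallyIntegrable (fun t => f (ofComplex t)) μ' := by
    refine Integrable.locallyIntegrable ?_
    rw [hμ', measurableEmbedding_coe.integrable_map_iff]
    simp only [Function.comp_def, ofComplex_apply]
    exact hf.continuousOn.integrableOn_compact hK
  have hgd : ContDiffOn ℝ ∞ ↿g (s ×ˢ Set.univ) := by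
    rintro ⟨p, x⟩ ⟨hp, -⟩
    refine ContDiffAt.contDiffWithinAt ?_
    by_cases hx : 0 < (-x).im
    · have e : ↿g =ᶠ[𝓝 (p, x)] fun q : ℂ × ℂ => (κ (uu q.1 (-q.2)) : ℂ) := by
        have : ∀ᶠ q : ℂ × ℂ in 𝓝 (p, x), 0 < (-q.2).im :=
          (isOpen_lt continuous_const (by fun_prop)).mem_nhds hx
        filter_upwards [this] with q hq
        change g q.1 q.2 = _
        simp only [hg, if_pos hq]
      refine ContDiffAt.congr_of_eventuallyEq ?_ e
      refine Complex.ofRealCLM.contDiff.contDiffAt.comp _ (hκ.contDiffAt.comp _ ?_)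
      have r1 : ContDiff ℝ ∞ fun q : ℂ × ℂ => q.1.re := Complex.reCLM.contDiff.comp contDiff_fst
      have i1 : ContDiff ℝ ∞ fun q : ℂ × ℂ => q.1.im := Complex.imCLM.contDiff.comp contDiff_fst
      have r2 : ContDiff ℝ ∞ fun q : ℂ × ℂ => (-q.2).re :=
        Complex.reCLM.contDiff.comp contDiff_snd.neg
      have i2 : ContDiff ℝ ∞ fun q : ℂ × ℂ => (-q.2).im :=
        Complex.imCLM.contDiff.comp contDiff_snd.neg
      exact ((((r1.sub r2).pow 2).add (i1.pow 2)).add (i2.pow 2)).contDiffAt.div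
        ((contDiff_const.mul i1).mul i2).contDiffAt
        (mul_pos (mul_pos two_pos (hsim p hp)) hx).ne'
    · have hxk : x ∉ (fun w : ℍ => -(w : ℂ)) '' Kc := by
        rintro ⟨w, -, rfl⟩
        exact hx (by simpa using w.im_pos)
      have e : ↿g =ᶠ[𝓝 (p, x)] fun _ => 0 := by
        filter_upwards [(hso.prod hk.isClosed.isOpen_compl).mem_nhds (Set.mk_mem_prod hp hxk)]
          with q hq using hgs q.1 q.2 hq.1 hq.2
      exact contDiffAt_const.congr_of_eventuallyEq e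
  have key := contDiffOn_convolution_right_with_param_comp (ContinuousLinearMap.mul ℝ ℂ)
    (v := fun _ : ℂ => (0 : ℂ)) contDiffOn_const hso hk hgs hfi hgd
  refine (key.contDiffAt (hso.mem_nhds hs0)).congr_of_eventuallyEq ?_
  filter_upwards [hso.mem_nhds hs0] with p hp
  simp only [convolution, hμ', measurableEmbedding_coe.integral_map, ofComplex_apply,
    ContinuousLinearMap.mul_apply', hg, zero_sub, neg_neg, coe_im, im_pos, if_true]
  rw [setIntegral_eq_integral_of_forall_compl_eq_zero]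
  · simp only [mul_comm]
  · intro w hw
    simp [h _ (local_supp hR z₀ hp hw)]

/-- The radial part of the hyperbolic Laplace operator. -/
noncomputable def Dk (κ : ℝ → ℝ) (u : ℝ) : ℝ :=
  -((u ^ 2 - 1) * deriv (deriv κ) u + 2 * u * deriv κ u)

theorem Dk_cont {κ : ℝ → ℝ} (hκ : ContDiff ℝ ∞ κ) : Continuous (Dk κ) := by
  have hκ1 : ContDiff ℝ ∞ (deriv κ) := hκ.iterate_deriv 1
  have hκ2 : ContDiff ℝ ∞ (deriv (deriv κ)) := hκ1.iterate_deriv 1
  have := hκ1.continuous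
  have := hκ2.continuous
  unfold Dk
  fun_prop

theorem Dk_zero {κ : ℝ → ℝ} {c : ℝ} (h : ∀ u, c < u → κ u = 0) : ∀ u, c < u → Dk κ u = 0 := by
  intro u hu
  simp [Dk, deriv_zero_of_gt h u hu, deriv_zero_of_gt (deriv_zero_of_gt h) u hu]

theorem laplace_int {κ : ℝ → ℝ} (hκ : ContDiff ℝ ∞ κ) {R : ℝ} (hR : 0 < R)
    (h : ∀ u, Real.cosh (R / 2) < u → κ u = 0) {f : ℍ → ℂ} (hf : Continuous f) {ζ : ℂ}
    (hζ : 0 < ζ.im) :
    -((ζ.im : ℂ)) ^ 2 *
      (deriv (deriv fun t : ℝ => ∫ w : ℍ, (κ (uu (ζ + t) w) : ℂ) * f w) 0 +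
        deriv (deriv fun t : ℝ => ∫ w : ℍ, (κ (uu (ζ + t * Complex.I) w) : ℂ) * f w) 0)
      = ∫ w : ℍ, (Dk κ (uu ζ w) : ℂ) * f w := by
  set z₀ : ℍ := ⟨ζ, hζ⟩
  set s : Set ℂ := (↑) '' ball z₀ 1 with hs
  have hso : IsOpen s := isOpenEmbedding_coe.isOpenMap _ isOpen_ball
  have hs0 : ζ ∈ s := ⟨z₀, mem_ball_self one_pos, rfl⟩
  have hsim : ∀ p ∈ s, 0 < p.im := by rintro _ ⟨z, -, rfl⟩; exact z.im_pos
  have hK : IsCompact (closedBall z₀ (R + 1)) := isCompact_closedBall _ _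
  have hre : Continuous fun p : ℝ × ℍ => p.2.re := continuous_re.comp continuous_snd
  have him : Continuous fun p : ℝ × ℍ => p.2.im := continuous_im.comp continuous_snd
  have e1 : ∀ (t : ℝ) (w : ℍ), uu (ζ + t) w
      = ((ζ.re + t - w.re) ^ 2 + ζ.im ^ 2 + w.im ^ 2) / (2 * ζ.im * w.im) := by
    intro t w; simp [uu]
  have e2 : ∀ (t : ℝ) (w : ℍ), uu (ζ + t * Complex.I) w
      = ((ζ.re - w.re) ^ 2 + (ζ.im + t) ^ 2 + w.im ^ 2) / (2 * (ζ.im + t) * w.im) := by
    intro t w; simp [uu]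
  obtain ⟨i1, d1⟩ := second_deriv_param hκ h (a := fun t w => uu (ζ + t) w)
    (a' := fun t w => (ζ.re + t - w.re) / (ζ.im * w.im)) (a'' := fun t w => 1 / (ζ.im * w.im))
    (s := (fun t : ℝ => ζ + t) ⁻¹' s) (hso.preimage (by fun_prop)) (by simpa using hs0) hK
    (by
      simp only [e1]
      exact Continuous.continuousOn (Continuous.div (by fun_prop) (by fun_prop)
        fun p => (mul_pos (mul_pos two_pos hζ) p.2.im_pos).ne'))
    (Continuous.continuousOn (Continuous.div (by fun_prop) (by fun_prop)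
        fun p => (mul_pos hζ p.2.im_pos).ne'))
    (Continuous.continuousOn (Continuous.div (by fun_prop) (by fun_prop)
        fun p => (mul_pos hζ p.2.im_pos).ne'))
    (fun t _ w => by
      simp only [e1]
      have := ((((((hasDerivAt_id t).const_add ζ.re).sub_const w.re).pow 2).add_const
        (ζ.im ^ 2)).add_const (w.im ^ 2)).div_const (2 * ζ.im * w.im)
      refine this.congr_deriv ?_
      have := w.im_pos.ne'
      have := hζ.ne'
      simp only [id]; field_simp; simp; ring)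
    (fun t _ w => (((hasDerivAt_id t).const_add ζ.re).sub_const w.re).div_const (ζ.im * w.im))
    (fun t ht w hw => local_supp hR z₀ ht hw) hf
  have hpos : ∀ t ∈ (fun t : ℝ => ζ + t * Complex.I) ⁻¹' s, 0 < ζ.im + t := fun t ht => by
    simpa using hsim _ ht
  obtain ⟨i2, d2⟩ := second_deriv_param hκ h (a := fun t w => uu (ζ + t * Complex.I) w)
    (a' := fun t w => 1 / (2 * w.im) - ((ζ.re - w.re) ^ 2 + w.im ^ 2) / (2 * w.im * (ζ.im + t) ^ 2))
    (a'' := fun t w => ((ζ.re - w.re) ^ 2 + w.im ^ 2) / (w.im * (ζ.im + t) ^ 3))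
    (s := (fun t : ℝ => ζ + t * Complex.I) ⁻¹' s) (hso.preimage (by fun_prop))
    (by simpa using hs0) hK
    (by
      simp only [e2]
      exact ContinuousOn.div (by fun_prop) (by fun_prop)
        fun p hp => (mul_pos (mul_pos two_pos (hpos _ hp.1)) p.2.im_pos).ne')
    (ContinuousOn.sub (ContinuousOn.div (by fun_prop) (by fun_prop)
        fun p _ => (mul_pos two_pos p.2.im_pos).ne')
      (ContinuousOn.div (by fun_prop) (by fun_prop)
        fun p hp => (mul_pos (mul_pos two_pos p.2.im_pos) (pow_pos (hpos _ hp.1) 2)).ne'))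
    (ContinuousOn.div (by fun_prop) (by fun_prop)
        fun p hp => (mul_pos p.2.im_pos (pow_pos (hpos _ hp.1) 3)).ne')
    (fun t ht w => by
      simp only [e2]
      have hp := (hpos t ht).ne'
      have hw := w.im_pos.ne'
      have hl := (hasDerivAt_id t).const_add ζ.im
      have := (((hl.pow 2).const_add ((ζ.re - w.re) ^ 2)).add_const (w.im ^ 2)).div
        ((hl.const_mul 2).mul_const w.im) (by simp only [id]; positivity)
      refine this.congr_deriv ?_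
      simp only [id, Pi.pow_apply]; field_simp; simp; ring)
    (fun t ht w => by
      have hp := (hpos t ht).ne'
      have hw := w.im_pos.ne'
      have hl := (hasDerivAt_id t).const_add ζ.im
      have := ((hasDerivAt_const t ((ζ.re - w.re) ^ 2 + w.im ^ 2)).div
        ((hl.pow 2).const_mul (2 * w.im)) (by simp only [id, Pi.pow_apply]; positivity)).const_sub
        (1 / (2 * w.im))
      refine this.congr_deriv ?_
      simp only [id, Pi.pow_apply]; field_simp; simp; ring)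
    (fun t ht w hw => local_supp hR z₀ ht hw) hf
  rw [d1, d2, ← integral_add i1 i2, ← integral_const_mul]
  congr 1
  funext w
  simp only [Complex.ofReal_zero, add_zero, zero_mul]
  rw [← add_mul, ← mul_assoc]
  congr 1
  rw [← Complex.ofReal_add, ← Complex.ofReal_pow, ← Complex.ofReal_neg, ← Complex.ofReal_mul]
  congr 1
  have hw := w.im_pos.ne'
  have := hζ.ne'
  simp only [Dk]
  generalize deriv (deriv κ) (uu ζ w) = A
  generalize deriv κ (uu ζ w) = B
  simp only [uu, coe_re, coe_im]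
  field_simp
  ring

end Pool.Agent.H26Z.Mf
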