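import Pool.Agent.H26Z.MfHecke

/-! The Banach space of odd invariant bounded continuous functions and a joint eigenfunction. -/

set_option autoImplicit false

namespace Pool.Agent.H26Z.Mf

open Filter Topology MeasureTheory UpperHalfPlane Metric ModularGroup Module
open scoped ENNReal NNReal MatrixGroups ComplexConjugate Modular BoundedContinuousFunction
  InnerProductSpace

/-- Odd invariant bounded continuous functions. -/
def XX : Submodule ℂ (ℍ →ᵇ ℂ) where
  carrier := {f | Inv f ∧ Odd' f}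
  add_mem' := fun {f g} hf hg => ⟨fun γ z => by simp [hf.1 γ z, hg.1 γ z, -sl_moeb],
    fun z => by simp [hf.2 z, hg.2 z, add_comm]⟩
  zero_mem' := ⟨fun γ z => by simp, fun z => by simp⟩
  smul_mem' := fun c f hf => ⟨fun γ z => by simp [hf.1 γ z, -sl_moeb], fun z => by simp [hf.2 z]⟩

theorem isClosed_XX : IsClosed (XX : Set (ℍ →ᵇ ℂ)) := by
  have : (XX : Set (ℍ →ᵇ ℂ)) = (⋂ (γ : SL(2, ℤ)) (z : ℍ), {f : ℍ →ᵇ ℂ | f (γ • z) = f z}) ∩
      ⋂ z : ℍ, {f : ℍ →ᵇ ℂ | f (J • z) = -f z} := by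
    ext f; simp only [Set.mem_inter_iff, Set.mem_iInter]; rfl
  rw [this]
  exact (isClosed_iInter fun γ => isClosed_iInter fun z => isClosed_eq
    (continuous_eval_const _) (continuous_eval_const _)).inter
    (isClosed_iInter fun z => isClosed_eq (continuous_eval_const _) (continuous_eval_const _).neg)

instance : CompleteSpace XX := isClosed_XX.completeSpace_coe

theorem T_inv (k : Ker) {f : ℍ → ℂ} (hf : Inv f) : Inv (k.T f) := fun γ z => by
  rw [sl_moeb, k.T_smul]
  congr 1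
  funext w
  exact hf γ w

theorem T_odd (k : Ker) {f : ℍ → ℂ} (hf : Odd' f) : Odd' (k.T f) := fun z => by
  rw [k.T_smul]
  simp only [Ker.T, hf _, mul_neg, integral_neg]

/-- Packaging a function as an element of the space. -/
noncomputable def mkX (f : ℍ → ℂ) (hc : Continuous f) (B : ℝ) (hB : ∀ z, ‖f z‖ ≤ B) (hi : Inv f)
    (ho : Odd' f) : XX :=
  ⟨BoundedContinuousFunction.ofNormedAddCommGroup f hc B hB, hi, ho⟩

theorem X_ext {f g : XX} (h : ∀ z, f.1 z = g.1 z) : f = g :=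
  Subtype.ext (BoundedContinuousFunction.ext h)

theorem X_int (k : Ker) (f : XX) (z : ℍ) : Integrable fun w => k.kf z w * f.1 w :=
  k.integrable_mul z f.1.continuous.aestronglyMeasurable f.1.norm_coe_le_norm

/-- The invariant operator as a linear map. -/
noncomputable def TL (k : Ker) : XX →ₗ[ℂ] XX where
  toFun f := mkX (k.T f.1) (k.T_cont f.1.continuous.aestronglyMeasurable f.1.norm_coe_le_norm)
    (k.exists_T_bound.choose * ‖f.1‖) (k.exists_T_bound.choose_spec.2 _ _ f.1.norm_coe_le_norm)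
    (T_inv k f.2.1) (T_odd k f.2.2)
  map_add' f g := X_ext fun z => by
    change k.T (f.1 + g.1) z = k.T f.1 z + k.T g.1 z
    simp only [Ker.T, Pi.add_apply, mul_add]
    exact integral_add (X_int k f z) (X_int k g z)
  map_smul' c f := X_ext fun z => by
    change k.T (c • f.1) z = c • k.T f.1 z
    simp only [Ker.T, Pi.smul_apply, smul_eq_mul, ← integral_const_mul, mul_left_comm c]

theorem TL_apply (k : Ker) (f : XX) (z : ℍ) : (TL k f).1 z = k.T f.1 z := rfl

/-- The invariant operator as a continuous linear map. -/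
noncomputable def TX (k : Ker) : XX →L[ℂ] XX :=
  (TL k).mkContinuous k.exists_T_bound.choose fun f =>
    (BoundedContinuousFunction.norm_le (mul_nonneg k.exists_T_bound.choose_spec.1
      (norm_nonneg _))).2 (k.exists_T_bound.choose_spec.2 _ _ f.1.norm_coe_le_norm)

theorem TX_apply (k : Ker) (f : XX) (z : ℍ) : (TX k f).1 z = k.T f.1 z := rfl

/-- The Hecke operator as a linear map. -/
noncomputable def HL (p : Nat.Primes) : XX →ₗ[ℂ] XX where
  toFun f := mkX (hk p f.1) (hk_cont f.1.continuous p) _ (hk_bound f.1.norm_coe_le_norm p)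
    (f.2.1.hk p.2) (f.2.2.hk f.2.1 p.2.pos)
  map_add' f g := X_ext fun z => by
    change hk p (f.1 + g.1) z = hk p f.1 z + hk p g.1 z
    simp only [hk, Pi.add_apply, Finset.sum_add_distrib]; ring
  map_smul' c f := X_ext fun z => by
    change hk p (c • f.1) z = c • hk p f.1 z
    simp only [hk, Pi.smul_apply, smul_eq_mul, mul_add, Finset.mul_sum]

theorem HL_apply (p : Nat.Primes) (f : XX) (z : ℍ) : (HL p f).1 z = hk p f.1 z := rfl

theorem odd_axis {f : ℍ → ℂ} (hf : Odd' f) (z : ℍ) (hz : z.re = 0) : f z = 0 := by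
  have : J • z = z := by
    ext1
    rw [coe_J_smul]
    apply Complex.ext <;> simp [hz]
  have h := hf z
  rw [this] at h
  linear_combination h / 2

theorem TX_compact (k : Ker) : IsCompactOperator (TX k) := by
  refine (isCompactOperator_iff_isCompact_closure_image_ball (TX k).toLinearMap one_pos).2 ?_
  refine TotallyBounded.isCompact_of_isClosed (TotallyBounded.closure ?_) isClosed_closure
  refine totallyBounded_of_finite_discretization fun ε hε => ?_
  obtain ⟨C, hC0, hC⟩ := k.exists_T_bound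
  obtain ⟨δ, hδ, hd⟩ := k.T_equicont (ε := ε / 5) (by positivity)
  obtain ⟨P, -, hP, hPc⟩ := finite_cover_balls_of_compact
    (isCompact_truncatedFundamentalDomain (1 / δ)) hδ
  obtain ⟨Q, -, hQ, hQc⟩ := finite_cover_balls_of_compact
    (isCompact_closedBall (0 : ℂ) C) (e := ε / 5) (by positivity)
  have hfam : ∀ x : (TX k).toLinearMap '' ball 0 1, (∀ z, ‖x.1.1 z‖ ≤ C) ∧
      ∀ z z', dist z z' < δ → ‖x.1.1 z - x.1.1 z'‖ ≤ ε / 5 := by
    rintro ⟨_, f, hf, rfl⟩
    have h1 : ∀ w, ‖f.1 w‖ ≤ 1 := fun w =>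
      (f.1.norm_coe_le_norm w).trans (by simpa using (mem_ball_zero_iff.1 hf).le)
    exact ⟨fun z => (hC f.1 1 h1 z).trans_eq (mul_one _), fun z z' hz =>
      (hd f.1 1 f.1.continuous.aestronglyMeasurable h1 z z' hz).trans_eq (mul_one _)⟩
  have hch : ∀ (x : (TX k).toLinearMap '' ball 0 1) (p : P), ∃ q : Q, dist (x.1.1 p) q < ε / 5 := by
    intro x p
    obtain ⟨q, hq, h⟩ := Set.mem_iUnion₂.1 (hQc (mem_closedBall_zero_iff.2 ((hfam x).1 p)))
    exact ⟨⟨q, hq⟩, h⟩
  choose F hF using hch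
  have := hP.fintype
  have := hQ.fintype
  classical
  refine ⟨P → Q, inferInstance, F, fun x y hxy => ?_⟩
  refine lt_of_le_of_lt (b := 4 * (ε / 5)) ?_ (by linarith)
  change dist x.1.1 y.1.1 ≤ _
  refine (BoundedContinuousFunction.dist_le (by positivity)).2 fun z => ?_
  obtain ⟨γ, hγ⟩ := exists_smul_mem_fd z
  rw [← x.1.2.1 γ z, ← y.1.2.1 γ z]
  set w := γ • z
  by_cases hw : w.im ≤ 1 / δ
  · obtain ⟨p, hp, h⟩ := Set.mem_iUnion₂.1 (hPc (show w ∈ _ from ⟨hγ, hw⟩))
    have h1 := (hfam x).2 w p h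
    have h2 := (hfam y).2 w p h
    have h3 := hF x ⟨p, hp⟩
    have h4 := hF y ⟨p, hp⟩
    rw [hxy] at h3
    rw [← dist_eq_norm] at h1 h2
    have h5 := dist_triangle_right (x.1.1 p) (y.1.1 p) (F y ⟨p, hp⟩)
    have h6 := dist_triangle4 (x.1.1 w) (x.1.1 p) (y.1.1 p) (y.1.1 w)
    rw [dist_comm (y.1.1 p)] at h6
    simp only at h3 h4
    linarith
  · have hw' := not_le.1 hw
    set v : ℍ := ⟨(w.im : ℂ) * Complex.I, by simpa using w.im_pos⟩ with hv
    have hvd : dist w v < δ := by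
      refine (dist_le_dist_coe_div_sqrt w v).trans_lt ?_
      have e1 : v.im = w.im := by
        change ((w.im : ℂ) * Complex.I).im = _
        simp
      have e2 : dist (w : ℂ) v = |w.re| := by
        rw [Complex.dist_eq]
        have : (w : ℂ) - v = (w.re : ℂ) := by apply Complex.ext <;> simp [hv]
        rw [this, Complex.norm_real, Real.norm_eq_abs]
      rw [e1, e2, Real.sqrt_mul_self w.im_pos.le, div_lt_iff₀ w.im_pos]
      rw [div_lt_iff₀ hδ] at hw'
      have := hγ.2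
      nlinarith
    have hvre : v.re = 0 := by
      change ((w.im : ℂ) * Complex.I).re = _
      simp
    have h1 := (hfam x).2 w v hvd
    have h2 := (hfam y).2 w v hvd
    rw [odd_axis x.1.2.2 v hvre, sub_zero] at h1
    rw [odd_axis y.1.2.2 v hvre, sub_zero] at h2
    rw [dist_eq_norm]
    have := norm_sub_le (x.1.1 w) (y.1.1 w)
    linarith

/-- The embedding in the square integrable functions. -/
noncomputable def iota : XX →L[ℂ] Lp ℂ 2 mq :=
  (BoundedContinuousFunction.toLp 2 mq ℂ).comp XX.subtypeL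

theorem iota_symm (k : Ker) (f g : XX) :
    ⟪iota (TX k f), iota g⟫_ℂ = ⟪iota f, iota (TX k g)⟫_ℂ := by
  simp only [iota, ContinuousLinearMap.comp_apply, Submodule.subtypeL_apply,
    BoundedContinuousFunction.inner_toLp, TX_apply]
  have := T_symm k (f := fun z => conj (f.1 z)) (g := g.1)
    (Complex.continuous_conj.comp f.1.continuous) g.1.continuous (B := max ‖f.1‖ ‖g.1‖)
    (fun w => by simpa using Or.inl (f.1.norm_coe_le_norm w))
    (fun w => by simpa using Or.inr (g.1.norm_coe_le_norm w))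
    (fun γ z => by rw [f.2.1 γ z]) g.2.1
  rw [← this]
  congr 1
  funext z
  congr 1
  simp only [Ker.T, ← integral_conj, map_mul, Ker.kf, Complex.conj_ofReal]

theorem iota_ne {f : XX} (hf : f ≠ 0) : iota f ≠ 0 := by
  intro h
  refine hf (X_ext fun z => ?_)
  have h1 := BoundedContinuousFunction.coeFn_toLp 2 mq ℂ f.1
  change (iota f : ℍ → ℂ) =ᵐ[mq] _ at h1
  rw [h] at h1
  have h2 : ∀ᵐ z ∂mq, f.1 z = 0 := by
    filter_upwards [h1, Lp.coeFn_zero ℂ 2 mq] with z h3 h4
    rw [← h3, h4]; rfl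
  exact congrFun (eq_zero_of_ae f.1.continuous f.2.1 h2) z

theorem exists_J_conj (γ : SL(2, ℤ)) : ∃ γ' : SL(2, ℤ), ∀ z : ℍ, J • γ • z = γ' • J • z := by
  refine ⟨⟨!![γ 0 0, -γ 0 1; -γ 1 0, γ 1 1], by
    have := γ.det_coe
    rw [Matrix.det_fin_two] at this
    rw [Matrix.det_fin_two_of]; linarith⟩, fun z => ?_⟩
  ext1
  rw [coe_J_smul, coe_specialLinearGroup_apply, coe_specialLinearGroup_apply, coe_J_smul]
  simp [neg_div']
  ring

theorem exists_test : ∃ (z₀ : ℍ) (r : ℝ) (f : ℍ → ℂ), 0 < r ∧ AEStronglyMeasurable f ∧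
    (∀ w, ‖f w‖ ≤ 1) ∧ Inv f ∧ Odd' f ∧ ∀ w ∈ ball z₀ r, f w = 1 := by
  set A : Set ℍ := 𝒟ᵒ ∩ {z | 0 < z.re} with hA
  have hAo : IsOpen A := isOpen_fdo.inter (isOpen_lt continuous_const continuous_re)
  set U : Set ℍ := ⋃ γ : SL(2, ℤ), (fun z => γ • z) ⁻¹' A with hU
  have hUo : IsOpen U := isOpen_iUnion fun γ =>
    hAo.preimage (continuous_const_smul (γ : GL (Fin 2) ℝ))
  have hUi : ∀ (γ : SL(2, ℤ)) z, γ • z ∈ U ↔ z ∈ U := by
    intro γ z
    simp only [hU, Set.mem_iUnion, Set.mem_preimage]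
    exact ⟨fun ⟨g, hg⟩ => ⟨g * γ, by rwa [mul_smul]⟩,
      fun ⟨g, hg⟩ => ⟨g * γ⁻¹, by rwa [mul_smul, inv_smul_smul]⟩⟩
  have hJJ : ∀ z : ℍ, J • J • z = z := fun z => by rw [← mul_smul, ← sq, J_sq, one_smul]
  set z₀ : ℍ := ⟨1 / 4 + 2 * Complex.I, by simp⟩ with hz₀
  have hre : z₀.re = 1 / 4 := by
    change (1 / 4 + 2 * Complex.I : ℂ).re = _
    simp
  have hz₀A : z₀ ∈ A := by
    refine ⟨⟨?_, ?_⟩, ?_⟩
    · simp [hz₀, Complex.normSq_apply]; norm_num
    · rw [hre]; norm_num [abs_lt]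
    · change 0 < z₀.re
      rw [hre]; norm_num
  obtain ⟨r, hr, hrA⟩ := Metric.isOpen_iff.1 hAo z₀ hz₀A
  refine ⟨z₀, r, fun z => U.indicator 1 z - U.indicator 1 (J • z), hr, ?_, fun w => ?_,
    fun γ z => ?_, fun z => ?_, fun w hw => ?_⟩
  · have hm : Measurable (U.indicator (1 : ℍ → ℂ)) := measurable_one.indicator hUo.measurableSet
    exact (hm.sub (hm.comp (gl_mp J).measurable)).aestronglyMeasurable
  · by_cases h1 : w ∈ U <;> by_cases h2 : J • w ∈ U <;> simp [h1, h2]
  · obtain ⟨γ', h⟩ := exists_J_conj γ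
    have e : ∀ (g : SL(2, ℤ)) w, U.indicator (1 : ℍ → ℂ) (g • w) = U.indicator 1 w := by
      intro g w
      by_cases hw : w ∈ U
      · simp [hw, (hUi g w).2 hw, -sl_moeb]
      · have := mt (hUi g w).1 hw
        simp [hw, this, -sl_moeb]
    simp only [h, e]
  · simp only [hJJ]; ring
  · have hwA := hrA hw
    have h1 : w ∈ U := Set.mem_iUnion.2 ⟨1, by simpa [-sl_moeb] using hwA⟩
    have h2 : J • w ∉ U := by
      intro h
      obtain ⟨γ, hγ⟩ := Set.mem_iUnion.1 h
      have hre : (J • w).re = -w.re := by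
        rw [← coe_re, coe_J_smul]; simp
      have hJ : J • w ∈ 𝒟ᵒ := by
        refine ⟨?_, ?_⟩
        · rw [coe_J_smul]; simpa using hwA.1.1
        · rw [hre, abs_neg]; exact hwA.1.2
      have := eq_smul_self_of_mem_fdo_mem_fdo hJ hγ.1
      have h3 : 0 < (γ • J • w).re := hγ.2
      rw [← this, hre] at h3
      have : 0 < w.re := hwA.2
      linarith
    simp [h1, h2]

theorem exists_radius : ∃ r > 0, ∀ k : Ker, k.R ≤ r → (∀ t, 0 ≤ k.K t) → 0 < k.K 0 →
    ∃ f : XX, TX k f ≠ 0 := by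
  obtain ⟨z₀, r, f, hr, hm, hB, hi, ho, h1⟩ := exists_test
  refine ⟨r / 3, by positivity, fun k hk hK hK0 => ?_⟩
  obtain ⟨C, -, hC⟩ := k.exists_T_bound
  refine ⟨mkX (k.T f) (k.T_cont hm hB) _ (hC f 1 hB) (T_inv k hi) (T_odd k ho), fun h => ?_⟩
  have h2 : k.T (k.T f) z₀ = 0 := congrArg (fun g : XX => g.1 z₀) h
  set c : ℂ := k.T (fun _ => 1) I with hc
  have hc' : ∀ z, k.T (fun _ => 1) z = c := fun z => by
    obtain ⟨g, hg⟩ := MulAction.exists_smul_eq (GL (Fin 2) ℝ) I z
    rw [← hg, k.T_smul]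
  have hloc : ∀ (g : ℍ → ℂ) (a : ℂ) (z : ℍ), (∀ w, dist z w < r / 3 → g w = a) →
      k.T g z = c * a := by
    intro g a z hg
    rw [← hc' z]
    simp only [Ker.T, ← integral_mul_const]
    congr 1
    funext w
    by_cases hw : dist z w < r / 3
    · rw [hg w hw, mul_one]
    · simp [k.kf_zero (hk.trans (not_lt.1 hw))]
  have h3 := hloc (k.T f) (c * 1) z₀ fun w hw => hloc f 1 w fun v hv => h1 v (by
    have := dist_triangle z₀ w v
    rw [mem_ball, dist_comm]; linarith)
  have hcpos : 0 < ∫ w, k.K (dist I w) := by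
    refine Continuous.integral_pos_of_hasCompactSupport_nonneg_nonzero
      (k.cont.comp (continuous_const.dist continuous_id)) ?_ (fun w => hK _) (x := I)
      (by simpa using hK0.ne')
    exact HasCompactSupport.intro (isCompact_closedBall I k.R) fun w hw =>
      k.zero _ (by rw [mem_closedBall, not_le, dist_comm] at hw; exact hw.le)
  have hc0 : c ≠ 0 := by
    simp only [hc, Ker.T, Ker.kf, mul_one, integral_complex_ofReal]
    exact_mod_cast hcpos.ne'
  rw [h2] at h3
  simp [hc0] at h3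

theorem exists_joint (k k' : Ker) (f₀ : XX) (h₀ : TX k f₀ ≠ 0) :
    ∃ (f : XX) (μ μ' : ℂ) (c : ℕ → ℂ), f ≠ 0 ∧ μ ≠ 0 ∧ (∀ z, k.T f.1 z = μ * f.1 z) ∧
      (∀ z, k'.T f.1 z = μ' * f.1 z) ∧ ∀ p : ℕ, p.Prime → ∀ z, hk p f.1 z = c p * f.1 z := by
  obtain ⟨μ, hμ, hev⟩ := exists_eigen_of_symm iota (TX k) (TX_compact k) (iota_symm k) f₀
    (iota_ne h₀)
  have := finite_eigenspace (TX k) (TX_compact k) μ hμ
  have hTH : ∀ (k : Ker) (p : Nat.Primes) (f : XX), HL p (TL k f) = TL k (HL p f) :=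
    fun k p f => X_ext fun z => hk_T k f.1.continuous f.1.norm_coe_le_norm p z
  obtain ⟨f, hfV, hf0, hf⟩ := common_eigenvector
    (fun i : Option Nat.Primes => (i.elim (TL k') HL : End ℂ XX)) (by
      rintro (_ | p) (_ | q)
      · rfl
      · exact LinearMap.ext fun f => (hTH k' q f).symm
      · exact LinearMap.ext fun f => hTH k' p f
      · exact LinearMap.ext fun f => X_ext fun z => f.2.1.hk_comm p.2 q.2 z)
    (End.eigenspace (TX k).toLinearMap μ) hev (by
      intro i v hv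
      rw [End.mem_eigenspace_iff] at hv ⊢
      change TL k v = _ at hv
      change TL k _ = _
      rcases i with _ | p
      · have : TL k (TL k' v) = TL k' (TL k v) := X_ext fun z => k.T_comm k' v.1.continuous z
        simp only [Option.elim]
        rw [this, hv, map_smul]
      · simp only [Option.elim]
        rw [← hTH, hv, map_smul])
  choose c hc using hf
  rw [End.mem_eigenspace_iff] at hfV
  refine ⟨f, μ, c none, fun p => if h : p.Prime then c (some ⟨p, h⟩) else 0, hf0, hμ,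
    fun z => congrArg (fun g : XX => g.1 z) hfV, fun z => congrArg (fun g : XX => g.1 z) (hc none),
    fun p hp z => ?_⟩
  simp only [hp, dif_pos]
  exact congrArg (fun g : XX => g.1 z) (hc (some ⟨p, hp⟩))

end Pool.Agent.H26Z.Mf
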