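import Pool.Agent.H26Z.MfOp

/-! The finite invariant measure for the modular group and symmetry of invariant operators. -/

set_option autoImplicit false

namespace Pool.Agent.H26Z.Mf

open Filter Topology MeasureTheory UpperHalfPlane Metric ModularGroup
open scoped ENNReal NNReal MatrixGroups ComplexConjugate Modular

instance : Countable SL(2, ℤ) := by
  have : Countable (Matrix (Fin 2) (Fin 2) ℤ) := inferInstanceAs (Countable (Fin 2 → Fin 2 → ℤ))
  exact Subtype.countable

theorem sl_mp (g : SL(2, ℤ)) : MeasurePreserving (fun z : ℍ => g • z) volume volume :=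
  gl_mp (g : GL (Fin 2) ℝ)

theorem sl_dist (g : SL(2, ℤ)) (z w : ℍ) : dist (g • z) (g • w) = dist z w :=
  gl_dist (g : GL (Fin 2) ℝ) z w

theorem vol_fd : volume (𝒟 : Set ℍ) < ∞ := by
  rw [volume_eq_lintegral]
  have hsub : ((↑) '' (𝒟 : Set ℍ) : Set ℂ) ⊆
      Complex.measurableEquivRealProd ⁻¹' (Set.Icc (-1 : ℝ) 1 ×ˢ Set.Ioi (1 / 2 : ℝ)) := by
    rintro _ ⟨z, hz, rfl⟩
    have h1 := three_le_four_mul_im_sq_of_mem_fd hz
    have h2 := abs_le.1 hz.2
    have h3 := z.im_pos
    simp only [Set.mem_preimage, Complex.measurableEquivRealProd_apply, Set.mem_prod, Set.mem_Icc,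
      Set.mem_Ioi, coe_re, coe_im]
    refine ⟨⟨by linarith, by linarith⟩, by nlinarith⟩
  refine (lintegral_mono_set hsub).trans_lt ?_
  have h := Complex.volume_preserving_equiv_real_prod.setLIntegral_comp_preimage_emb
    Complex.measurableEquivRealProd.measurableEmbedding
    (fun p : ℝ × ℝ => (((1 / ‖p.2‖₊) ^ 2 : ℝ≥0) : ℝ≥0∞)) (Set.Icc (-1 : ℝ) 1 ×ˢ Set.Ioi (1 / 2 : ℝ))
  simp only [Complex.measurableEquivRealProd_apply] at h
  rw [h, Measure.volume_eq_prod, ← Measure.prod_restrict,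
    lintegral_prod _ (by fun_prop)]
  simp only [lintegral_const, Measure.restrict_apply MeasurableSet.univ, Set.univ_inter]
  refine ENNReal.mul_lt_top ?_ (by simp)
  have hi := (integrableOn_Ioi_rpow_of_lt (a := -2) (by norm_num) (c := 1 / 2) (by norm_num)).2
  refine lt_of_le_of_lt (le_of_eq ?_) hi
  refine setLIntegral_congr_fun measurableSet_Ioi fun y hy => ?_
  have hy0 : 0 < y := lt_trans (by norm_num) hy
  simp only [enorm_eq_nnnorm, ENNReal.coe_inj]
  ext
  rw [coe_nnnorm, Real.norm_of_nonneg (Real.rpow_nonneg hy0.le _), Real.rpow_neg hy0.le]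
  simp

/-- The number of translates in the closed fundamental domain. -/
noncomputable def cnt (z : ℍ) : ℝ≥0∞ := ∑' g : SL(2, ℤ), (𝒟 : Set ℍ).indicator 1 (g • z)

/-- The partition of unity. -/
noncomputable def phi (z : ℍ) : ℝ≥0∞ := (𝒟 : Set ℍ).indicator 1 z / cnt z

theorem cnt_smul (g : SL(2, ℤ)) (z : ℍ) : cnt (g • z) = cnt z := by
  unfold cnt
  simp only [← mul_smul]
  exact (Equiv.mulRight g).tsum_eq fun h => (𝒟 : Set ℍ).indicator (1 : ℍ → ℝ≥0∞) (h • z)

theorem one_le_cnt (z : ℍ) : 1 ≤ cnt z := by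
  obtain ⟨g, hg⟩ := exists_smul_mem_fd z
  refine le_trans (le_of_eq ?_) (ENNReal.le_tsum g)
  simp [hg, -sl_moeb]

theorem cnt_ne_top (z : ℍ) : cnt z ≠ ∞ := by
  obtain ⟨g, hg⟩ := exists_smul_mem_fd z
  rw [← cnt_smul g]
  unfold cnt
  rw [tsum_eq_sum (s := {1, -1, T, -T, T⁻¹, -T⁻¹, S, -S, T * S, -(T * S), T⁻¹ * S * T⁻¹,
    -(T⁻¹ * S * T⁻¹), S * T⁻¹, -(S * T⁻¹), S * T, -(S * T), T * S * T, -(T * S * T), T⁻¹ * S,
    -(T⁻¹ * S)})]
  · refine (ENNReal.sum_lt_top.2 fun h _ => ?_).ne
    exact (Set.indicator_le_self _ _ _).trans_lt (by simp)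
  · intro h hh
    refine Set.indicator_of_notMem (fun hm => hh ?_) _
    have := cases_of_mem_fd_smul_mem_fd hg hm
    simp only [Finset.mem_insert, Finset.mem_singleton]
    tauto

theorem measurable_cnt : Measurable cnt :=
  Measurable.ennreal_tsum fun g =>
    (measurable_one.indicator isClosed_fd.measurableSet).comp (sl_mp g).measurable

theorem measurable_phi : Measurable phi :=
  (measurable_one.indicator isClosed_fd.measurableSet).div measurable_cnt

theorem tsum_phi (z : ℍ) : ∑' g : SL(2, ℤ), phi (g • z) = 1 := by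
  simp only [phi, cnt_smul, div_eq_mul_inv]
  rw [ENNReal.tsum_mul_right]
  exact ENNReal.mul_inv_cancel (lt_of_lt_of_le one_pos (one_le_cnt z)).ne' (cnt_ne_top z)

theorem phi_le (z : ℍ) : phi z ≤ (𝒟 : Set ℍ).indicator 1 z := by
  unfold phi
  calc _ ≤ (𝒟 : Set ℍ).indicator 1 z / 1 := ENNReal.div_le_div_left (one_le_cnt z) _
    _ = _ := div_one _

/-- The finite measure representing the quotient. -/
noncomputable def mq : Measure ℍ := volume.withDensity phi

instance : IsFiniteMeasure mq := by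
  refine isFiniteMeasure_withDensity (ne_of_lt ?_)
  refine (lintegral_mono phi_le).trans_lt ?_
  rw [lintegral_indicator_one isClosed_fd.measurableSet]
  exact vol_fd

theorem T_symm (k : Ker) {f g : ℍ → ℂ} (hf : Continuous f) (hg : Continuous g) {B : ℝ}
    (hfB : ∀ w, ‖f w‖ ≤ B) (hgB : ∀ w, ‖g w‖ ≤ B)
    (hfi : ∀ (γ : SL(2, ℤ)) z, f (γ • z) = f z) (hgi : ∀ (γ : SL(2, ℤ)) z, g (γ • z) = g z) :
    ∫ z, g z * k.T f z ∂mq = ∫ z, k.T g z * f z ∂mq := by
  have hB0 : 0 ≤ B := (norm_nonneg _).trans (hfB I)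
  set Φ : ℍ × ℍ → ℂ := fun p => g p.1 * (k.kf p.1 p.2 * f p.2) with hΦ
  have hΦc : Continuous Φ := (hg.comp continuous_fst).mul (k.kf_cont.mul (hf.comp continuous_snd))
  have key := integral_partition (volume.prod volume : Measure (ℍ × ℍ))
    (fun (γ : SL(2, ℤ)) p => (γ • p.1, γ • p.2)) (fun γ => (sl_mp γ).prod (sl_mp γ))
    (fun γ p => by simp [-sl_moeb]) (fun p => phi p.1) (fun p => phi p.2)
    (measurable_phi.comp measurable_fst) (measurable_phi.comp measurable_snd)
    (fun p => tsum_phi p.1) (fun p => tsum_phi p.2) Φ hΦc.measurable (fun γ p => by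
      simp only [hΦ, hfi, hgi, Ker.kf, sl_dist])
  rw [← prod_withDensity_left measurable_phi, ← prod_withDensity_right measurable_phi] at key
  obtain ⟨C, hC0, hC⟩ := k.exists_bound
  set V := (volume (closedBall I k.R)).toReal
  have hΦb : ∀ p, ‖Φ p‖ ≤ B * (C * B) := fun p => by
    simp only [hΦ, norm_mul]
    exact mul_le_mul (hgB _) (mul_le_mul (hC _ _) (hfB _) (norm_nonneg _) hC0) (by positivity) hB0
  have hi1 : Integrable Φ (mq.prod volume) := by
    rw [integrable_prod_iff hΦc.aestronglyMeasurable]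
    refine ⟨Eventually.of_forall fun z =>
      (k.integrable_mul z hf.aestronglyMeasurable hfB).const_mul (g z), ?_⟩
    refine Integrable.of_bound hΦc.norm.aestronglyMeasurable.integral_prod_right'
      (B * (C * B) * V) (Eventually.of_forall fun z => ?_)
    have := Ker.norm_integral_le_ball z k.R (B * (C * B)) (fun w => ((‖Φ (z, w)‖ : ℝ) : ℂ))
      (fun w => by simpa using hΦb (z, w)) (fun w hw => by simp [hΦ, k.kf_zero hw.le])
    rwa [integral_complex_ofReal, Complex.norm_real] at this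
  have hi2 : Integrable Φ (volume.prod mq) := by
    rw [integrable_prod_iff' hΦc.aestronglyMeasurable]
    refine ⟨Eventually.of_forall fun w => ?_, ?_⟩
    · have := (k.integrable_mul w hg.aestronglyMeasurable hgB).mul_const (f w)
      refine this.congr (Eventually.of_forall fun z => ?_)
      simp only [hΦ, k.kf_comm z w]; ring
    refine Integrable.of_bound
      (hΦc.comp continuous_swap).norm.aestronglyMeasurable.integral_prod_right'
      (B * (C * B) * V) (Eventually.of_forall fun w => ?_)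
    have := Ker.norm_integral_le_ball w k.R (B * (C * B)) (fun z => ((‖Φ (z, w)‖ : ℝ) : ℂ))
      (fun z => by simpa using hΦb (z, w))
      (fun z hz => by simp [hΦ, k.kf_zero (dist_comm w z ▸ hz.le)])
    rwa [integral_complex_ofReal, Complex.norm_real] at this
  change ∫ p, Φ p ∂(mq.prod volume) = ∫ p, Φ p ∂(volume.prod mq) at key
  rw [integral_prod _ hi1, integral_prod_symm _ hi2] at key
  simp only [hΦ] at key
  unfold Ker.T
  simp only [← integral_const_mul, ← integral_mul_const]
  rw [key]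
  refine integral_congr_ae (Eventually.of_forall fun w => ?_)
  refine integral_congr_ae (Eventually.of_forall fun z => ?_)
  simp only [k.kf_comm z w]; ring

instance : (volume : Measure ℍ).IsOpenPosMeasure := by
  refine ⟨fun U hU hne h0 => ?_⟩
  rw [volume_eq_lintegral, setLIntegral_eq_zero_iff
    (measurableEmbedding_coe.measurableSet_image.2 hU.measurableSet) (by fun_prop)] at h0
  have hO : IsOpen ((↑) '' U : Set ℂ) := isOpenEmbedding_coe.isOpenMap _ hU
  refine hO.measure_ne_zero volume (hne.image _) ?_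
  rw [ae_iff] at h0
  refine measure_mono_null ?_ h0
  rintro _ ⟨z, hz, rfl⟩
  simp only [Set.mem_setOf_eq, Classical.not_imp]
  refine ⟨⟨z, hz, rfl⟩, ?_⟩
  simp [z.im_pos.ne']

theorem eq_zero_of_ae {h : ℍ → ℂ} (hc : Continuous h)
    (hi : ∀ (γ : SL(2, ℤ)) z, h (γ • z) = h z) (h0 : ∀ᵐ z ∂mq, h z = 0) : h = 0 := by
  rw [mq, ae_withDensity_iff measurable_phi] at h0
  have h1 : ∀ᵐ z : ℍ, ∀ γ : SL(2, ℤ), phi (γ • z) ≠ 0 → h (γ • z) = 0 :=
    ae_all_iff.2 fun γ => (sl_mp γ).quasiMeasurePreserving.ae h0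
  refine (hc.ae_eq_iff_eq volume continuous_zero).1 ?_
  filter_upwards [h1] with z hz
  by_contra hne
  have : ∀ γ : SL(2, ℤ), phi (γ • z) = 0 := fun γ => by
    by_contra h2
    exact hne (by rw [← hi γ]; exact hz γ h2)
  have h3 := tsum_phi z
  simp only [this, tsum_zero] at h3
  exact zero_ne_one h3

end Pool.Agent.H26Z.Mf
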