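import Mathlib

/-!
# The proximity function of the divisor `[0] + [1] + [∞]` on the projective line over `ℚ`
-/

set_option autoImplicit false

namespace Pool.Agent.H26Z.Voj

/-- The standard local Weil function of the divisor `D = [∞] + [0] + [1]` on `ℙ¹` at the place of
`ℚ` with normalised absolute value `v`, at the point `x ∈ ℚ \ {0, 1}`:
`log⁺ v(x) + log⁺ v(x)⁻¹ + log⁺ v(x - 1)⁻¹`. -/
noncomputable def localWeil (v : ℚ → ℝ) (x : ℚ) : ℝ :=
  Real.posLog (v x) + Real.posLog (v x)⁻¹ + Real.posLog (v (x - 1))⁻¹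

/-- The proximity function `m_S(D, x)` of `D = [∞] + [0] + [1]` for the set of places of `ℚ` that
consists of the real place and the `p`-adic places with `p ∈ S`. -/
noncomputable def proximity (S : Finset ℕ) (x : ℚ) : ℝ :=
  localWeil (fun y => |(y : ℝ)|) x + ∑ p ∈ S, localWeil (fun y => (padicNorm p y : ℝ)) x

end Pool.Agent.H26Z.Voj
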