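import Mathlib
import Pool.Agent.H26Z.VojDefs

/-!
# S-units close to one
-/

set_option autoImplicit false

open Finset Real

namespace Pool.Agent.H26Z.Voj

theorem local_padic (p : ℕ) (hp : p.Prime) (x : ℚ) (hx : x ≠ 0) :
    (x.num.natAbs.factorization p : ℝ) * log p + (x.den.factorization p : ℝ) * log p ≤
      localWeil (fun y => (padicNorm p y : ℝ)) x := by
  have := Fact.mk hp
  have hp1 : (1 : ℝ) < p := by exact_mod_cast hp.one_lt
  have hlp : 0 ≤ log (p : ℝ) := log_nonneg hp1.le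
  have h1 : ((padicNorm p x : ℚ) : ℝ) = (p : ℝ) ^ (-padicValRat p x) := by
    rw [padicNorm.eq_zpow_of_nonzero hx]; push_cast; rfl
  have h2 : log ((padicNorm p x : ℚ) : ℝ) = -(padicValRat p x : ℝ) * log p := by
    rw [h1, log_zpow]; push_cast; ring
  have h3 : padicValRat p x = (x.num.natAbs.factorization p : ℤ) - x.den.factorization p := by
    rw [padicValRat_def, Nat.factorization_def _ hp, Nat.factorization_def _ hp]; rfl
  have h4 : x.num.natAbs.factorization p = 0 ∨ x.den.factorization p = 0 := by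
    by_cases h : p ∣ x.den
    · left
      apply Nat.factorization_eq_zero_of_not_dvd
      intro h'
      have := Nat.dvd_gcd h' h
      rw [x.reduced] at this
      exact hp.one_lt.ne' (Nat.dvd_one.1 this)
    · right; exact Nat.factorization_eq_zero_of_not_dvd h
  unfold localWeil
  have h5 := posLog_nonneg (x := ((padicNorm p (x - 1) : ℚ) : ℝ)⁻¹)
  have h6 : log ((padicNorm p x : ℚ) : ℝ) ≤ posLog ((padicNorm p x : ℚ) : ℝ) := le_max_right _ _
  have h7 : log ((padicNorm p x : ℚ) : ℝ)⁻¹ ≤ posLog ((padicNorm p x : ℚ) : ℝ)⁻¹ :=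
    le_max_right _ _
  have h8 := posLog_nonneg (x := ((padicNorm p x : ℚ) : ℝ))
  have h9 := posLog_nonneg (x := ((padicNorm p x : ℚ) : ℝ)⁻¹)
  rw [log_inv] at h7
  rw [h2, h3] at h6 h7
  push_cast at h6 h7
  rcases h4 with h | h <;> rw [h] at h6 h7 ⊢ <;> simp only [Nat.cast_zero] at h6 h7 ⊢ <;> linarith

theorem log_eq_sum (S : Finset ℕ) (n : ℕ) (h : n.primeFactors ⊆ S) :
    log n = ∑ p ∈ S, (n.factorization p : ℝ) * log p := by
  rw [Real.log_nat_eq_sum_factorization, Finsupp.sum]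
  refine sum_subset (by simpa using h) fun p _ hp => ?_
  rw [Finsupp.notMem_support_iff.1 hp]; simp

theorem prox_ge (S : Finset ℕ) (hS : ∀ p ∈ S, p.Prime) (x : ℚ) (hx : 0 < x)
    (h1 : x.num.natAbs.primeFactors ⊆ S) (h2 : x.den.primeFactors ⊆ S) :
    2 * Height.logHeight₁ x - |log x| + log |(x : ℝ) - 1|⁻¹ ≤ proximity S x := by
  have h3 : log x.num.natAbs + log x.den ≤ ∑ p ∈ S, localWeil (fun y => (padicNorm p y : ℝ)) x := by
    rw [log_eq_sum S _ h1, log_eq_sum S _ h2, ← sum_add_distrib]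
    exact sum_le_sum fun p hp => local_padic p (hS p hp) x hx.ne'
  have h4 : log |(x : ℝ) - 1|⁻¹ ≤ localWeil (fun y => |(y : ℝ)|) x := by
    unfold localWeil
    have a1 := posLog_nonneg (x := |(x : ℝ)|)
    have a2 := posLog_nonneg (x := |(x : ℝ)|⁻¹)
    have a3 : log |((x - 1 : ℚ) : ℝ)|⁻¹ ≤ posLog |((x - 1 : ℚ) : ℝ)|⁻¹ := le_max_right _ _
    push_cast at a3 ⊢
    linarith
  have hnum : 0 < x.num := Rat.num_pos.2 hx
  have hn : (0 : ℝ) < x.num.natAbs := by exact_mod_cast Int.natAbs_pos.2 hnum.ne'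
  have hd : (0 : ℝ) < x.den := by exact_mod_cast x.den_pos
  have h5 : log x = log x.num.natAbs - log x.den := by
    rw [← log_div hn.ne' hd.ne']
    congr 1
    have : ((x.num.natAbs : ℕ) : ℝ) = (x.num : ℝ) := by
      rw [← Int.cast_natCast, Int.natAbs_of_nonneg hnum.le]
    rw [this]
    exact_mod_cast (Rat.num_div_den x).symm
  have h6 : 2 * Height.logHeight₁ x ≤ log x.num.natAbs + log x.den + |log x| := by
    rw [Rat.logHeight₁_eq_log_max, h5]
    rcases le_total x.num.natAbs x.den with h | h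
    · rw [max_eq_right h]
      linarith [neg_abs_le (log x.num.natAbs - log x.den)]
    · rw [max_eq_left h]
      linarith [le_abs_self (log x.num.natAbs - log x.den)]
  unfold proximity
  linarith

theorem exists_close (S : Finset ℕ) (hS : ∀ p ∈ S, p.Prime) (n : ℕ) (hn : S.card = n + 2)
    (T : ℕ) (hT : 1 ≤ T) :
    ∃ x : ℚ, 0 < x ∧ x ≠ 1 ∧ x.num.natAbs.primeFactors ⊆ S ∧ x.den.primeFactors ⊆ S ∧
      Height.logHeight₁ x ≤ T * ∑ p ∈ S, log p ∧
      |log x| ≤ (∑ p ∈ S, log (p : ℝ)) / (T : ℝ) ^ (n + 1) := by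
  classical
  set Λ := ∑ p ∈ S, log (p : ℝ) with hΛ
  have hlp : ∀ p ∈ S, 0 < log (p : ℝ) := fun p hp =>
    log_pos (by exact_mod_cast (hS p hp).one_lt)
  have hΛ0 : 0 < Λ := sum_pos hlp (card_pos.1 (by omega))
  have hTR : (1 : ℝ) ≤ T := by exact_mod_cast hT
  set δ := Λ / (T : ℝ) ^ (n + 1) with hδ
  have hδ0 : 0 < δ := by positivity
  set a : (S → ℕ) → ℕ := fun e => ∏ i : S, (i : ℕ) ^ e i with ha
  have hane : ∀ e, a e ≠ 0 := fun e =>
    prod_ne_zero_iff.2 fun i _ => pow_ne_zero _ (hS i i.2).ne_zero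
  have hlog : ∀ e, log (a e) = ∑ i : S, (e i : ℝ) * log (i : ℕ) := by
    intro e
    simp only [ha]
    push_cast
    have hz : ∀ i : S, ((i : ℕ) : ℝ) ^ e i ≠ 0 := fun i =>
      pow_ne_zero _ (Nat.cast_ne_zero.2 (hS i.1 i.2).ne_zero)
    rw [log_prod (fun i _ => hz i)]
    simp [log_pow]
  have hfac : ∀ e (j : S), (a e).factorization j = e j := by
    intro e j
    simp only [ha]
    have hz : ∀ i : S, (i : ℕ) ^ e i ≠ 0 := fun i => pow_ne_zero _ (hS i.1 i.2).ne_zero
    rw [Nat.factorization_prod (fun i _ => hz i), Finsupp.finsetSum_apply, sum_eq_single j]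
    · rw [(hS j j.2).factorization_pow]; simp
    · intro i _ hij
      rw [(hS i i.2).factorization_pow, Finsupp.single_eq_of_ne]
      exact fun h => hij (Subtype.ext h).symm
    · simp
  have hpf : ∀ e (d : ℕ), d ∣ a e → d.primeFactors ⊆ S := by
    intro e d hd q hq
    have hq1 := Nat.prime_of_mem_primeFactors hq
    have hq2 : q ∣ a e := (Nat.dvd_of_mem_primeFactors hq).trans hd
    obtain ⟨i, _, hi⟩ := (Prime.dvd_finsetProd_iff hq1.prime _).1 hq2
    have := (Nat.prime_dvd_prime_iff_eq hq1 (hS i i.2)).1 (hq1.dvd_of_dvd_pow hi)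
    rw [this]; exact i.2
  set E := Fintype.piFinset (fun _ : S => range (T + 1)) with hE
  have hle : ∀ e ∈ E, log (a e) ≤ T * Λ := by
    intro e he
    rw [hlog, hΛ, mul_sum, ← sum_coe_sort S]
    refine sum_le_sum fun i _ => mul_le_mul_of_nonneg_right ?_ (hlp i i.2).le
    have := mem_range.1 (Fintype.mem_piFinset.1 he i)
    exact_mod_cast (by omega : e i ≤ T)
  have hcard : (range (T ^ (n + 2) + 1)).card < E.card := by
    rw [hE, Fintype.card_piFinset]
    simp only [card_range, prod_const, card_univ, Fintype.card_coe, hn]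
    have b1 : T ^ (n + 1) ≤ (T + 1) ^ (n + 1) := Nat.pow_le_pow_left (by omega) _
    have b2 : 2 ^ 1 ≤ (T + 1) ^ (n + 1) :=
      (Nat.pow_le_pow_left (by omega) _).trans (Nat.pow_le_pow_right (by omega) (by omega))
    rw [pow_succ T (n + 1), pow_succ (T + 1) (n + 1)]
    nlinarith
  obtain ⟨e, he, e', he', hne, hf⟩ := exists_ne_map_eq_of_card_lt_of_maps_to hcard
    (f := fun e => ⌊log (a e) / δ⌋₊) (by
      intro e he
      simp only [coe_range, Set.mem_Iio]
      apply Nat.lt_succ_of_le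
      apply Nat.floor_le_of_le
      rw [div_le_iff₀ hδ0, hδ]
      push_cast
      have : (T : ℝ) ^ (n + 2) * (Λ / (T : ℝ) ^ (n + 1)) = T * Λ := by field_simp; ring
      rw [this]; exact hle e he)
  have hx0 : (0 : ℚ) < (a e : ℚ) / (a e' : ℚ) := by
    have := Nat.pos_of_ne_zero (hane e)
    have := Nat.pos_of_ne_zero (hane e')
    positivity
  have hnum : ((a e : ℚ) / (a e' : ℚ)).num.natAbs ∣ a e := by
    have := Rat.num_dvd (a e : ℤ) (b := (a e' : ℤ)) (by exact_mod_cast hane e')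
    rw [Rat.divInt_eq_div] at this
    push_cast at this
    simpa using Int.natAbs_dvd_natAbs.2 this
  have hden : ((a e : ℚ) / (a e' : ℚ)).den ∣ a e' := by
    have := Rat.den_dvd (a e : ℤ) (a e' : ℤ)
    rw [Rat.divInt_eq_div] at this
    push_cast at this
    exact_mod_cast this
  refine ⟨(a e : ℚ) / (a e' : ℚ), hx0, ?_, hpf e _ hnum, hpf e' _ hden, ?_, ?_⟩
  · intro h
    rw [div_eq_one_iff_eq (by exact_mod_cast hane e')] at h
    have h' : a e = a e' := by exact_mod_cast h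
    apply hne
    funext j
    rw [← hfac e j, ← hfac e' j, h']
  · rw [Rat.logHeight₁_eq_log_max]
    have b1 := Nat.le_of_dvd (Nat.pos_of_ne_zero (hane e)) hnum
    have b2 := Nat.le_of_dvd (Nat.pos_of_ne_zero (hane e')) hden
    have b3 : 0 < ((a e : ℚ) / (a e' : ℚ)).den := Rat.den_pos _
    rcases le_total ((a e : ℚ) / (a e' : ℚ)).num.natAbs ((a e : ℚ) / (a e' : ℚ)).den with h | h
    · rw [max_eq_right h]
      exact (log_le_log (by exact_mod_cast b3) (by exact_mod_cast b2)).trans (hle e' he')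
    · rw [max_eq_left h]
      exact (log_le_log (by exact_mod_cast b3.trans_le h) (by exact_mod_cast b1)).trans (hle e he)
  · push_cast
    rw [log_div (by exact_mod_cast hane e) (by exact_mod_cast hane e')]
    have c1 : 0 ≤ log (a e) / δ := div_nonneg (log_natCast_nonneg _) hδ0.le
    have c2 : 0 ≤ log (a e') / δ := div_nonneg (log_natCast_nonneg _) hδ0.le
    have d1 := Nat.floor_le c1
    have d2 := Nat.floor_le c2
    have d3 := Nat.lt_floor_add_one (log (a e) / δ)
    have d4 := Nat.lt_floor_add_one (log (a e') / δ)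
    rw [hf] at d1 d3
    have d5 : |log (a e) / δ - log (a e') / δ| ≤ 1 := by
      rw [abs_le]; constructor <;> linarith
    rw [← sub_div, abs_div, abs_of_pos hδ0, div_le_one hδ0] at d5
    exact d5

theorem main (C : ℝ) : ∃ S : Finset ℕ, (∀ p ∈ S, p.Prime) ∧
    ∀ (hK hA m : ℚ → ℝ) (B : ℝ),
      (∀ x, |hK x - (-2) * Height.logHeight₁ x| ≤ B) →
      (∀ x, |hA x - Height.logHeight₁ x| ≤ B) →
      (∀ x, x ≠ 0 → x ≠ 1 → |m x - proximity S x| ≤ B) →
      {x : ℚ | x ≠ 0 ∧ x ≠ 1 ∧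
        C * Real.posLog (hA x) + Real.log |(NumberField.discr ℚ : ℝ)| ≤ hK x + m x}.Infinite := by
  obtain ⟨n, hn⟩ := exists_nat_ge C
  obtain ⟨S, hS1, hS2⟩ := Nat.infinite_setOfPred_prime.exists_subset_card_eq (n + 2)
  have hS : ∀ p ∈ S, p.Prime := fun p hp => hS1 hp
  refine ⟨S, hS, fun hK hA m B h1 h2 h3 => ?_⟩
  set Λ := ∑ p ∈ S, log (p : ℝ) with hΛ
  have hlp : ∀ p ∈ S, 0 < log (p : ℝ) := fun p hp =>
    log_pos (by exact_mod_cast (hS p hp).one_lt)
  have hΛ0 : 0 < Λ := sum_pos hlp (card_pos.1 (by omega))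
  have hB : 0 ≤ B := (abs_nonneg _).trans (h1 0)
  have key : ∀ R : ℝ, ∃ x ∈ {x : ℚ | x ≠ 0 ∧ x ≠ 1 ∧
        C * Real.posLog (hA x) + Real.log |(NumberField.discr ℚ : ℝ)| ≤ hK x + m x},
        R < |(x : ℝ) - 1|⁻¹ := by
    intro R
    set K := n * log (Λ + B + 1) + 2 * B + 1 + log (2 * Λ) with hK'
    obtain ⟨T, hT⟩ := exists_nat_gt (max (max (exp K) Λ) (max (2 * Λ * R) 1))
    have hT1 : (1 : ℝ) < T := lt_of_le_of_lt ((le_max_right _ _).trans (le_max_right _ _)) hT
    have hT2 : 2 * Λ * R < T := lt_of_le_of_lt ((le_max_left _ _).trans (le_max_right _ _)) hT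
    have hT3 : Λ < T := lt_of_le_of_lt ((le_max_right _ _).trans (le_max_left _ _)) hT
    have hT4 : exp K < T := lt_of_le_of_lt ((le_max_left _ _).trans (le_max_left _ _)) hT
    have hT5 : K < log T := (lt_log_iff_exp_lt (by linarith)).2 hT4
    have hT6 : 1 ≤ T := by exact_mod_cast hT1.le
    obtain ⟨x, hx0, hx1, f1, f2, f3, f4⟩ := exists_close S hS n hS2 T hT6
    rw [← hΛ] at f3 f4
    have hpow : (T : ℝ) ≤ (T : ℝ) ^ (n + 1) := le_self_pow₀ hT1.le (by omega)
    have hpow0 : (0 : ℝ) < (T : ℝ) ^ (n + 1) := by positivity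
    have f5 : |log x| ≤ 1 := f4.trans (by rw [div_le_one hpow0]; linarith)
    have hxR : (0 : ℝ) < x := by exact_mod_cast hx0
    have f6 : |(x : ℝ) - 1| ≤ 2 * Λ / (T : ℝ) ^ (n + 1) := by
      have := Real.abs_exp_sub_one_le f5
      rw [exp_log hxR] at this
      rw [mul_div_assoc]; linarith
    have f7 : 0 < |(x : ℝ) - 1| := abs_pos.2 (sub_ne_zero.2 (by exact_mod_cast hx1))
    have f8 : (T : ℝ) ^ (n + 1) / (2 * Λ) ≤ |(x : ℝ) - 1|⁻¹ := by
      rw [← inv_div]; exact inv_anti₀ f7 f6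
    have f9 : (n + 1) * log T - log (2 * Λ) ≤ log |(x : ℝ) - 1|⁻¹ := by
      have := log_le_log (by positivity) f8
      rw [log_div hpow0.ne' (by positivity), log_pow] at this
      push_cast at this
      exact this
    have g1 := prox_ge S hS x hx0 f1 f2
    have g2 := abs_le.1 (h1 x)
    have g3 := abs_le.1 (h2 x)
    have g4 := abs_le.1 (h3 x hx0.ne' hx1)
    have hlT : 0 ≤ log (T : ℝ) := log_nonneg hT1.le
    have hlB : 0 ≤ log (Λ + B + 1) := log_nonneg (by linarith)
    have g5 : posLog (hA x) ≤ log T + log (Λ + B + 1) := by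
      rw [← log_mul (by positivity) (by positivity), ← posLog_abs]
      have hh : 0 ≤ Height.logHeight₁ x := Height.zero_le_logHeight₁ x
      have a1 : |hA x| ≤ T * (Λ + B + 1) := by
        rw [abs_le]; constructor <;> nlinarith
      refine (posLog_le_posLog (abs_nonneg _) a1).trans (le_of_eq (posLog_eq_log ?_))
      rw [abs_of_pos (by positivity)]; nlinarith
    have g6 : C * posLog (hA x) ≤ n * (log T + log (Λ + B + 1)) :=
      (mul_le_mul_of_nonneg_right hn posLog_nonneg).trans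
        (mul_le_mul_of_nonneg_left g5 (Nat.cast_nonneg _))
    refine ⟨x, ⟨hx0.ne', hx1, ?_⟩, ?_⟩
    · rw [NumberField.discr_rat]
      simp only [Int.cast_one, abs_one, log_one, add_zero]
      linarith
    · refine lt_of_lt_of_le ?_ f8
      rw [lt_div_iff₀ (by positivity)]
      linarith
  intro hfin
  obtain ⟨R, hR⟩ := (hfin.image (fun x : ℚ => |(x : ℝ) - 1|⁻¹)).bddAbove
  obtain ⟨x, hx, hlt⟩ := key R
  exact absurd (hR ⟨x, hx, rfl⟩) (not_le.2 hlt)

end Pool.Agent.H26Z.Voj
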